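import Pool.Agent.T2h95.OF.Stm
import Pool.Agent.T2h95.OD.LV5

/-! # LV7: the inequality at level `ε` (helper6, adapted from `T2h95/OD/LV5.lean`) -/

set_option autoImplicit false

namespace Pool.Agent.T2h95.OF

open MeasureTheory Set Filter Topology
open scoped ENNReal InnerProductSpace
open Pool.Agent.R972.OP (pd)
open Pool.Agent.T2h95.OC
open Pool.Agent.T2h95.OD
open Pool.Agent.T2h95.OD.LV5 (isCompact_Bx isCompact_Ln isClosed_CR mn mn_bound mn_lim mn_mono
  mn_nonneg mn_sq cont_eX cont_eZ law_compl)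

namespace LV7

variable {n k : ℕ}

/-- the space of the parameters: values of `φ`, of `ψ`, and of their derivatives -/
abbrev Pp (n k : ℕ) : Type :=
  (Fin n → ℝ) × (Fin n → Fin k → ℝ) × (Fin n → ℝ) × (Fin n → Fin k → ℝ)

/-- points `x`, parameters, points `v` -/
abbrev Sq (n k : ℕ) : Type := (Fin n → ℝ) × Pp n k × (Fin n → Fin k → ℝ)

/-- the point of the fibre -/
def y7 (z : Sq n k) : Fin n → Fin k → ℝ := fun i j => z.2.1.2.1 i j + z.2.1.1 i * z.2.2 i j

theorem cont_y7 : Continuous (fun z : Sq n k => y7 z) := by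
  unfold y7
  fun_prop

theorem exists_bound {Φ : Sq n k → ℝ} (hΦ : Continuous Φ) {L : Set (Fin k → ℝ)}
    (hL : IsCompact L) (c d : ℝ) {Q : Set (Pp n k)} (hQ : IsCompact Q) : ∃ M : ℝ, 0 ≤ M ∧
      ∀ x ∈ Bx n c d, ∀ p ∈ Q, ∀ v ∈ Ln n L, |Φ (x, p, v)| ≤ M := by
  obtain ⟨M, hM⟩ := ((isCompact_Bx n c d).prod (hQ.prod
    (isCompact_Ln hL))).exists_bound_of_continuousOn hΦ.continuousOn
  exact ⟨max M 0, le_max_right _ _, fun x hx p hp v hv =>
    (hM (x, p, v) ⟨hx, hp, hv⟩).trans (le_max_left _ _)⟩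

theorem mn_cont {Φ : Sq n k → ℝ} (hΦ : Continuous Φ) {L : Set (Fin k → ℝ)} (hL : IsCompact L)
    {p : (Fin n → ℝ) → Pp n k} (hp : Continuous p) :
    Continuous fun x => mn L fun v => Φ (x, p x, v) := by
  unfold mn
  refine Continuous.div_const ?_ _
  refine continuous_parametric_integral_of_continuous ?_ (isCompact_Ln hL)
  exact hΦ.comp (continuous_fst.prodMk ((hp.comp continuous_fst).prodMk continuous_snd))

theorem int_lim {Φ : Sq n k → ℝ} (hΦ : Continuous Φ) {L : Set (Fin k → ℝ)} (hL : IsCompact L)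
    {c d : ℝ} {Q : Set (Pp n k)} (hQ : IsCompact Q) {p : ℕ → (Fin n → ℝ) → Pp n k}
    {p0 : (Fin n → ℝ) → Pp n k} (hp : ∀ m, Continuous (p m)) (μ : Measure (Fin n → ℝ))
    [IsFiniteMeasure μ] (X : Set (Fin n → ℝ)) (hX : X ⊆ Bx n c d) (hXm : MeasurableSet X)
    (hpb : ∀ m, ∀ x ∈ X, p m x ∈ Q)
    (hpl : ∀ x ∈ X, Tendsto (fun m => p m x) atTop (𝓝 (p0 x)))
    (χ : ℝ → ℝ) (hχ : Continuous χ) :
    Tendsto (fun m => ∫ x in X, χ (mn L fun v => Φ (x, p m x, v)) ∂μ) atTop
      (𝓝 (∫ x in X, χ (mn L fun v => Φ (x, p0 x, v)) ∂μ)) := by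
  obtain ⟨M, hM0, hM⟩ := exists_bound hΦ hL c d hQ
  obtain ⟨C, hC⟩ := (isCompact_Icc (a := -M) (b := M)).exists_bound_of_continuousOn
    hχ.continuousOn
  refine tendsto_integral_of_dominated_convergence (fun _ => C) ?_ ?_ ?_ ?_
  · intro m
    exact (hχ.comp (mn_cont hΦ hL (hp m))).aestronglyMeasurable
  · exact integrable_const _
  · intro m
    filter_upwards [ae_restrict_mem hXm] with x hx
    refine hC _ (abs_le.1 (mn_bound hL hM0 fun v hv => ?_))
    exact hM x (hX hx) _ (hpb m x hx) v hv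
  · filter_upwards [ae_restrict_mem hXm] with x hx
    refine (hχ.tendsto _).comp (mn_lim hL (M := M) (fun m => ?_) (fun m v hv => ?_) fun v => ?_)
    · exact hΦ.comp (continuous_const.prodMk (continuous_const.prodMk continuous_id))
    · exact hM x (hX hx) _ (hpb m x hx) v hv
    · refine (hΦ.tendsto _).comp ?_
      exact tendsto_const_nhds.prodMk_nhds ((hpl x hx).prodMk_nhds tendsto_const_nhds)

/-- one derivative -/
noncomputable def pe (f : (Fin n → ℝ) × (Fin n → Fin k → ℝ) → ℝ) (i : Fin n)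
    (z : Sq n k) : ℝ := e7 f i (z.2.1.2.2.2 i) (z.2.1.2.2.1 i) (z.2.2 i) (z.1, y7 z)

theorem cont_pe {f : (Fin n → ℝ) × (Fin n → Fin k → ℝ) → ℝ}
    (hf : ContDiff ℝ 1 f) (i : Fin n) : Continuous (pe f i) := by
  unfold pe e7
  have hp : Continuous (fun z : Sq n k => (z.1, y7 z)) := continuous_fst.prodMk cont_y7
  refine ((cont_eX hf i).comp hp).add (continuous_finsetSum _ fun j _ => ?_)
  refine Continuous.mul ?_ ((cont_eZ hf i j).comp hp)
  fun_prop

/-- the energy -/
noncomputable def PE (θ : ℝ → ℝ) (f : (Fin n → ℝ) × (Fin n → Fin k → ℝ) → ℝ)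
    (z : Sq n k) : ℝ := ∑ i, 4 * θ (z.1 i) ^ 2 * pe f i z ^ 2

theorem cont_PE {θ : ℝ → ℝ} (hθ : Continuous θ)
    {f : (Fin n → ℝ) × (Fin n → Fin k → ℝ) → ℝ} (hf : ContDiff ℝ 1 f) :
    Continuous (PE θ f) := by
  unfold PE
  refine continuous_finsetSum _ fun i _ => ?_
  have := cont_pe hf i
  fun_prop

theorem continuous_G7 (C V lam H : ℝ) (w : Fin k → ℝ)
    {f : (Fin n → ℝ) × (Fin n → Fin k → ℝ) → ℝ}
    (hf : ContDiff ℝ 1 f) : Continuous (G7 C V lam H w f) := by
  unfold G7
  refine continuous_finsetSum _ fun i _ => ?_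
  have h1 := cont_eX hf i
  refine (continuous_const.mul ((h1.add (continuous_finsetSum _ fun j _ =>
    continuous_const.mul (cont_eZ hf i j))).pow 2)).add (continuous_const.mul ?_)
  exact continuous_finsetSum _ fun j _ => (cont_eZ hf i j).pow 2

end LV7

open LV7 in
theorem t_LV7 (hE : S_EPS) (hW : S_WP7) (hCV : S_CV7) (hS : S_SG7) (hSD : S_SD7) (hSL : S_SL7)
    (hG : S_GD7) (hB : S_BD7) (hC : S_CR5) (hD : S_LD5) (hL : S_LC) : S_LV7 := by
  intro α β H φ k ψ L lam hk hP hLB hCC hPL hlam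
  obtain ⟨m, hαm, hmβ, hW⟩ := hW α β H φ k hP
  -- a bound for the points of `L`
  obtain ⟨B0, hB0⟩ := hLB.comp.isBounded.exists_norm_le
  -- concavity
  have hφ1 : ConcaveOn ℝ (Icc α β) (fun x => φ x + 1 * φ x) := by
    simp only [one_mul]
    exact hP.conc.add hP.conc
  have hφ2 : ConcaveOn ℝ (Icc α β) (fun x => -φ x + 1 * φ x) := by
    have : (fun x => -φ x + 1 * φ x) = fun _ => (0 : ℝ) := by
      funext x; ring
    rw [this]
    exact concaveOn_const _ (convex_Icc _ _)
  have hψ1 : ∀ j, ConcaveOn ℝ (Icc α β) (fun x => ψ x j + B0 * φ x) := by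
    intro j
    have h1 := hCV k α β H φ ψ L hP hLB hCC (Pi.single j 1) B0 (fun v hv => by
      have h2 : ∑ i, (Pi.single j (1 : ℝ) : Fin k → ℝ) i * v i = v j := by
        rw [Finset.sum_eq_single j]
        · simp
        · intro i _ hi
          simp [Pi.single_eq_of_ne hi]
        · simp
      rw [h2]
      exact (le_abs_self _).trans ((norm_le_pi_norm v j).trans (hB0 v hv)))
    have h3 : (fun x => ∑ i, (Pi.single j (1 : ℝ) : Fin k → ℝ) i * ψ x i + φ x * B0) =
        fun x => ψ x j + B0 * φ x := by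
      funext x
      have h2 : ∑ i, (Pi.single j (1 : ℝ) : Fin k → ℝ) i * ψ x i = ψ x j := by
        rw [Finset.sum_eq_single j]
        · simp
        · intro i _ hi
          simp [Pi.single_eq_of_ne hi]
        · simp
      rw [h2, mul_comm]
    rw [h3] at h1
    exact h1
  have hψ2 : ∀ j, ConcaveOn ℝ (Icc α β) (fun x => -ψ x j + B0 * φ x) := by
    intro j
    have h1 := hCV k α β H φ ψ L hP hLB hCC (Pi.single j (-1)) B0 (fun v hv => by
      have h2 : ∑ i, (Pi.single j (-1 : ℝ) : Fin k → ℝ) i * v i = -v j := by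
        rw [Finset.sum_eq_single j]
        · simp
        · intro i _ hi
          simp [Pi.single_eq_of_ne hi]
        · simp
      rw [h2]
      exact (neg_le_abs _).trans ((norm_le_pi_norm v j).trans (hB0 v hv)))
    have h3 : (fun x => ∑ i, (Pi.single j (-1 : ℝ) : Fin k → ℝ) i * ψ x i + φ x * B0) =
        fun x => -ψ x j + B0 * φ x := by
      funext x
      have h2 : ∑ i, (Pi.single j (-1 : ℝ) : Fin k → ℝ) i * ψ x i = -ψ x j := by
        rw [Finset.sum_eq_single j]
        · simp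
        · intro i _ hi
          simp [Pi.single_eq_of_ne hi]
        · simp
      rw [h2, mul_comm]
    rw [h3] at h1
    exact h1
  have hψc : ∀ j, Continuous fun x => ψ x j := fun j =>
    (continuous_apply j).comp hCC.cont
  -- derivatives at the median
  obtain ⟨_, Dm, _, _, _, _, _, _, _, hDm⟩ := hS α β H φ hP φ 1 hP.cont hφ1 hφ2 m m hαm le_rfl hmβ
  have hD0 : HasDerivWithinAt φ (Dm m) (Ioi m) m := (hDm m ⟨le_rfl, le_rfl⟩).2
  have hwex : ∀ j, ∃ a : ℝ, HasDerivWithinAt (fun t => ψ t j) a (Ioi m) m := by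
    intro j
    obtain ⟨_, Em, _, _, _, _, _, _, _, hEm⟩ := hS α β H φ hP (fun x => ψ x j) B0 (hψc j) (hψ1 j)
      (hψ2 j) m m hαm le_rfl hmβ
    exact ⟨Em m, (hEm m ⟨le_rfl, le_rfl⟩).2⟩
  choose w hw using hwex
  refine ⟨w, ?_⟩
  intro ε q hε hε2 hq n R f hf
  obtain ⟨h1, h2, -, -⟩ := hL _ (hD α β H φ k hP).2
  set ν : Measure ℝ := law (r5 α β k φ) with hν
  have hcompl : ν (Icc α β)ᶜ = 0 := law_compl α β k φ
  have hαc : α < q 0 := by
    by_contra hc
    push Not at hc
    have h4 := hq.lvl 0 ⟨le_rfl, zero_le_one⟩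
    rw [mul_zero, add_zero] at h4
    have h5 : Iic (q 0) ⊆ (Icc α β)ᶜ ∪ {α} := by
      intro x hx
      by_cases hxa : x = α
      · exact Or.inr hxa
      · refine Or.inl fun h => hxa (le_antisymm (le_trans hx hc) h.1)
    have h6 : ν (Iic (q 0)) = 0 := by
      refine measure_mono_null h5 ?_
      rw [measure_union_null_iff]
      exact ⟨hcompl, measure_singleton α⟩
    rw [h6] at h4
    have := ENNReal.ofReal_pos.2 hε
    rw [← h4] at this
    exact lt_irrefl _ this
  have hdβ : q 1 < β := by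
    by_contra hc
    push Not at hc
    have h4 := hq.lvl 1 ⟨zero_le_one, le_rfl⟩
    have h5 : (Iic (q 1))ᶜ ⊆ (Icc α β)ᶜ := by
      refine compl_subset_compl.2 fun x hx => le_trans hx.2 hc
    have h6 : ν (Iic (q 1))ᶜ = 0 := measure_mono_null h5 hcompl
    have h7 : ν (Iic (q 1)) = 1 := by
      rw [← prob_compl_eq_zero_iff measurableSet_Iic]
      exact h6
    rw [h7] at h4
    have h8 : ENNReal.ofReal (ε + (1 - 2 * ε) * 1) < ENNReal.ofReal 1 :=
      (ENNReal.ofReal_lt_ofReal_iff one_pos).2 (by linarith)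
    rw [← h4, ENNReal.ofReal_one] at h8
    exact lt_irrefl _ h8
  have hcd : q 0 < q 1 := hq.mono ⟨le_rfl, zero_le_one⟩ ⟨zero_le_one, le_rfl⟩ zero_lt_one
  obtain ⟨θ, hθc, hθ0, hθW, hθV, hθD, hθm⟩ := hW (q 0) (q 1) hαc hcd.le hdβ
  obtain ⟨s, D, M, hs1, hs2, hs3, hs4, hDme, hDM, hDx⟩ := hS α β H φ hP φ 1 hP.cont hφ1 hφ2 (q 0)
    (q 1) hαc hcd.le hdβ
  choose sj Ej Mj hsj1 hsj2 hsj3 hsj4 hEjm hEjM hEjx using fun j => hS α β H φ hP (fun x => ψ x j)
    B0 (hψc j) (hψ1 j) (hψ2 j) (q 0) (q 1) hαc hcd.le hdβ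
  set X : Set (Fin n → ℝ) := CR R ∩ Bx n (q 0) (q 1) with hX
  have hXm : MeasurableSet X :=
    (isClosed_CR R).measurableSet.inter (isCompact_Bx n _ _).measurableSet
  have hXs : X ⊆ Bx n (q 0) (q 1) := inter_subset_right
  have hLc := hLB.comp
  -- parameters
  set p : ℕ → (Fin n → ℝ) → Pp n k := fun N x => (fun i => s N (x i), fun i j => sj j N (x i),
    fun i => deriv (s N) (x i), fun i j => deriv (sj j N) (x i)) with hpdef
  set p0 : (Fin n → ℝ) → Pp n k := fun x => (fun i => φ (x i), fun i j => ψ (x i) j,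
    fun i => D (x i), fun i j => Ej j (x i)) with hp0def
  have hpc : ∀ N, Continuous (p N) := by
    intro N
    refine Continuous.prodMk ?_ (Continuous.prodMk ?_ (Continuous.prodMk ?_ ?_))
    · exact continuous_pi fun i => (hs1 N).continuous.comp (continuous_apply i)
    · exact continuous_pi fun i => continuous_pi fun j =>
        (hsj1 j N).continuous.comp (continuous_apply i)
    · exact continuous_pi fun i => ((hs1 N).continuous_deriv le_rfl).comp (continuous_apply i)
    · exact continuous_pi fun i => continuous_pi fun j =>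
        ((hsj1 j N).continuous_deriv le_rfl).comp (continuous_apply i)
  set BB : ℝ := |M| + ∑ j, |Mj j| with hBB
  have hBB0 : 0 ≤ BB := by positivity
  have hMB : M ≤ BB := by
    have : 0 ≤ ∑ j, |Mj j| := by positivity
    have := le_abs_self M
    linarith
  have hMjB : ∀ j, Mj j ≤ BB := by
    intro j
    have h3 := Finset.single_le_sum (f := fun j => |Mj j|) (fun i _ => abs_nonneg _)
      (Finset.mem_univ j)
    have h4 := le_abs_self (Mj j)
    have h5 := abs_nonneg M
    linarith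
  have hQ : IsCompact (Metric.closedBall (0 : Pp n k) BB) := isCompact_closedBall _ _
  have hpb : ∀ N, ∀ x ∈ X, p N x ∈ Metric.closedBall (0 : Pp n k) BB := by
    intro N x hx
    rw [mem_closedBall_zero_iff]
    have e1 : ∀ i, |s N (x i)| ≤ BB ∧ |deriv (s N) (x i)| ≤ BB := fun i =>
      ⟨(hs3 N (x i) (hXs hx i)).1.trans hMB, (hs3 N (x i) (hXs hx i)).2.trans hMB⟩
    have e2 : ∀ i j, |sj j N (x i)| ≤ BB ∧ |deriv (sj j N) (x i)| ≤ BB := fun i j =>
      ⟨(hsj3 j N (x i) (hXs hx i)).1.trans (hMjB j), (hsj3 j N (x i) (hXs hx i)).2.trans (hMjB j)⟩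
    refine norm_prod_le_iff.2 ⟨?_, norm_prod_le_iff.2 ⟨?_, norm_prod_le_iff.2 ⟨?_, ?_⟩⟩⟩
    · exact (pi_norm_le_iff_of_nonneg hBB0).2 fun i => (e1 i).1
    · exact (pi_norm_le_iff_of_nonneg hBB0).2 fun i =>
        (pi_norm_le_iff_of_nonneg hBB0).2 fun j => (e2 i j).1
    · exact (pi_norm_le_iff_of_nonneg hBB0).2 fun i => (e1 i).2
    · exact (pi_norm_le_iff_of_nonneg hBB0).2 fun i =>
        (pi_norm_le_iff_of_nonneg hBB0).2 fun j => (e2 i j).2
  have hpl : ∀ x ∈ X, Tendsto (fun N => p N x) atTop (𝓝 (p0 x)) := by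
    intro x hx
    refine Tendsto.prodMk_nhds ?_ (Tendsto.prodMk_nhds ?_ (Tendsto.prodMk_nhds ?_ ?_))
    · exact tendsto_pi_nhds.2 fun i => hs4 (x i)
    · exact tendsto_pi_nhds.2 fun i => tendsto_pi_nhds.2 fun j => hsj4 j (x i)
    · exact tendsto_pi_nhds.2 fun i => (hDx (x i) (hXs hx i)).1
    · exact tendsto_pi_nhds.2 fun i => tendsto_pi_nhds.2 fun j => (hEjx j (x i) (hXs hx i)).1
  have hlim : ∀ Φ : Sq n k → ℝ, Continuous Φ → ∀ χ : ℝ → ℝ, Continuous χ →
      Tendsto (fun N => ∫ x in X, χ (mn L fun v => Φ (x, p N x, v)) ∂pw n ν) atTop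
      (𝓝 (∫ x in X, χ (mn L fun v => Φ (x, p0 x, v)) ∂pw n ν)) :=
    fun Φ hΦ χ hχ => int_lim hΦ hLc hQ hpc (pw n ν) X hXs hXm hpb hpl χ hχ
  have hint : ∀ G : (Fin n → ℝ) → ℝ, Continuous G → IntegrableOn G X (pw n ν) := fun G hG =>
    (hG.continuousOn.integrableOn_compact (isCompact_Bx n (q 0) (q 1))).mono_set hXs
  have hτc : Continuous (fun x => 4 * θ x ^ 2) := by fun_prop
  -- the two functions
  set Φf : Sq n k → ℝ := fun z => f (z.1, y7 z) with hΦf
  have hΦfc : Continuous Φf := hf.continuous.comp (continuous_fst.prodMk cont_y7)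
  have hPEc := cont_PE hθc hf
  have hstep : ∀ N, (pw n ν X).toReal *
        (∫ x in X, (mn L fun v => Φf (x, p N x, v)) ^ 2 ∂pw n ν) -
      (∫ x in X, (mn L fun v => Φf (x, p N x, v)) ∂pw n ν) ^ 2 ≤
      (pw n ν X).toReal * ∫ x in X, (mn L fun v => PE θ f (x, p N x, v)) ∂pw n ν := by
    intro N
    obtain ⟨hg, hgd⟩ := hG n k (fun t j => sj j N t) (s N) L f hLB (fun j => hsj1 j N) (hs1 N) hf
    refine (hE ν (fun x => 4 * θ x ^ 2) hτc (fun x => by positivity) hθW ε q hε hε2 hq n R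
      (f7 (fun t j => sj j N t) (s N) L f) hg).trans ?_
    refine mul_le_mul_of_nonneg_left ?_ ENNReal.toReal_nonneg
    refine setIntegral_mono_on ?_ ?_ hXm ?_
    · refine hint _ (continuous_finsetSum _ fun i _ => ?_)
      refine (hτc.comp (continuous_apply i)).mul (Continuous.pow ?_ 2)
      exact (hg.continuous_fderiv (by norm_num)).clm_apply continuous_const
    · exact hint _ (mn_cont hPEc hLc (hpc N))
    · intro x _
      have hcv : ∀ i, Continuous fun v => pe f i (x, p N x, v) := fun i =>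
        (cont_pe hf i).comp (continuous_const.prodMk (continuous_const.prodMk continuous_id))
      have e1 : ∀ i, pd (f7 (fun t j => sj j N t) (s N) L f) i x =
          mn L fun v => pe f i (x, p N x, v) := fun i => hgd i x
      have e2 : (mn L fun v => PE θ f (x, p N x, v)) =
          ∑ i, 4 * θ (x i) ^ 2 * mn L fun v => pe f i (x, p N x, v) ^ 2 := by
        have hii : ∀ i ∈ (Finset.univ : Finset (Fin n)), IntegrableOn
            (fun v => 4 * θ (x i) ^ 2 * pe f i (x, p N x, v) ^ 2) (Ln n L) := fun i _ =>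
          (continuous_const.mul ((hcv i).pow 2)).continuousOn.integrableOn_compact
            (isCompact_Ln hLc)
        unfold mn PE
        show (∫ v in Ln n L, ∑ i, 4 * θ (x i) ^ 2 * pe f i (x, p N x, v) ^ 2) /
          (volume (Ln n L)).toReal = _
        rw [integral_finsetSum _ hii, Finset.sum_div]
        refine Finset.sum_congr rfl fun i _ => ?_
        rw [integral_const_mul, mul_div_assoc]
      rw [e2]
      refine Finset.sum_le_sum fun i _ => ?_
      rw [e1]
      exact mul_le_mul_of_nonneg_left (mn_sq hLc (hcv i)) (by positivity)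
  have l1 := hlim Φf hΦfc (fun y => y ^ 2) (continuous_pow 2)
  have l2 := hlim Φf hΦfc (fun y => y) continuous_id
  have l3 := hlim _ hPEc (fun y => y) continuous_id
  have hmain := le_of_tendsto_of_tendsto' ((l1.const_mul _).sub (l2.pow 2)) (l3.const_mul _) hstep
  refine hmain.trans (mul_le_mul_of_nonneg_left ?_ ENNReal.toReal_nonneg)
  have hGc := continuous_G7 216 (V5 α β k φ) lam H w hf
  refine integral_mono_of_nonneg ?_ ?_ ?_
  · refine Eventually.of_forall fun x => mn_nonneg fun v => ?_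
    unfold PE
    positivity
  · have h7 : Continuous (f7 ψ φ L (G7 216 (V5 α β k φ) lam H w f)) :=
      mn_cont (Φ := fun z => G7 216 (V5 α β k φ) lam H w f (z.1, y7 z))
        (hGc.comp (continuous_fst.prodMk cont_y7)) hLc
        (p := fun x => (fun i => φ (x i), fun i j => ψ (x i) j, fun _ => 0, fun _ _ => 0))
        (Continuous.prodMk (continuous_pi fun i => hP.cont.comp (continuous_apply i))
          (Continuous.prodMk (continuous_pi fun i => continuous_pi fun j =>
            (hψc j).comp (continuous_apply i)) continuous_const))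
    exact hint _ h7
  · filter_upwards [ae_restrict_mem hXm] with x hx
    refine mn_mono hLc ?_ ?_ ?_
    · exact hPEc.comp (continuous_const.prodMk (continuous_const.prodMk continuous_id))
    · refine hGc.comp (continuous_const.prodMk ?_)
      unfold s7
      fun_prop
    · intro v hv
      unfold PE G7
      refine Finset.sum_le_sum fun i _ => ?_
      have hxi := hXs hx i
      have hφ0 := hP.nonneg (x i)
      have hk0 : (0 : ℝ) < k + 1 := by positivity
      have hαx : α < x i := lt_of_lt_of_le hαc hxi.1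
      have hxβ : x i < β := lt_of_le_of_lt hxi.2 hdβ
      set r : ℝ := Real.sqrt (3 * (k + 1) ^ 2 * lam) with hr
      have hr2 : r ^ 2 = 3 * (k + 1) ^ 2 * lam := Real.sq_sqrt (by positivity)
      have hsl := hSL k α β H φ ψ L hP hLB hCC r (x i) m (D (x i)) (Dm m)
        (fun j => Ej j (x i)) w (Real.sqrt_nonneg _)
        (fun v hv => by rw [hr2]; exact hC k L lam hk hLB hPL hlam v hv) hαx hxβ hαm hmβ
        (hDx (x i) hxi).2 hD0 (fun j => (hEjx j (x i) hxi).2) hw
      rw [hr2] at hsl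
      exact hB k (eX f i (x, y7 (x, p0 x, v))) (V5 α β k φ) H lam (θ (x i)) (D (x i)) (Dm m)
        w (fun j => Ej j (x i)) (v i) (fun j => eZ f i j (x, y7 (x, p0 x, v))) (hθ0 _) (hθV _)
        ((hθD (x i) hxi (D (x i)) (hSD α β φ hP.conc (x i) hαx hxβ _ (hDx (x i) hxi).2)).trans
          (div_le_div_of_nonneg_right (hP.le _) hk0.le))
        (hθm (x i) (Dm m) (hSD α β φ hP.conc m hαm hmβ _ hD0)) hP.hpos.le hlam hsl
        (hC k L lam hk hLB hPL hlam _ (hv i))

end Pool.Agent.T2h95.OF
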