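import Pool.Agent.T2h95.OF.Pre
import Pool.Agent.T2h95.OF.CU7
import Pool.Agent.T2h95.OF.LV7
import Pool.Agent.T2h95.OF.PO7b

/-!
# Bodies with homothetic sections: the theorem
-/

set_option autoImplicit false

namespace Pool.Agent.T2h95.OF

open Pool.Agent.T2h95.OC
open Pool.Agent.T2h95.OD

theorem cu7_all : S_CU7 := t_CU7 t_TN5

theorem lv7_all : S_LV7 := t_LV7 eps_all wp7_all t_CV7 t_SG7 t_SD7 sl7_all t_GD7 t_BD7 t_CR5 t_LD5
  lc_all

theorem lc7_all : S_LC7 := t_LC7 t_QFE wp5_all t_LD5 lc_all lv7_all in5_all t_FC7 t_EXH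

theorem po7_all : S_PO7 := t_PO7 cu7_all fu7_all in5_all t_FC7 t_LD5

theorem th7_all : S_TH7 := t_TH7 db7_all lc7_all po7_all lw7_all sy7_all li7_all t_EU7 t_GR5 t_CB5
  t_GE7 t_CH5 fu7_all t_FC7 in5_all t_LD5 lc_all

end Pool.Agent.T2h95.OF
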