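import Pool.Agent.T2h95.OF.Stm

/-!
# (BD7) the pointwise bound
-/

set_option autoImplicit false

namespace Pool.Agent.T2h95.OF

theorem t_BD7 : S_BD7 := by
  intro k X V H lam θ D D₀ w E v Z hθ hV hD hD₀ hH hlam hE hv
  have hk : (0 : ℝ) < (k : ℝ) + 1 := by positivity
  obtain ⟨h, hh⟩ : ∃ h, h = H / ((k : ℝ) + 1) := ⟨_, rfl⟩
  rw [← hh] at hD hD₀
  have hh0 : 0 ≤ h := by
    rw [hh]
    positivity
  obtain ⟨r, hr⟩ : ∃ r, r = 3 * ((k : ℝ) + 1) ^ 2 * lam := ⟨_, rfl⟩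
  rw [← hr] at hE hv
  have hr0 : 0 ≤ r := by
    rw [hr]
    positivity
  have hrh : r * h ^ 2 = 3 * lam * H ^ 2 := by
    rw [hr, hh]
    field_simp
  obtain ⟨a, ha⟩ : ∃ a, a = X + ∑ j, w j * Z j := ⟨_, rfl⟩
  obtain ⟨b, hb⟩ : ∃ b, b = ∑ j, ((E j - w j) + D * v j) * Z j := ⟨_, rfl⟩
  have hab : X + ∑ j, (E j + D * v j) * Z j = a + b := by
    rw [ha, hb, add_assoc, ← Finset.sum_add_distrib]
    congr 1
    exact Finset.sum_congr rfl fun j _ => by ring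
  obtain ⟨q, hq⟩ : ∃ q, q = ∑ j, Z j ^ 2 := ⟨_, rfl⟩
  have hq0 : 0 ≤ q := by
    rw [hq]
    exact Finset.sum_nonneg fun j _ => sq_nonneg _
  obtain ⟨s, hs⟩ : ∃ s, s = ∑ j, ((E j - w j) + D * v j) ^ 2 := ⟨_, rfl⟩
  have hbs : b ^ 2 ≤ s * q := by
    rw [hb, hs, hq]
    exact Finset.sum_mul_sq_le_sq_mul_sq _ _ _
  have hs1 : s ≤ 3 / 2 * ∑ j, (E j - w j) ^ 2 + 3 * D ^ 2 * ∑ j, v j ^ 2 := by
    rw [hs, Finset.mul_sum, Finset.mul_sum, ← Finset.sum_add_distrib]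
    refine Finset.sum_le_sum fun j _ => ?_
    nlinarith [sq_nonneg ((E j - w j) - 2 * (D * v j))]
  have h1 : θ ^ 2 * (D - D₀) ^ 2 ≤ 4 * h ^ 2 := by
    have e1 : |θ * (D - D₀)| ≤ 2 * h := by
      rw [abs_mul, abs_of_nonneg hθ]
      have e2 : θ * |D - D₀| ≤ θ * (|D| + |D₀|) := mul_le_mul_of_nonneg_left (abs_sub _ _) hθ
      rw [mul_add] at e2
      linarith
    have e3 := sq_le_sq' (by linarith [(abs_le.1 e1).1]) (abs_le.1 e1).2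
    nlinarith
  have h2 : θ ^ 2 * D ^ 2 ≤ h ^ 2 := by
    have e1 : |θ * D| ≤ h := by
      rw [abs_mul, abs_of_nonneg hθ]
      exact hD
    have e3 := sq_le_sq' (by linarith [(abs_le.1 e1).1]) (abs_le.1 e1).2
    nlinarith
  have h3 : θ ^ 2 * s ≤ 27 * lam * H ^ 2 := by
    calc θ ^ 2 * s ≤ θ ^ 2 * (3 / 2 * (r * (D - D₀) ^ 2) + 3 * D ^ 2 * r) := by
          refine mul_le_mul_of_nonneg_left (hs1.trans ?_) (sq_nonneg θ)
          have e1 : 3 * D ^ 2 * ∑ j, v j ^ 2 ≤ 3 * D ^ 2 * r :=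
            mul_le_mul_of_nonneg_left hv (by positivity)
          linarith
      _ = 3 / 2 * r * (θ ^ 2 * (D - D₀) ^ 2) + 3 * r * (θ ^ 2 * D ^ 2) := by ring
      _ ≤ 3 / 2 * r * (4 * h ^ 2) + 3 * r * h ^ 2 := by gcongr
      _ = 9 * (r * h ^ 2) := by ring
      _ = _ := by
          rw [hrh]
          ring
  rw [hab, ← hq]
  calc 4 * θ ^ 2 * (a + b) ^ 2 ≤ 8 * (θ ^ 2 * a ^ 2) + 8 * (θ ^ 2 * b ^ 2) := by
        have e1 : (a + b) ^ 2 ≤ 2 * a ^ 2 + 2 * b ^ 2 := by nlinarith [sq_nonneg (a - b)]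
        have e2 := mul_le_mul_of_nonneg_left e1 (by positivity : 0 ≤ 4 * θ ^ 2)
        linarith
    _ ≤ 8 * (12 * V * a ^ 2) + 8 * (27 * lam * H ^ 2 * q) := by
        have e1 : θ ^ 2 * a ^ 2 ≤ 12 * V * a ^ 2 := mul_le_mul_of_nonneg_right hV (sq_nonneg a)
        have e2 : θ ^ 2 * b ^ 2 ≤ 27 * lam * H ^ 2 * q := by
          calc θ ^ 2 * b ^ 2 ≤ θ ^ 2 * (s * q) := mul_le_mul_of_nonneg_left hbs (sq_nonneg θ)
            _ = θ ^ 2 * s * q := by ring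
            _ ≤ _ := mul_le_mul_of_nonneg_right h3 hq0
        linarith
    _ = _ := by
        rw [← ha]
        ring

end Pool.Agent.T2h95.OF
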