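import Pool.Agent.T2h95.OF.Stm

/-!
# CV7: support functions of the sections are concave
-/

set_option autoImplicit false

namespace Pool.Agent.T2h95.OF

open MeasureTheory Set Filter Topology
open Pool.Agent.T2h95.OC
open Pool.Agent.T2h95.OD

theorem t_CV7 : S_CV7 := by
  intro k α β H φ ψ L hφ hL hC u B hB
  have hne : L.Nonempty := by
    rcases L.eq_empty_or_nonempty with h | h
    · have := hL.pos
      rw [h] at this
      simp at this
    · exact h
  have hcont : Continuous fun v : Fin k → ℝ => ∑ j, u j * v j :=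
    continuous_finsetSum _ fun j _ => continuous_const.mul (continuous_apply j)
  obtain ⟨v₀, hv₀, hmax⟩ := hL.comp.exists_isMaxOn hne hcont.continuousOn
  have hmax' : ∀ v ∈ L, ∑ j, u j * v j ≤ ∑ j, u j * v₀ j := fun v hv => hmax hv
  set B₀ : ℝ := ∑ j, u j * v₀ j with hB₀
  have hBB : B₀ ≤ B := hB v₀ hv₀
  refine ⟨convex_Icc α β, ?_⟩
  intro x hx y hy a b ha hb hab
  have hp : (x, fun j => ψ x j + φ x * v₀ j) ∈ D7 α β ψ φ L := ⟨⟨hx.1, hx.2⟩, v₀, hv₀, fun j => rfl⟩
  have hq : (y, fun j => ψ y j + φ y * v₀ j) ∈ D7 α β ψ φ L := ⟨⟨hy.1, hy.2⟩, v₀, hv₀, fun j => rfl⟩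
  obtain ⟨-, v, hv, hvj⟩ := hC.conv hp hq ha hb hab
  have e1 : ∀ j, a * (ψ x j + φ x * v₀ j) + b * (ψ y j + φ y * v₀ j) =
      ψ (a • x + b • y) j + φ (a • x + b • y) * v j := fun j => hvj j
  set t : ℝ := a • x + b • y with ht
  have h1 : a * (∑ j, u j * ψ x j + φ x * B₀) + b * (∑ j, u j * ψ y j + φ y * B₀) =
      ∑ j, u j * ψ t j + φ t * ∑ j, u j * v j := by
    calc a * (∑ j, u j * ψ x j + φ x * B₀) + b * (∑ j, u j * ψ y j + φ y * B₀)
        = ∑ j, u j * (a * (ψ x j + φ x * v₀ j) + b * (ψ y j + φ y * v₀ j)) := by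
          rw [hB₀]
          simp only [Finset.mul_sum, mul_add, ← Finset.sum_add_distrib]
          exact Finset.sum_congr rfl fun j _ => by ring
      _ = ∑ j, u j * (ψ t j + φ t * v j) := Finset.sum_congr rfl fun j _ => by rw [e1 j]
      _ = ∑ j, u j * ψ t j + φ t * ∑ j, u j * v j := by
          rw [Finset.mul_sum, ← Finset.sum_add_distrib]
          exact Finset.sum_congr rfl fun j _ => by ring
  have h2 : φ t * ∑ j, u j * v j ≤ φ t * B₀ := mul_le_mul_of_nonneg_left (hmax' v hv) (hφ.nonneg t)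
  have h3 : a * φ x + b * φ y ≤ φ t := hφ.conc.2 hx hy ha hb hab
  have h4 : (a * φ x + b * φ y) * (B - B₀) ≤ φ t * (B - B₀) := mul_le_mul_of_nonneg_right h3 (by linarith)
  simp only [smul_eq_mul]
  have h5 : a * (∑ j, u j * ψ x j + φ x * B) + b * (∑ j, u j * ψ y j + φ y * B) =
      (a * (∑ j, u j * ψ x j + φ x * B₀) + b * (∑ j, u j * ψ y j + φ y * B₀)) +
        (a * φ x + b * φ y) * (B - B₀) := by ring
  rw [h5, h1]
  linarith

end Pool.Agent.T2h95.OF
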