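import Pool.Agent.T2h95.OF.Stm

/-!
# Project OF: task DA7
-/

set_option autoImplicit false

namespace Pool.Agent.T2h95.OF

open MeasureTheory Set Filter Topology

theorem t_DA7 : S_DA7 := by
  intro k D α β hD hconv hαβ hproj u h hh
  have hlc : Continuous fun p : ℝ × (Fin k → ℝ) => ∑ j, u j * p.2 j := by fun_prop
  have hconc : ConcaveOn ℝ (Icc α β) h := by
    refine ⟨convex_Icc α β, fun x hx y hy a b ha hb hab => ?_⟩
    obtain ⟨⟨zx, hzx, hzx'⟩, -⟩ := hh x hx
    obtain ⟨⟨zy, hzy, hzy'⟩, -⟩ := hh y hy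
    have h1 : a • (x, zx) + b • (y, zy) ∈ D := hconv hzx hzy ha hb hab
    have h2 : a • x + b • y ∈ Icc α β := convex_Icc α β hx hy ha hb hab
    have h3 := (hh _ h2).2 (a • zx + b • zy) (by simpa using h1)
    have h4 : ∑ j, u j * (a • zx + b • zy) j = a * h x + b * h y := by
      rw [← hzx', ← hzy', Finset.mul_sum, Finset.mul_sum, ← Finset.sum_add_distrib]
      refine Finset.sum_congr rfl fun j _ => ?_
      simp only [Pi.add_apply, Pi.smul_apply, smul_eq_mul]
      ring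
    rw [h4] at h3
    simpa only [smul_eq_mul] using h3
  refine ⟨hconc, fun x0 hx0 => ?_⟩
  obtain ⟨M, hM⟩ : ∃ M : ℝ, ∀ p ∈ D, |∑ j, u j * p.2 j| ≤ M := by
    obtain ⟨M, hM⟩ := hD.exists_bound_of_continuousOn hlc.continuousOn
    exact ⟨M, fun p hp => by simpa using hM p hp⟩
  have hhM : ∀ x ∈ Icc α β, |h x| ≤ M := by
    intro x hx
    obtain ⟨⟨z, hz, hz'⟩, -⟩ := hh x hx
    rw [← hz']
    exact hM _ hz
  have hα : α ∈ Icc α β := ⟨le_rfl, hαβ.le⟩
  have hβ : β ∈ Icc α β := ⟨hαβ.le, le_rfl⟩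
  have hM0 : 0 ≤ M := (abs_nonneg _).trans (hhM α hα)
  have hx1 : 0 ≤ (β - x0)⁻¹ := inv_nonneg.2 (by linarith [hx0.2])
  have hx2 : 0 ≤ (x0 - α)⁻¹ := inv_nonneg.2 (by linarith [hx0.1])
  refine tendsto_order.2 ⟨fun a ha => ?_, fun a ha => ?_⟩
  · -- lower semicontinuity
    have key : ∀ x ∈ Icc α β, h x0 - 2 * M * |x - x0| * ((β - x0)⁻¹ + (x0 - α)⁻¹) ≤ h x := by
      intro x hx
      have hmono : ∀ (c e : ℝ), e ∈ Icc α β → 0 ≤ c → c * |x - x0| ≤ 1 →
          x = (1 - c * |x - x0|) * x0 + c * |x - x0| * e →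
          c ≤ (β - x0)⁻¹ + (x0 - α)⁻¹ →
          h x0 - 2 * M * |x - x0| * ((β - x0)⁻¹ + (x0 - α)⁻¹) ≤ h x := by
        intro c e he hc hc1 hxe hcc
        have hs0 : 0 ≤ c * |x - x0| := by positivity
        have h1 := hconc.2 hx0 he (show (0:ℝ) ≤ 1 - c * |x - x0| by linarith) hs0 (by ring)
        simp only [smul_eq_mul] at h1
        rw [← hxe] at h1
        have h2 := abs_le.1 (hhM x0 hx0)
        have h3 := abs_le.1 (hhM e he)
        have h4 : c * |x - x0| * (h x0 - h e) ≤ c * |x - x0| * (2 * M) :=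
          mul_le_mul_of_nonneg_left (by linarith) hs0
        have h5 : c * (2 * M * |x - x0|) ≤ ((β - x0)⁻¹ + (x0 - α)⁻¹) * (2 * M * |x - x0|) :=
          mul_le_mul_of_nonneg_right hcc (by positivity)
        nlinarith
      rcases lt_trichotomy x x0 with hlt | heq | hgt
      · have h0 : 0 < x0 - α := by linarith [hx.1]
        refine hmono (x0 - α)⁻¹ α hα hx2 ?_ ?_ (by linarith)
        · rw [abs_of_neg (by linarith), inv_mul_le_iff₀ h0]
          linarith [hx.1]
        · rw [abs_of_neg (by linarith)]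
          field_simp
          ring
      · rw [heq]
        simp
      · have h0 : 0 < β - x0 := by linarith [hx.2]
        refine hmono (β - x0)⁻¹ β hβ hx1 ?_ ?_ (by linarith)
        · rw [abs_of_pos (by linarith), inv_mul_le_iff₀ h0]
          linarith [hx.2]
        · rw [abs_of_pos (by linarith)]
          field_simp
          ring
    have hc : Continuous fun x : ℝ => h x0 - 2 * M * |x - x0| * ((β - x0)⁻¹ + (x0 - α)⁻¹) := by
      fun_prop
    have h1 : ∀ᶠ x in 𝓝 x0, a < h x0 - 2 * M * |x - x0| * ((β - x0)⁻¹ + (x0 - α)⁻¹) := by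
      refine hc.continuousAt.eventually_const_lt ?_
      simpa using ha
    filter_upwards [nhdsWithin_le_nhds h1, self_mem_nhdsWithin] with x h2 hx
    exact h2.trans_le (key x hx)
  · -- upper semicontinuity
    set C : Set (ℝ × (Fin k → ℝ)) := D ∩ {p | a ≤ ∑ j, u j * p.2 j} with hC
    have hCc : IsCompact C := hD.inter_right (isClosed_le continuous_const hlc)
    have hP : IsClosed (Prod.fst '' C) := (hCc.image continuous_fst).isClosed
    have hx0 : x0 ∈ (Prod.fst '' C)ᶜ := by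
      rintro ⟨p, ⟨hp, hp'⟩, rfl⟩
      have := (hh p.1 hx0).2 p.2 hp
      exact absurd (lt_of_lt_of_le ha hp') (not_lt.2 this)
    have h1 : ∀ᶠ x in 𝓝 x0, x ∈ (Prod.fst '' C)ᶜ := hP.isOpen_compl.mem_nhds hx0
    filter_upwards [nhdsWithin_le_nhds h1, self_mem_nhdsWithin] with x h2 hx
    obtain ⟨⟨z, hz, hz'⟩, -⟩ := hh x hx
    by_contra hcon
    push Not at hcon
    exact h2 ⟨(x, z), ⟨hz, by show a ≤ ∑ j, u j * z j; rw [hz']; exact hcon⟩, rfl⟩

end Pool.Agent.T2h95.OF
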