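import Pool.Agent.T2h95.OF.Stm

/-!
# (DB7) bodies with homothetic sections
-/

set_option autoImplicit false

namespace Pool.Agent.T2h95.OF

open MeasureTheory Set Filter Topology
open Pool.Agent.T2h95.OC
open Pool.Agent.T2h95.OD

namespace DB

variable {k : ℕ}

/-- the width of `L` in the direction of a coordinate is positive -/
theorem width (L : Set (Fin k → ℝ)) (hL : 0 < volume L) (i : Fin k) (A B : ℝ)
    (hA : ∀ v ∈ L, v i ≤ A) (hB : ∀ v ∈ L, -v i ≤ B) : 0 < A + B := by
  have hne : L.Nonempty := by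
    by_contra h
    rw [not_nonempty_iff_eq_empty] at h
    rw [h, measure_empty] at hL
    exact lt_irrefl _ hL
  obtain ⟨v0, hv0⟩ := hne
  by_contra hcon
  have h0 : A + B = 0 := by
    have h1 := hA v0 hv0
    have h2 := hB v0 hv0
    linarith
  have hsub : L ⊆ {f : Fin k → ℝ | f i = A} := by
    intro v hv
    have h1 := hA v hv
    have h2 := hB v hv
    show v i = A
    linarith
  have hz : volume {f : Fin k → ℝ | f i = A} = 0 :=
    Measure.pi_hyperplane (fun _ : Fin k => (volume : Measure ℝ)) i A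
  have := measure_mono hsub (μ := volume)
  rw [hz] at this
  exact lt_irrefl _ (hL.trans_le this)

/-- the clamp -/
noncomputable def cl (α β x : ℝ) : ℝ := max α (min x β)

theorem cl_cont (α β : ℝ) : Continuous (cl α β) := by
  unfold cl
  fun_prop

theorem cl_mem {α β : ℝ} (h : α ≤ β) (x : ℝ) : cl α β x ∈ Icc α β := by
  unfold cl
  exact ⟨le_max_left _ _, max_le h (min_le_right _ _)⟩

theorem cl_eq {α β x : ℝ} (hx : x ∈ Icc α β) : cl α β x = x := by
  unfold cl
  rw [min_eq_left hx.2, max_eq_right hx.1]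

theorem sum_single (i : Fin k) (c : ℝ) (v : Fin k → ℝ) :
    ∑ j, (Pi.single i c : Fin k → ℝ) j * v j = c * v i := by
  rw [Finset.sum_eq_single i]
  · rw [Pi.single_eq_same]
  · intro j _ hj
    rw [Pi.single_eq_of_ne hj, zero_mul]
  · intro h
    exact absurd (Finset.mem_univ i) h

end DB

open DB in
theorem t_DB7 (hDA : S_DA7) : S_DB7 := by
  intro k L D hk hL hDc hDx hDi hHom
  have : NeZero k := ⟨by omega⟩
  obtain ⟨i0, -⟩ : ∃ i : Fin k, True := ⟨0, trivial⟩
  -- the projection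
  obtain ⟨p0, hp0⟩ := hDi
  obtain ⟨ε, hε, hball⟩ := Metric.isOpen_iff.1 isOpen_interior p0 hp0
  have hball' : Metric.ball p0 ε ⊆ D := hball.trans interior_subset
  have hP : IsCompact (Prod.fst '' D) := hDc.image continuous_fst
  have hPx : Convex ℝ (Prod.fst '' D) := hDx.linear_image (LinearMap.fst ℝ ℝ (Fin k → ℝ))
  have hPn : (Prod.fst '' D).Nonempty := ⟨p0.1, p0, interior_subset hp0, rfl⟩
  obtain ⟨α, hα⟩ : ∃ α, α = sInf (Prod.fst '' D) := ⟨_, rfl⟩
  obtain ⟨β, hβ⟩ : ∃ β, β = sSup (Prod.fst '' D) := ⟨_, rfl⟩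
  have hαP : α ∈ Prod.fst '' D := hα ▸ hP.sInf_mem hPn
  have hβP : β ∈ Prod.fst '' D := hβ ▸ hP.sSup_mem hPn
  have hPI : Prod.fst '' D = Icc α β := by
    apply Subset.antisymm
    · intro x hx
      exact ⟨hα ▸ csInf_le hP.bddBelow hx, hβ ▸ le_csSup hP.bddAbove hx⟩
    · exact hPx.ordConnected.out hαP hβP
  have hproj : ∀ x, (∃ z, (x, z) ∈ D) ↔ α ≤ x ∧ x ≤ β := by
    intro x
    have : x ∈ Prod.fst '' D ↔ x ∈ Icc α β := by rw [hPI]
    rw [← mem_Icc, ← this]
    constructor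
    · rintro ⟨z, hz⟩
      exact ⟨(x, z), hz, rfl⟩
    · rintro ⟨⟨x', z⟩, hz, rfl⟩
      exact ⟨z, hz⟩
  have hx0 : α < p0.1 ∧ p0.1 < β := by
    have e1 : ∀ s : ℝ, |s| < ε → (p0.1 + s, p0.2) ∈ D := by
      intro s hs
      apply hball'
      rw [Metric.mem_ball, Prod.dist_eq, max_lt_iff]
      constructor
      · rw [Real.dist_eq]
        simpa using hs
      · simpa using hε
    have e2 : |ε / 2| < ε := by
      rw [abs_of_pos (by positivity)]
      linarith
    have e3 := (hproj (p0.1 + ε / 2)).1 ⟨_, e1 _ e2⟩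
    have e4 := (hproj (p0.1 + -(ε / 2))).1 ⟨_, e1 _ (by rwa [abs_neg])⟩
    constructor <;> linarith [e3.2, e4.1]
  have hαβ : α < β := hx0.1.trans hx0.2
  -- the sections
  have hsec : ∀ x : ℝ, ∃ (a : Fin k → ℝ) (r : ℝ), x ∈ Icc α β → (0 ≤ r ∧
      ∀ z' : Fin k → ℝ, (x, z') ∈ D ↔ ∃ v ∈ L, ∀ j, z' j = a j + r * v j) := by
    intro x
    by_cases hx : x ∈ Icc α β
    · obtain ⟨z, hz⟩ := (hproj x).2 hx
      obtain ⟨a, r, h1, h2⟩ := hHom x z hz
      exact ⟨a, r, fun _ => ⟨h1, h2⟩⟩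
    · exact ⟨0, 0, fun h => absurd h hx⟩
  choose a r har using hsec
  have hLne : L.Nonempty := by
    by_contra h
    rw [not_nonempty_iff_eq_empty] at h
    have := hL.pos
    rw [h, measure_empty] at this
    exact lt_irrefl _ this
  -- the support function of `L`
  have hmax : ∀ u : Fin k → ℝ, ∃ B : ℝ, (∃ v ∈ L, ∑ j, u j * v j = B) ∧
      ∀ v ∈ L, ∑ j, u j * v j ≤ B := by
    intro u
    obtain ⟨v, hv, hmx⟩ := hL.comp.exists_isMaxOn hLne
      (f := fun v : Fin k → ℝ => ∑ j, u j * v j) (by fun_prop)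
    exact ⟨_, ⟨v, hv, rfl⟩, fun v' hv' => hmx hv'⟩
  choose B hB using hmax
  have hsup : ∀ u : Fin k → ℝ, ConcaveOn ℝ (Icc α β) (fun x => ∑ j, u j * a x j + r x * B u) ∧
      ContinuousOn (fun x => ∑ j, u j * a x j + r x * B u) (Icc α β) := by
    intro u
    refine hDA k D α β hDc hDx hαβ hproj u _ fun x hx => ?_
    obtain ⟨hr, hiff⟩ := har x hx
    have e1 : ∀ v : Fin k → ℝ, ∑ j, u j * (a x j + r x * v j) =
        ∑ j, u j * a x j + r x * ∑ j, u j * v j := by
      intro v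
      rw [Finset.mul_sum, ← Finset.sum_add_distrib]
      exact Finset.sum_congr rfl fun j _ => by ring
    constructor
    · obtain ⟨v, hv, hvB⟩ := (hB u).1
      refine ⟨fun j => a x j + r x * v j, (hiff _).2 ⟨v, hv, fun j => rfl⟩, ?_⟩
      rw [e1, hvB]
    · intro z hz
      obtain ⟨v, hv, hvz⟩ := (hiff z).1 hz
      have e2 : ∑ j, u j * z j = ∑ j, u j * (a x j + r x * v j) :=
        Finset.sum_congr rfl fun j _ => by rw [hvz]
      rw [e2, e1]
      have := mul_le_mul_of_nonneg_left ((hB u).2 v hv) hr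
      linarith
  -- the radius
  obtain ⟨W, hW⟩ : ∃ W, W = B (Pi.single i0 1) + B (Pi.single i0 (-1)) := ⟨_, rfl⟩
  have hWpos : 0 < W := by
    rw [hW]
    refine width L hL.pos i0 _ _ (fun v hv => ?_) (fun v hv => ?_)
    · have := (hB (Pi.single i0 1)).2 v hv
      rwa [sum_single, one_mul] at this
    · have := (hB (Pi.single i0 (-1))).2 v hv
      rwa [sum_single, neg_one_mul] at this
  have hrW : ∀ x, r x = W⁻¹ * ((∑ j, (Pi.single i0 1 : Fin k → ℝ) j * a x j +
      r x * B (Pi.single i0 1)) + (∑ j, (Pi.single i0 (-1) : Fin k → ℝ) j * a x j +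
      r x * B (Pi.single i0 (-1)))) := by
    intro x
    rw [sum_single, sum_single]
    have e1 : 1 * a x i0 + r x * B (Pi.single i0 1) + (-1 * a x i0 + r x * B (Pi.single i0 (-1))) =
        W * r x := by
      rw [hW]
      ring
    rw [e1, inv_mul_cancel_left₀ hWpos.ne']
  have hrconc : ConcaveOn ℝ (Icc α β) r := by
    have h1 := ((hsup (Pi.single i0 1)).1.add (hsup (Pi.single i0 (-1))).1).smul
      (inv_nonneg.2 hWpos.le)
    have e1 : r = fun x => W⁻¹ • ((fun x => ∑ j, (Pi.single i0 1 : Fin k → ℝ) j * a x j +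
        r x * B (Pi.single i0 1)) + fun x => ∑ j, (Pi.single i0 (-1) : Fin k → ℝ) j * a x j +
        r x * B (Pi.single i0 (-1))) x := funext hrW
    rw [e1]
    exact h1
  have hrcont : ContinuousOn r (Icc α β) := by
    have h1 := ((hsup (Pi.single i0 1)).2.add (hsup (Pi.single i0 (-1))).2).const_smul W⁻¹
    have e1 : r = fun x => W⁻¹ • ((fun x => ∑ j, (Pi.single i0 1 : Fin k → ℝ) j * a x j +
        r x * B (Pi.single i0 1)) x + (fun x => ∑ j, (Pi.single i0 (-1) : Fin k → ℝ) j * a x j +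
        r x * B (Pi.single i0 (-1))) x) := funext hrW
    rw [e1]
    exact h1
  have hacont : ∀ j, ContinuousOn (fun x => a x j) (Icc α β) := by
    intro j
    have h1 := (hsup (Pi.single j 1)).2.sub (hrcont.mul (continuousOn_const (c := B (Pi.single j 1))))
    refine h1.congr fun x _ => ?_
    show a x j = (∑ i, (Pi.single j 1 : Fin k → ℝ) i * a x i + r x * B (Pi.single j 1)) -
      r x * B (Pi.single j 1)
    rw [sum_single]
    ring
  have hr0 : 0 < r p0.1 := by
    obtain ⟨hr, hiff⟩ := har p0.1 ⟨hx0.1.le, hx0.2.le⟩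
    rcases hr.lt_or_eq with h | h
    · exact h
    exfalso
    obtain ⟨v, -, hv⟩ := (hiff p0.2).1 (interior_subset hp0)
    have e1 : (p0.1, p0.2 + Pi.single i0 (ε / 2)) ∈ D := by
      apply hball'
      rw [Metric.mem_ball, Prod.dist_eq, max_lt_iff]
      constructor
      · simpa using hε
      · rw [dist_eq_norm, add_sub_cancel_left]
        refine (pi_norm_lt_iff hε).2 fun j => ?_
        by_cases hj : j = i0
        · rw [hj, Pi.single_eq_same, Real.norm_eq_abs, abs_of_pos (by positivity)]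
          linarith
        · rw [Pi.single_eq_of_ne hj, norm_zero]
          exact hε
    obtain ⟨v', -, hv'⟩ := (hiff _).1 e1
    have e2 := hv i0
    have e3 := hv' i0
    rw [← h] at e2 e3
    rw [Pi.add_apply, Pi.single_eq_same] at e3
    linarith
  have hrpos : ∀ x ∈ Ioo α β, 0 < r x := by
    intro x hx
    have hxI : x ∈ Icc α β := Ioo_subset_Icc_self hx
    rcases le_total x p0.1 with h | h
    · have e0 : 0 < p0.1 - α := by linarith [hx0.1]
      have w1 : 0 ≤ (p0.1 - x) / (p0.1 - α) := div_nonneg (by linarith) e0.le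
      have w2 : 0 ≤ (x - α) / (p0.1 - α) := div_nonneg (by linarith [hx.1]) e0.le
      have w3 : (p0.1 - x) / (p0.1 - α) + (x - α) / (p0.1 - α) = 1 := by
        field_simp
        ring
      have e1 := hrconc.2 (⟨le_rfl, hαβ.le⟩ : α ∈ Icc α β) (⟨hx0.1.le, hx0.2.le⟩ : p0.1 ∈ Icc α β)
        w1 w2 w3
      have e2 : ((p0.1 - x) / (p0.1 - α)) • α + ((x - α) / (p0.1 - α)) • p0.1 = x := by
        rw [smul_eq_mul, smul_eq_mul]
        field_simp
        ring
      rw [e2, smul_eq_mul, smul_eq_mul] at e1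
      have e3 : 0 < (x - α) / (p0.1 - α) * r p0.1 :=
        mul_pos (div_pos (by linarith [hx.1]) e0) hr0
      have e4 : 0 ≤ (p0.1 - x) / (p0.1 - α) * r α :=
        mul_nonneg (div_nonneg (by linarith) e0.le) (har α ⟨le_rfl, hαβ.le⟩).1
      linarith
    · have e0 : 0 < β - p0.1 := by linarith [hx0.2]
      have w1 : 0 ≤ (β - x) / (β - p0.1) := div_nonneg (by linarith [hx.2]) e0.le
      have w2 : 0 ≤ (x - p0.1) / (β - p0.1) := div_nonneg (by linarith) e0.le
      have w3 : (β - x) / (β - p0.1) + (x - p0.1) / (β - p0.1) = 1 := by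
        field_simp
        ring
      have e1 := hrconc.2 (⟨hx0.1.le, hx0.2.le⟩ : p0.1 ∈ Icc α β) (⟨hαβ.le, le_rfl⟩ : β ∈ Icc α β)
        w1 w2 w3
      have e2 : ((β - x) / (β - p0.1)) • p0.1 + ((x - p0.1) / (β - p0.1)) • β = x := by
        rw [smul_eq_mul, smul_eq_mul]
        field_simp
        ring
      rw [e2, smul_eq_mul, smul_eq_mul] at e1
      have e3 : 0 < (β - x) / (β - p0.1) * r p0.1 :=
        mul_pos (div_pos (by linarith [hx.2]) e0) hr0
      have e4 : 0 ≤ (x - p0.1) / (β - p0.1) * r β :=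
        mul_nonneg (div_nonneg (by linarith) e0.le) (har β ⟨hαβ.le, le_rfl⟩).1
      linarith
  obtain ⟨xm, hxm, hmx⟩ := isCompact_Icc.exists_isMaxOn (nonempty_Icc.2 hαβ.le) hrcont
  have hDeq : D = D7 α β (fun x => a (cl α β x)) (fun x => r (cl α β x)) L := by
    ext ⟨x, z⟩
    constructor
    · intro hz
      have hx : x ∈ Icc α β := (hproj x).1 ⟨z, hz⟩
      obtain ⟨v, hv, hvz⟩ := ((har x hx).2 z).1 hz
      refine ⟨hx, v, hv, fun j => ?_⟩
      show z j = a (cl α β x) j + r (cl α β x) * v j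
      rw [cl_eq hx]
      exact hvz j
    · rintro ⟨hx, v, hv, hvz⟩
      have hx' : x ∈ Icc α β := hx
      refine ((har x hx').2 z).2 ⟨v, hv, fun j => ?_⟩
      have e1 : z j = a (cl α β x) j + r (cl α β x) * v j := hvz j
      rwa [cl_eq hx'] at e1
  refine ⟨α, β, r xm, fun x => r (cl α β x), fun x => a (cl α β x), ?_, ?_, hDeq⟩
  · refine ⟨hαβ, hr0.trans_le (hmx ⟨hx0.1.le, hx0.2.le⟩),
      hrcont.comp_continuous (cl_cont α β) (cl_mem hαβ.le), ?_,
      fun x => (har _ (cl_mem hαβ.le x)).1, fun x => hmx (cl_mem hαβ.le x),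
      ⟨xm, hxm, by rw [cl_eq hxm]⟩, fun x hx => ?_⟩
    · refine ConcaveOn.congr hrconc fun x hx => ?_
      show r x = r (cl α β x)
      rw [cl_eq hx]
    · rw [cl_eq (Ioo_subset_Icc_self hx)]
      exact hrpos x hx
  · refine ⟨continuous_pi fun j => (hacont j).comp_continuous (cl_cont α β) (cl_mem hαβ.le), ?_⟩
    rw [← hDeq]
    exact hDx

end Pool.Agent.T2h95.OF
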