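import Pool.Agent.T2h95.OF.Stm

/-! # Project OF, task EU7: coordinates on the Euclidean space -/

set_option autoImplicit false

namespace Pool.Agent.T2h95.OF

open MeasureTheory Set Filter Topology
open scoped ENNReal BigOperators
open Pool.Agent.T2h95.OC
open Pool.Agent.T2h95.OD

namespace EU7

/-- coordinates -/
noncomputable def E0 (n k : ℕ) : ((Fin n → ℝ) × (Fin n → Fin k → ℝ)) ≃ᵐ
    (Fin n ⊕ Fin n × Fin k → ℝ) where
  toFun p := Sum.elim p.1 fun z => p.2 z.1 z.2
  invFun y := (fun i => y (Sum.inl i), fun i j => y (Sum.inr (i, j)))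
  left_inv p := rfl
  right_inv y := by
    funext z
    rcases z with i | ⟨i, j⟩ <;> rfl
  measurable_toFun := by
    refine measurable_pi_lambda _ fun z => ?_
    rcases z with i | ⟨i, j⟩
    · exact (measurable_pi_apply i).comp measurable_fst
    · exact (measurable_pi_apply j).comp ((measurable_pi_apply i).comp measurable_snd)
  measurable_invFun := by
    refine Measurable.prodMk ?_ ?_
    · exact measurable_pi_lambda _ fun i => measurable_pi_apply _
    · exact measurable_pi_lambda _ fun i => measurable_pi_lambda _ fun j => measurable_pi_apply _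

theorem E0_mp (n k : ℕ) : MeasurePreserving (E0 n k) := by
  refine ⟨(E0 n k).measurable, ?_⟩
  rw [volume_pi]
  refine (Measure.pi_eq fun s hs => ?_).symm
  rw [Measure.map_apply (E0 n k).measurable (MeasurableSet.univ_pi hs)]
  have hpre : (E0 n k) ⁻¹' (univ.pi s) =
      (univ.pi fun i : Fin n => s (Sum.inl i)) ×ˢ
        (univ.pi fun i : Fin n => univ.pi fun j : Fin k => s (Sum.inr (i, j))) := by
    ext p
    simp only [mem_preimage, mem_univ_pi, mem_prod]
    constructor
    · intro h
      exact ⟨fun i => h (Sum.inl i), fun i j => h (Sum.inr (i, j))⟩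
    · rintro ⟨h0, h1⟩ z
      rcases z with i | ⟨i, j⟩
      · exact h0 i
      · exact h1 i j
  rw [hpre, Measure.volume_eq_prod, Measure.prod_prod, volume_pi_pi, volume_pi_pi,
    Fintype.prod_sum_type, Fintype.prod_prod_type]
  congr 1
  refine Finset.prod_congr rfl fun i _ => ?_
  rw [volume_pi_pi]

/-- coordinates, Euclidean -/
noncomputable def E1 (n k : ℕ) : ((Fin n → ℝ) × (Fin n → Fin k → ℝ)) ≃ᵐ
    EuclideanSpace ℝ (Fin n ⊕ Fin n × Fin k) :=
  (E0 n k).trans (MeasurableEquiv.toLp 2 (Fin n ⊕ Fin n × Fin k → ℝ))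

theorem E1_mp (n k : ℕ) : MeasurePreserving (E1 n k) :=
  (PiLp.volume_preserving_toLp (Fin n ⊕ Fin n × Fin k)).comp (E0_mp n k)

theorem E1_eq {n k : ℕ} (p : (Fin n → ℝ) × (Fin n → Fin k → ℝ)) : E1 n k p = pe p := rfl

theorem pre (n k : ℕ) (D : Set (ℝ × (Fin k → ℝ))) (R : Fin n → Fin n → Prop) :
    (E1 n k) ⁻¹' (KE7 D R) = K5 D R := by
  ext p
  simp only [mem_preimage, E1_eq, KE7, K5, CR, mem_ofPred_eq, pe]
  exact and_comm

end EU7

theorem t_EU7 : S_EU7 := by
  intro n k D R
  constructor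
  · rw [← EU7.pre, (EU7.E1_mp n k).measure_preimage_equiv]
  · intro G
    rw [← (EU7.E1_mp n k).setIntegral_preimage_emb (EU7.E1 n k).measurableEmbedding, EU7.pre]
    rfl

end Pool.Agent.T2h95.OF
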