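import Pool.Agent.T2h95.OF.Stm
import Pool.Agent.T2h95.OD.FC5

/-! # FC7: continuity of the mean over the fibre -/

set_option autoImplicit false

namespace Pool.Agent.T2h95.OF

open MeasureTheory Set Filter Topology
open Pool.Agent.T2h95.OD

theorem s7_cont {n k : ℕ} {ψ : ℝ → Fin k → ℝ} {φ : ℝ → ℝ} (hψ : Continuous ψ)
    (hφ : Continuous φ) :
    Continuous fun p : (Fin n → ℝ) × (Fin n → Fin k → ℝ) => (p.1, s7 ψ φ p.1 p.2) := by
  have hψ' : ∀ j, Continuous fun t => ψ t j := fun j => (continuous_apply j).comp hψ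
  unfold s7
  refine continuous_fst.prodMk (continuous_pi fun i => continuous_pi fun j => ?_)
  refine ((hψ' j).comp ((continuous_apply i).comp continuous_fst)).add ?_
  refine (hφ.comp ((continuous_apply i).comp continuous_fst)).mul ?_
  fun_prop

theorem t_FC7 : S_FC7 := by
  intro n k ψ φ L F hL hψ hφ hF
  unfold f7
  refine Continuous.div_const ?_ _
  refine continuous_parametric_integral_of_continuous
    (f := fun x v => F (x, s7 ψ φ x v)) ?_ (Ln_compact hL.comp)
  exact hF.comp (s7_cont hψ hφ)

end Pool.Agent.T2h95.OF
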