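import Pool.Agent.T2h95.OF.Stm
import Pool.Agent.T2h95.OD.All2
import Pool.Agent.T2h95.OC.CHE0
import Pool.Agent.R972.OP.All2
import Pool.Agent.R972.OP.Fin

/-!
# Bodies with homothetic sections: final form
-/

set_option autoImplicit false

namespace Pool.Agent.T2h95.OF.Fin

open MeasureTheory Set
open scoped ENNReal InnerProductSpace
open Pool.Agent.T2h95.OC
open Pool.Agent.T2h95.OD
open Pool.Agent.T2h95.OF
open Pool.Agent.W695.KH (EV VV)

/-- Euclidean space with coordinates indexed by `ι` -/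
abbrev Euc (ι : Type) [Fintype ι] : Type := EuclideanSpace ℝ ι

theorem var_eq {k : ℕ} {L : Set (Euc (Fin k))} (hc : IsCompact L) (hv : 0 < volume L)
    (v : Euc (Fin k) → ℝ) (h : Continuous v) :
    ProbabilityTheory.variance v (ung L) = VV L v := by
  haveI : IsProbabilityMeasure (ung L) := CHE.ung_prob hc hv
  have hL2 : MemLp v 2 (ung L) := by
    rw [memLp_two_iff_integrable_sq h.aestronglyMeasurable]
    exact CHE.ung_integrable hc hv _ (h.pow 2)
  rw [ProbabilityTheory.variance_eq_sub hL2]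
  have e1 := CHE.ung_int L v
  have e2 := CHE.ung_int L (fun x => v x ^ 2)
  unfold VV
  rw [← e1, ← e2]
  rfl

/-- the variance of a function does not change when a constant is subtracted -/
theorem VV_sub {k : ℕ} {L : Set (Euc (Fin k))} (hc : IsCompact L) (hv : 0 < volume L)
    (v : Euc (Fin k) → ℝ) (h : Continuous v) (c : ℝ) : VV L (fun x => v x - c) = VV L v := by
  haveI : IsProbabilityMeasure (ung L) := CHE.ung_prob hc hv
  rw [← var_eq hc hv v h, ← var_eq hc hv (fun x => v x - c) (h.sub continuous_const)]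
  exact ProbabilityTheory.variance_sub_const h.aestronglyMeasurable c

/-- KLS in the Poincare form -/
def PK {k : ℕ} (κ : ℝ) (L : Set (Euc (Fin k))) (θ : Euc (Fin k)) : Prop :=
  ∀ f : Euc (Fin k) → ℝ, ContDiff ℝ 1 f →
    VV L f ≤ κ * VV L (fun x => ⟪θ, x⟫_ℝ) * EV L fun x => ‖fderiv ℝ f x‖ ^ 2

theorem pk_down {k : ℕ} {κ : ℝ} {L : Set (Euc (Fin k))} (hc : IsCompact L) (hv : 0 < volume L)
    {θ b : Euc (Fin k)}
    (hb : ∀ f : EuclideanSpace ℝ (Fin k) → ℝ,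
      EV ((fun v => v - b) '' L) f = EV L (fun v => f (v - b)) ∧
      VV ((fun v => v - b) '' L) f = VV L (fun v => f (v - b)))
    (h : PK κ L θ) : PK κ ((fun v => v - b) '' L) θ := by
  intro f hf
  have h1 := h (fun x => f (x - b)) (hf.comp (contDiff_id.sub contDiff_const))
  rw [(hb f).2, (hb fun x => ⟪θ, x⟫_ℝ).2, (hb fun x => ‖fderiv ℝ f x‖ ^ 2).1]
  have h2 : VV L (fun v => ⟪θ, v - b⟫_ℝ) = VV L (fun v => ⟪θ, v⟫_ℝ) := by
    have h3 : (fun v : Euc (Fin k) => ⟪θ, v - b⟫_ℝ) = fun v => ⟪θ, v⟫_ℝ - ⟪θ, b⟫_ℝ := by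
      funext v
      rw [inner_sub_right]
    rw [h3]
    exact VV_sub hc hv _ (by fun_prop) _
  have h4 : (fun x : Euc (Fin k) => ‖fderiv ℝ (fun x => f (x - b)) x‖ ^ 2) =
      fun v => ‖fderiv ℝ f (v - b)‖ ^ 2 := by
    funext v
    rw [fderiv_comp_sub]
  rw [h2, ← h4]
  exact h1

theorem pk_up {k : ℕ} {κ : ℝ} {L : Set (Euc (Fin k))} (hc : IsCompact L) (hv : 0 < volume L)
    {θ b : Euc (Fin k)}
    (hb : ∀ f : EuclideanSpace ℝ (Fin k) → ℝ,
      EV ((fun v => v - b) '' L) f = EV L (fun v => f (v - b)) ∧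
      VV ((fun v => v - b) '' L) f = VV L (fun v => f (v - b)))
    (h : PK κ ((fun v => v - b) '' L) θ) : PK κ L θ := by
  intro f hf
  have h1 := h (fun x => f (x + b)) (hf.comp (contDiff_id.add contDiff_const))
  rw [(hb _).2, (hb _).2, (hb _).1] at h1
  have h2 : VV L (fun v => ⟪θ, v - b⟫_ℝ) = VV L (fun v => ⟪θ, v⟫_ℝ) := by
    have h3 : (fun v : Euc (Fin k) => ⟪θ, v - b⟫_ℝ) = fun v => ⟪θ, v⟫_ℝ - ⟪θ, b⟫_ℝ := by
      funext v
      rw [inner_sub_right]
    rw [h3]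
    exact VV_sub hc hv _ (by fun_prop) _
  have h4 : (fun v : Euc (Fin k) => ‖fderiv ℝ (fun x => f (x + b)) (v - b)‖ ^ 2) =
      fun v => ‖fderiv ℝ f v‖ ^ 2 := by
    funext v
    rw [fderiv_comp_add_right, sub_add_cancel]
  have h5 : (fun v : Euc (Fin k) => f (v - b + b)) = f := by
    funext v
    rw [sub_add_cancel]
  rw [h2, h4, h5] at h1
  exact h1

/-- order polytopes -/
theorem pk_order {k : ℕ} (hk : 1 ≤ k) (Q : Fin k → Fin k → Prop) (hanti : ∀ a b, Q a b → Q b a → a = b)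
    (htr : ∀ a b c, Q a b → Q b c → Q a c) :
    PK (12 / Real.pi ^ 2) (Pool.Agent.R972.OP.OE Q) (Pool.Agent.R972.OP.th k) := by
  intro f hf
  have hv : 0 < volume (Pool.Agent.R972.OP.OE Q) :=
    Pool.Agent.R972.OP.vpos ((Pool.Agent.R972.OP.geo_all k Q).2.2 htr hanti)
  have h1 := Pool.Agent.R972.OP.pobe_all k Q hv f hf
  have h2 := Pool.Agent.R972.OP.th_var Pool.Agent.R972.OP.vs_all Q hk hv
  have h3 : (fun x : Euc (Fin k) => ⟪Pool.Agent.R972.OP.th k, x⟫_ℝ) =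
      fun x => ⟪x, Pool.Agent.R972.OP.th k⟫_ℝ := by
    funext x
    exact real_inner_comm _ _
  rw [h3, h2]
  refine h1.trans (le_of_eq ?_)
  ring

/-- `D` in coordinates -/
def cD {k : ℕ} (D : Set (ℝ × Euc (Fin k))) : Set (ℝ × (Fin k → ℝ)) :=
  {p | (p.1, (WithLp.toLp 2 p.2 : Euc (Fin k))) ∈ D}

/-- the linear homeomorphism -/
noncomputable def eD (k : ℕ) : (ℝ × (Fin k → ℝ)) ≃L[ℝ] ℝ × Euc (Fin k) :=
  (ContinuousLinearEquiv.refl ℝ ℝ).prodCongr (EuclideanSpace.equiv (Fin k) ℝ).symm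

theorem cD_eq {k : ℕ} (D : Set (ℝ × Euc (Fin k))) : cD D = (eD k) ⁻¹' D := rfl

theorem cD_comp {k : ℕ} {D : Set (ℝ × Euc (Fin k))} (h : IsCompact D) : IsCompact (cD D) := by
  rw [cD_eq]
  exact (eD k).toHomeomorph.isCompact_preimage.2 h

theorem cD_conv {k : ℕ} {D : Set (ℝ × Euc (Fin k))} (h : Convex ℝ D) : Convex ℝ (cD D) := by
  rw [cD_eq]
  exact h.linear_preimage (eD k).toLinearEquiv.toLinearMap

theorem cD_int {k : ℕ} {D : Set (ℝ × Euc (Fin k))} (h : (interior D).Nonempty) :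
    (interior (cD D)).Nonempty := by
  rw [cD_eq]
  have h1 : interior ((eD k) ⁻¹' D) = (eD k) ⁻¹' (interior D) :=
    ((eD k).toHomeomorph.preimage_interior D).symm
  rw [h1]
  obtain ⟨p, hp⟩ := h
  exact ⟨(eD k).symm p, by simpa using hp⟩

end Pool.Agent.T2h95.OF.Fin
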