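import Pool.Agent.T2h95.OF.TH7P
import Pool.Agent.T2h95.OF.All

/-!
# Bodies with homothetic sections: both forms of the inequality
-/

set_option autoImplicit false

namespace Pool.Agent.T2h95.OF

open MeasureTheory Set
open scoped ENNReal InnerProductSpace
open Pool.Agent.T2h95.OC
open Pool.Agent.T2h95.OD
open Pool.Agent.W695.KH (EV VV)

theorem th7p_all : S_TH7P := t_TH7P db7_all lc7_all po7_all lw7_all sy7_all li7_all t_EU7 t_GR5
  t_CB5 t_GE7 in5_all t_LD5 lc_all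

namespace Fin2

variable {ι : Type} [Fintype ι]

theorem var_eq {L : Set (EuclideanSpace ℝ ι)} (hc : IsCompact L) (hv : 0 < volume L)
    (v : EuclideanSpace ℝ ι → ℝ) (h : Continuous v) :
    ProbabilityTheory.variance v (ung L) = VV L v := by
  haveI : IsProbabilityMeasure (ung L) := CHE.ung_prob hc hv
  have hL2 : MemLp v 2 (ung L) := by
    rw [memLp_two_iff_integrable_sq h.aestronglyMeasurable]
    exact CHE.ung_integrable hc hv _ (h.pow 2)
  rw [ProbabilityTheory.variance_eq_sub hL2]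
  have e1 := CHE.ung_int L v
  have e2 := CHE.ung_int L (fun x => v x ^ 2)
  unfold VV
  rw [← e1, ← e2]
  rfl

/-- the second moment about the mean is the variance -/
theorem mean_sq {L : Set (EuclideanSpace ℝ ι)} (hc : IsCompact L) (hv : 0 < volume L)
    (v : EuclideanSpace ℝ ι → ℝ) (h : Continuous v) :
    EV L (fun x => (v x - EV L v) ^ 2) = VV L v := by
  haveI : IsProbabilityMeasure (ung L) := CHE.ung_prob hc hv
  rw [← var_eq hc hv v h, ProbabilityTheory.variance_eq_integral h.aemeasurable]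
  have e1 := CHE.ung_int L v
  rw [e1]
  exact (CHE.ung_int L fun x => (v x - EV L v) ^ 2).symm

/-- the Poincare form -/
theorem tgt_pk {κ : ℝ} {K : Set (EuclideanSpace ℝ ι)} (hc : IsCompact K) (hv : 0 < volume K)
    (h : Tgt κ K) : ∃ θ : EuclideanSpace ℝ ι, ‖θ‖ = 1 ∧
      ∀ f : EuclideanSpace ℝ ι → ℝ, ContDiff ℝ 1 f →
        VV K f ≤ κ * VV K (fun x => ⟪θ, x⟫_ℝ) * EV K fun x => ‖fderiv ℝ f x‖ ^ 2 := by
  obtain ⟨Cp, θ, hCp, hθ, h1, h2⟩ := h
  refine ⟨θ, hθ, fun f hf => (h1 f hf).trans ?_⟩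
  have h3 := h2 (EV K fun x => ⟪θ, x⟫_ℝ)
  rw [mean_sq hc hv (fun x => ⟪θ, x⟫_ℝ) (by fun_prop)] at h3
  refine mul_le_mul_of_nonneg_right h3 ?_
  unfold EV
  exact div_nonneg (integral_nonneg fun x => sq_nonneg _) ENNReal.toReal_nonneg

/-- the Cheeger form -/
theorem tgt_kls : ∃ c : ℝ, 0 < c ∧ ∀ κ : ℝ, 0 < κ → ∀ (ι : Type) [Fintype ι]
    (K : Set (EuclideanSpace ℝ ι)), IsCompact K → Convex ℝ K → (interior K).Nonempty →
    Tgt (167044 * κ) K → KLSg (c / √κ) K := by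
  obtain ⟨c, hc, h⟩ := t_CH5
  refine ⟨c / √167044, by positivity, fun κ hκ ι _ K h1 h2 h3 hT => ?_⟩
  obtain ⟨Cp, θ, hCp, hθ, h4, h5⟩ := hT
  have hfin : c / √167044 / √κ = c / √(167044 * κ) := by
    rw [Real.sqrt_mul (by norm_num), div_div]
  rw [hfin]
  exact h (167044 * κ) (by positivity) ι K h1 h2 h3 Cp θ hCp hθ h4 h5

end Fin2

end Pool.Agent.T2h95.OF
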