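import Pool.Agent.T2h95.OF.Stm

/-! # Project OF, task GE7: ordered tuples of points of a convex body form a convex body -/

set_option autoImplicit false

namespace Pool.Agent.T2h95.OF

open MeasureTheory Set Filter Topology
open scoped ENNReal InnerProductSpace

namespace GE7

variable {n k : ℕ}

/-- the `i`-th point -/
noncomputable def row (y : EuclideanSpace ℝ (Fin n ⊕ Fin n × Fin k)) (i : Fin n) :
    ℝ × (Fin k → ℝ) := (y (Sum.inl i), fun j => y (Sum.inr (i, j)))

theorem coord_cont (p : Fin n ⊕ Fin n × Fin k) :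
    Continuous fun y : EuclideanSpace ℝ (Fin n ⊕ Fin n × Fin k) => y p :=
  (continuous_apply p).comp (PiLp.continuous_ofLp 2 _)

theorem row_cont (i : Fin n) :
    Continuous fun y : EuclideanSpace ℝ (Fin n ⊕ Fin n × Fin k) => row y i :=
  (coord_cont _).prodMk (continuous_pi fun _ => coord_cont _)

theorem row_lin (a b : ℝ) (y z : EuclideanSpace ℝ (Fin n ⊕ Fin n × Fin k)) (i : Fin n) :
    row (a • y + b • z) i = a • row y i + b • row z i := by
  refine Prod.ext ?_ (funext fun j => ?_)
  · simp [row]
  · simp [row]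

/-- a strictly monotone function -/
theorem ext_fun (R : Fin n → Fin n → Prop) (has : ∀ a b, R a b → R b a → a = b)
    (htr : ∀ a b c, R a b → R b c → R a c) :
    ∃ σ : Fin n → ℕ, (∀ i, σ i < n) ∧ ∀ i j, R i j → i ≠ j → σ i < σ j := by
  classical
  refine ⟨fun i => (Finset.univ.filter fun k => R k i ∧ k ≠ i).card, fun i => ?_, ?_⟩
  · have h1 : (Finset.univ.filter fun k => R k i ∧ k ≠ i) ⊂ (Finset.univ : Finset (Fin n)) := by
      rw [Finset.ssubset_univ_iff]
      intro h
      have h2 : i ∈ (Finset.univ : Finset (Fin n)) := Finset.mem_univ i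
      rw [← h] at h2
      exact (Finset.mem_filter.1 h2).2.2 rfl
    simpa using Finset.card_lt_card h1
  · intro i j hij hne
    refine Finset.card_lt_card ?_
    rw [Finset.ssubset_iff_of_subset]
    · refine ⟨i, Finset.mem_filter.2 ⟨Finset.mem_univ _, hij, hne⟩, fun h => ?_⟩
      exact (Finset.mem_filter.1 h).2.2 rfl
    · intro k hk
      obtain ⟨-, hk1, hk2⟩ := Finset.mem_filter.1 hk
      refine Finset.mem_filter.2 ⟨Finset.mem_univ _, htr _ _ _ hk1 hij, fun h => ?_⟩
      subst h
      exact hne (has _ _ hij hk1)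

end GE7

open GE7 in
theorem t_GE7 : S_GE7 := by
  intro n k D R hDc hD hDi has htr
  have hKK : KE7 D R = {y | (∀ i, row y i ∈ D) ∧
    ∀ i j, R i j → y (Sum.inl i) ≤ y (Sum.inl j)} := rfl
  refine ⟨?_, ?_, ?_⟩
  · have hcl : IsClosed (KE7 D R) := by
      rw [hKK]
      have e : {y : EuclideanSpace ℝ (Fin n ⊕ Fin n × Fin k) | (∀ i, row y i ∈ D) ∧
          ∀ i j, R i j → y (Sum.inl i) ≤ y (Sum.inl j)} =
          (⋂ i, {y | row y i ∈ D}) ∩
            ⋂ i, ⋂ j, ⋂ (_ : R i j), {y | y (Sum.inl i) ≤ y (Sum.inl j)} := by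
        ext y; simp
      rw [e]
      refine IsClosed.inter (isClosed_iInter fun i => hDc.isClosed.preimage (row_cont i)) ?_
      exact isClosed_iInter fun i => isClosed_iInter fun j => isClosed_iInter fun _ =>
        isClosed_le (coord_cont _) (coord_cont _)
    let G : (Fin n → ℝ × (Fin k → ℝ)) → EuclideanSpace ℝ (Fin n ⊕ Fin n × Fin k) :=
      fun z => WithLp.toLp 2 (Sum.elim (fun i => (z i).1) fun p => (z p.1).2 p.2)
    have hG : Continuous G := by
      refine (PiLp.continuous_toLp 2 _).comp (continuous_pi fun s => ?_)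
      rcases s with i | p
      · exact continuous_fst.comp (continuous_apply i)
      · exact (continuous_apply p.2).comp (continuous_snd.comp (continuous_apply p.1))
    have hc : IsCompact (G '' Set.pi univ fun _ => D) :=
      (isCompact_univ_pi fun _ => hDc).image hG
    refine hc.of_isClosed_subset hcl fun y hy => ?_
    refine ⟨fun i => row y i, fun i _ => hy.1 i, ?_⟩
    ext s
    rcases s with i | p
    · rfl
    · rfl
  · intro y hy z hz a b ha hb hab
    refine ⟨fun i => ?_, fun i j hij => ?_⟩
    · have h1 : a • row y i + b • row z i ∈ D := hD (hy.1 i) (hz.1 i) ha hb hab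
      rw [← row_lin] at h1
      exact h1
    · have h1 := hy.2 i j hij
      have h2 := hz.2 i j hij
      have e : ∀ p, (a • y + b • z) p = a * y p + b * z p := fun p => by simp
      rw [e, e]
      nlinarith [mul_le_mul_of_nonneg_left h1 ha, mul_le_mul_of_nonneg_left h2 hb]
  · obtain ⟨z, hz⟩ := hDi
    obtain ⟨σ, hσ1, hσ2⟩ := ext_fun R has htr
    -- a short horizontal segment in the interior
    have hcont : Continuous fun t : ℝ => ((z.1 + t, z.2) : ℝ × (Fin k → ℝ)) :=
      (continuous_const.add continuous_id).prodMk continuous_const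
    have h0 : (fun t : ℝ => ((z.1 + t, z.2) : ℝ × (Fin k → ℝ))) 0 ∈ interior D := by
      simpa using hz
    obtain ⟨η, hη, hball⟩ := Metric.isOpen_iff.1 (isOpen_interior.preimage hcont) 0 h0
    let e : Fin n → ℝ := fun i => η / 2 * (σ i / n)
    have he : ∀ i, ((z.1 + e i, z.2) : ℝ × (Fin k → ℝ)) ∈ interior D := by
      intro i
      refine hball ?_
      have hn : (0 : ℝ) < n := by exact_mod_cast (lt_of_le_of_lt (Nat.zero_le _) (hσ1 i))
      have h1 : (σ i : ℝ) / n ≤ 1 := by
        rw [div_le_one hn]; exact_mod_cast (hσ1 i).le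
      have h2 : 0 ≤ (σ i : ℝ) / n := by positivity
      rw [Metric.mem_ball, dist_zero_right, Real.norm_eq_abs, abs_of_nonneg (by positivity)]
      show η / 2 * (σ i / n) < η
      nlinarith
    let U : Set (EuclideanSpace ℝ (Fin n ⊕ Fin n × Fin k)) :=
      {y | (∀ i, row y i ∈ interior D) ∧
        ∀ i j, R i j → i ≠ j → y (Sum.inl i) < y (Sum.inl j)}
    have hU : IsOpen U := by
      have e : U = (⋂ i, {y | row y i ∈ interior D}) ∩
          ⋂ i, ⋂ j, {y | R i j → i ≠ j → y (Sum.inl i) < y (Sum.inl j)} := by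
        ext y; simp [U]
      rw [e]
      refine IsOpen.inter (isOpen_iInter_of_finite fun i => isOpen_interior.preimage (row_cont i)) ?_
      refine isOpen_iInter_of_finite fun i => isOpen_iInter_of_finite fun j => ?_
      by_cases h : R i j ∧ i ≠ j
      · have : {y : EuclideanSpace ℝ (Fin n ⊕ Fin n × Fin k) |
            R i j → i ≠ j → y (Sum.inl i) < y (Sum.inl j)} =
            {y | y (Sum.inl i) < y (Sum.inl j)} := by
          ext y; exact ⟨fun h' => h' h.1 h.2, fun h' _ _ => h'⟩
        rw [this]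
        exact isOpen_lt (coord_cont _) (coord_cont _)
      · have : {y : EuclideanSpace ℝ (Fin n ⊕ Fin n × Fin k) |
            R i j → i ≠ j → y (Sum.inl i) < y (Sum.inl j)} = univ := by
          ext y; exact ⟨fun _ => trivial, fun _ h1 h2 => absurd ⟨h1, h2⟩ h⟩
        rw [this]; exact isOpen_univ
    have hsub : U ⊆ KE7 D R := by
      rintro y ⟨h1, h2⟩
      refine ⟨fun i => interior_subset (h1 i), fun i j hij => ?_⟩
      by_cases h : i = j
      · rw [h]
      · exact (h2 i j hij h).le
    refine ⟨WithLp.toLp 2 (Sum.elim (fun i => z.1 + e i) fun p => z.2 p.2),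
      interior_maximal hsub hU ⟨fun i => he i, fun i j hij hne => ?_⟩⟩
    have h3 := hσ2 i j hij hne
    have hn : (0 : ℝ) < n := by exact_mod_cast (lt_of_le_of_lt (Nat.zero_le _) (hσ1 i))
    have h4 : (σ i : ℝ) / n < (σ j : ℝ) / n := div_lt_div_of_pos_right (by exact_mod_cast h3) hn
    have h5 : e i < e j := mul_lt_mul_of_pos_left h4 (by positivity)
    show z.1 + e i < z.1 + e j
    linarith

end Pool.Agent.T2h95.OF
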