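import Pool.Agent.T2h95.OF.Stm
import Pool.Agent.T2h95.OC.VSM

/-!
# Project OF, task LI7: variances of linear functions from below
-/

set_option autoImplicit false

namespace Pool.Agent.T2h95.OF

open MeasureTheory Set Filter Topology ProbabilityTheory
open scoped ENNReal InnerProductSpace
open Pool.Agent.R972.OP (pd)
open Pool.Agent.T2h95.OC
open Pool.Agent.T2h95.OD

namespace LI7

theorem var_le {ν : Measure ℝ} [IsProbabilityMeasure ν] {g : ℝ → ℝ} (hg : Continuous g) (c : ℝ) :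
    variance g ν ≤ ∫ z, (g z - c) ^ 2 ∂ν := by
  have h1 : AEStronglyMeasurable g ν := hg.aestronglyMeasurable
  have h2 : Var[fun x : ℝ => g x - c; ν] = Var[g; ν] :=
    variance_sub_const h1 c
  have h3 := variance_le_expectation_sq (μ := ν) (X := fun x : ℝ => g x - c)
    (h1.sub aestronglyMeasurable_const)
  rw [h2] at h3
  exact h3

theorem int_eval {n : ℕ} {ν : Measure ℝ} [IsProbabilityMeasure ν] {g : ℝ → ℝ} (hg : Continuous g)
    (i : Fin n) : ∫ x, g (x i) ∂pw n ν = ∫ x, g x ∂ν := by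
  have h := (measurePreserving_eval (fun _ : Fin n => ν) i).map_eq
  conv_rhs => rw [← h]
  rw [integral_map (measurable_pi_apply i).aemeasurable hg.aestronglyMeasurable]

end LI7

open LI7 in
theorem t_LI7 (hFL : S_FL7) (hMO : S_MO5) (hLD : S_LD5) (hLC : S_LC) (hIN : S_IN5) : S_LI7 := by
  intro α β H φ k ψ u L a₀ c n hk hP hL hψ
  obtain ⟨-, hρ⟩ := hLD α β H φ k hP
  obtain ⟨hprob, -, -, -⟩ := hLC _ hρ
  set ν := law (r5 α β k φ) with hν
  set g : ℝ → ℝ := fun x => a₀ * x + ∑ j, u j * ψ x j with hg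
  set E : ℝ := EL L (fun v => (∑ j, u j * v j) ^ 2) with hE
  have hE0 : 0 ≤ E := by
    rw [hE]
    unfold EL
    exact div_nonneg (integral_nonneg fun v => sq_nonneg _) ENNReal.toReal_nonneg
  have hgc : Continuous g := by
    rw [hg]
    have hj : ∀ j, Continuous fun x => ψ x j := fun j => (continuous_apply j).comp hψ
    exact (continuous_const.mul continuous_id).add
      (continuous_finsetSum _ fun j _ => continuous_const.mul (hj j))
  have hmem : MemLp g 2 ν := by
    rw [memLp_two_iff_integrable_sq hgc.aestronglyMeasurable]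
    have h1 := hIN α β H φ k hP 1 (fun x => g (x 0) ^ 2) ((hgc.comp (continuous_apply 0)).pow 2)
    have h2 := measurePreserving_eval (fun _ : Fin 1 => ν) 0
    have h3 : AEStronglyMeasurable (fun x => g x ^ 2) ν := (hgc.pow 2).aestronglyMeasurable
    exact (h2.integrable_comp h3).1 h1
  have e1 : ∀ x : Fin n → ℝ,
      f7 ψ φ L (fun p => (∑ i, (a₀ * p.1 i + ∑ j, u j * p.2 i j) - c) ^ 2) x =
      (∑ i, g (x i) - c) ^ 2 + (∑ i, φ (x i) ^ 2) * E := fun x => by
    rw [hFL n k ψ u φ L a₀ c x hL]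
  simp only [e1]
  have hc1 : Continuous fun x : Fin n → ℝ => (∑ i, g (x i) - c) ^ 2 :=
    ((continuous_finsetSum _ fun i _ => hgc.comp (continuous_apply i)).sub continuous_const).pow 2
  have hc2 : Continuous fun x : Fin n → ℝ => ∑ i, φ (x i) ^ 2 :=
    continuous_finsetSum _ fun i _ => (hP.cont.comp (continuous_apply i)).pow 2
  have i1 := hIN α β H φ k hP n _ hc1
  have i2 := hIN α β H φ k hP n _ hc2
  have i3 : ∀ i : Fin n, Integrable (fun x : Fin n → ℝ => φ (x i) ^ 2) (pw n ν) := fun i =>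
    hIN α β H φ k hP n _ ((hP.cont.comp (continuous_apply i)).pow 2)
  rw [integral_add i1 (i2.mul_const E), integral_mul_const]
  have h1 := VSM.key (n := n) ν g hmem (variance g ν) (fun c => var_le hgc c) c
  have h2 : ∫ x, ∑ i, φ (x i) ^ 2 ∂pw n ν = n * ∫ x, φ x ^ 2 ∂ν := by
    rw [integral_finsetSum _ fun i _ => i3 i]
    have h3 : ∀ i : Fin n, ∫ x, φ (x i) ^ 2 ∂pw n ν = ∫ x, φ x ^ 2 ∂ν := fun i =>
      int_eval (ν := ν) (g := fun x => φ x ^ 2) (hP.cont.pow 2) i
    rw [Finset.sum_congr rfl fun i _ => h3 i]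
    rw [Finset.sum_const, Finset.card_univ, Fintype.card_fin, nsmul_eq_mul]
  have h3 := hMO α β H φ k hP
  rw [h2]
  have h4 : (n : ℝ) * (H ^ 2 / 4 * E) ≤ n * (∫ x, φ x ^ 2 ∂ν) * E := by
    rw [mul_assoc]
    exact mul_le_mul_of_nonneg_left (mul_le_mul_of_nonneg_right h3 hE0) (Nat.cast_nonneg n)
  rw [mul_add]
  exact add_le_add h1 h4

end Pool.Agent.T2h95.OF
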