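import Pool.Agent.T2h95.OF.Stm

/-!
# Project OF: task LW7
-/

set_option autoImplicit false

namespace Pool.Agent.T2h95.OF

open MeasureTheory Set Filter Topology
open scoped ENNReal InnerProductSpace
open Pool.Agent.T2h95.OC
open Pool.Agent.T2h95.OD

namespace LW7

variable {k : ℕ}

theorem ln_eq (L : Set (Fin k → ℝ)) :
    Ln 1 L = (MeasurableEquiv.funUnique (Fin 1) (Fin k → ℝ)) ⁻¹' L := by
  ext v
  constructor
  · intro h
    exact h default
  · intro h i
    rw [Subsingleton.elim i default]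
    exact h

theorem int_ln (L : Set (Fin k → ℝ)) (g : (Fin k → ℝ) → ℝ) :
    ∫ v in Ln 1 L, g (v 0) = ∫ v in L, g v := by
  rw [ln_eq]
  exact (volume_preserving_funUnique (Fin 1) (Fin k → ℝ)).setIntegral_preimage_emb
    (MeasurableEquiv.measurableEmbedding _) g L

theorem vol_ln (L : Set (Fin k → ℝ)) : volume (Ln 1 L) = volume L := by
  rw [ln_eq]
  exact (volume_preserving_funUnique (Fin 1) (Fin k → ℝ)).measure_preimage_equiv L

theorem int_pw (ν : Measure ℝ) [IsProbabilityMeasure ν] (g : ℝ → ℝ) :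
    ∫ x, g (x 0) ∂pw 1 ν = ∫ t, g t ∂ν :=
  (measurePreserving_funUnique ν (Fin 1)).integral_comp' g

/-- the linear function -/
noncomputable def La (u : Fin k → ℝ) (b : ℝ) : ((Fin 1 → ℝ) × (Fin 1 → Fin k → ℝ)) →L[ℝ] ℝ :=
  (∑ j, u j • ((ContinuousLinearMap.proj j).comp
    ((ContinuousLinearMap.proj (0 : Fin 1)).comp (ContinuousLinearMap.snd ℝ (Fin 1 → ℝ) (Fin 1 → Fin k → ℝ))))) -
  b • ((ContinuousLinearMap.proj (0 : Fin 1)).comp
    (ContinuousLinearMap.fst ℝ (Fin 1 → ℝ) (Fin 1 → Fin k → ℝ)))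

theorem La_apply (u : Fin k → ℝ) (b : ℝ) (p : (Fin 1 → ℝ) × (Fin 1 → Fin k → ℝ)) :
    La u b p = ∑ j, u j * p.2 0 j - b * p.1 0 := by
  simp [La]

theorem eX_La (u : Fin k → ℝ) (b : ℝ) (i : Fin 1) (p : (Fin 1 → ℝ) × (Fin 1 → Fin k → ℝ)) :
    eX (La u b) i p = -b := by
  unfold eX
  rw [ContinuousLinearMap.fderiv, La_apply, Subsingleton.elim i 0]
  simp

theorem eZ_La (u : Fin k → ℝ) (b : ℝ) (i : Fin 1) (j : Fin k)
    (p : (Fin 1 → ℝ) × (Fin 1 → Fin k → ℝ)) : eZ (La u b) i j p = u j := by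
  unfold eZ
  rw [ContinuousLinearMap.fderiv, La_apply, Subsingleton.elim i 0]
  simp [Pi.single_apply]

theorem f7_const (ψ : ℝ → Fin k → ℝ) (φ : ℝ → ℝ) (L : Set (Fin k → ℝ)) (hL : LB L) (c : ℝ)
    (x : Fin 1 → ℝ) : f7 ψ φ L (fun _ => c) x = c := by
  have hpos : 0 < (volume L).toReal := ENNReal.toReal_pos hL.pos.ne' hL.comp.measure_lt_top.ne
  unfold f7
  rw [int_ln L (fun _ => c), vol_ln, setIntegral_const, Measure.real, smul_eq_mul]
  field_simp

theorem f7_La (ψ : ℝ → Fin k → ℝ) (φ : ℝ → ℝ) (L : Set (Fin k → ℝ)) (hL : LB L) (u : Fin k → ℝ)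
    (b : ℝ) (x : Fin 1 → ℝ) :
    f7 ψ φ L (La u b) x = ∑ j, u j * ψ (x 0) j - b * x 0 := by
  have hpos : 0 < (volume L).toReal := ENNReal.toReal_pos hL.pos.ne' hL.comp.measure_lt_top.ne
  have hi : ∀ g : (Fin k → ℝ) → ℝ, Continuous g → IntegrableOn g L := fun g hg =>
    hg.continuousOn.integrableOn_compact hL.comp
  set C : ℝ := ∑ j, u j * ψ (x 0) j - b * x 0 with hC
  unfold f7
  have h1 : ∀ v : Fin 1 → Fin k → ℝ, La u b (x, s7 ψ φ x v) =
      (fun w : Fin k → ℝ => C + φ (x 0) * ∑ j, u j * w j) (v 0) := by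
    intro v
    rw [La_apply]
    simp only [s7, hC, Finset.mul_sum]
    have : ∑ j, u j * (ψ (x 0) j + φ (x 0) * v 0 j) =
        (∑ j, u j * ψ (x 0) j) + ∑ j, φ (x 0) * (u j * v 0 j) := by
      rw [← Finset.sum_add_distrib]
      exact Finset.sum_congr rfl fun j _ => by ring
    rw [this]
    ring
  simp only [h1]
  rw [int_ln L (fun w : Fin k → ℝ => C + φ (x 0) * ∑ j, u j * w j), vol_ln]
  have h2 : ∫ w in L, (C + φ (x 0) * ∑ j, u j * w j) = C * (volume L).toReal := by
    rw [integral_add (hi _ continuous_const) (hi _ (by fun_prop)), setIntegral_const,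
      integral_const_mul, integral_finsetSum _ fun j _ => hi _ (by fun_prop)]
    have h3 : ∀ j, ∫ w in L, u j * w j = 0 := by
      intro j
      rw [integral_const_mul, hL.cen j, mul_zero]
    simp only [h3, Finset.sum_const_zero, mul_zero, add_zero, Measure.real, smul_eq_mul]
    ring
  rw [h2]
  field_simp

end LW7

open LW7 in
theorem t_LW7 (hld : S_LD5) (hlc : S_LC) (hin : S_IN5) (_hfc : S_FC7) : S_LW7 := by
  intro α β H φ k ψ L lam w hk hφ hL hψ hlam hIW u
  set ν : Measure ℝ := law (r5 α β k φ) with hν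
  have : IsProbabilityMeasure ν := (hlc _ (hld α β H φ k hφ).2).1
  set b : ℝ := ∑ j, u j * w j with hb
  set F : ℝ → ℝ := fun x => ∑ j, u j * ψ x j - b * x with hF
  have hFc : Continuous F := by
    have : ∀ j, Continuous fun x => ψ x j := fun j => (continuous_apply j).comp hψ
    fun_prop
  have key := hIW 1 (fun _ _ => False) (La u b) (La u b).contDiff
  have hCR : CR (fun _ _ : Fin 1 => False) = univ := by
    ext x
    simp [CR]
  rw [hCR, Measure.restrict_univ, measure_univ] at key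
  have e1 : ∀ x : Fin 1 → ℝ, f7 ψ φ L (La u b) x = F (x 0) := fun x => f7_La ψ φ L hL u b x
  have e2 : G7 216 (V5 α β k φ) lam H w (La u b) = fun _ => 216 * lam * H ^ 2 * ∑ j, u j ^ 2 := by
    funext p
    unfold G7
    simp only [eX_La, eZ_La, Finset.univ_unique, Finset.sum_singleton]
    have : -b + ∑ j, w j * u j = 0 := by
      rw [hb]
      have : ∑ j, w j * u j = ∑ j, u j * w j := Finset.sum_congr rfl fun j _ => mul_comm _ _
      rw [this]
      ring
    rw [this]
    ring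
  have e3 : ∀ x : Fin 1 → ℝ, f7 ψ φ L (G7 216 (V5 α β k φ) lam H w (La u b)) x =
      216 * lam * H ^ 2 * ∑ j, u j ^ 2 := by
    intro x
    rw [e2, f7_const ψ φ L hL]
  simp only [e1, e3] at key
  rw [int_pw ν (fun t => F t ^ 2), int_pw ν F, integral_const, probReal_univ, one_smul,
    ENNReal.toReal_one, one_mul, one_mul] at key
  have hint : Integrable (fun t => F t ^ 2) ν := by
    have h1 := hin α β H φ k hφ 1 (fun x => F (x 0) ^ 2) (by
      exact (hFc.comp (continuous_apply 0)).pow 2)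
    have h2 := (measurePreserving_funUnique ν (Fin 1)).integrable_comp_emb
      (MeasurableEquiv.measurableEmbedding _) (g := fun t => F t ^ 2)
    exact h2.1 h1
  have hmem : MemLp F 2 ν := by
    rw [memLp_two_iff_integrable_sq hFc.aestronglyMeasurable]
    exact hint
  have hvar : ProbabilityTheory.variance F ν = (∫ t, F t ^ 2 ∂ν) - (∫ t, F t ∂ν) ^ 2 := by
    rw [ProbabilityTheory.variance_eq_sub hmem]
    rfl
  rw [hvar]
  exact key

end Pool.Agent.T2h95.OF
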