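import Pool.Agent.T2h95.OF.Stm

/-! # SD7: the right derivative of a concave function is a supergradient (helper37) -/

set_option autoImplicit false

namespace Pool.Agent.T2h95.OF

open MeasureTheory Set Filter Topology

namespace SD7

theorem secm {s : Set ℝ} {p : ℝ → ℝ} (hp : ConcaveOn ℝ s p) {a x y : ℝ} (ha : a ∈ s) (hx : x ∈ s)
    (hy : y ∈ s) (hxa : x ≠ a) (hya : y ≠ a) (hxy : x ≤ y) :
    (p y - p a) / (y - a) ≤ (p x - p a) / (x - a) := by
  have h := hp.neg.secant_mono ha hx hy hxa hya hxy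
  simp only [Pi.neg_apply] at h
  have e1 : (-p x - -p a) / (x - a) = -((p x - p a) / (x - a)) := by ring
  have e2 : (-p y - -p a) / (y - a) = -((p y - p a) / (y - a)) := by ring
  rw [e1, e2] at h
  linarith

end SD7

open SD7

theorem t_SD7 : S_SD7 := by
  intro α β p hp x hα hβ D hD y hy
  have hx : x ∈ Icc α β := ⟨hα.le, hβ.le⟩
  rw [hasDerivWithinAt_iff_tendsto_slope' self_notMem_Ioi] at hD
  rcases lt_trichotomy y x with h | h | h
  · have h1 : D ≤ (p y - p x) / (y - x) := by
      refine le_of_tendsto hD ?_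
      filter_upwards [Ioo_mem_nhdsGT hβ] with t ht
      rw [slope_def_field]
      exact secm hp hx hy ⟨(hα.trans ht.1).le, ht.2.le⟩ h.ne ht.1.ne' (h.trans ht.1).le
    rw [le_div_iff_of_neg (sub_neg.2 h)] at h1
    linarith
  · rw [h, sub_self, mul_zero, add_zero]
  · have h1 : (p y - p x) / (y - x) ≤ D := by
      refine ge_of_tendsto hD ?_
      filter_upwards [Ioo_mem_nhdsGT h] with t ht
      rw [slope_def_field]
      exact secm hp hx ⟨(hα.trans ht.1).le, ht.2.le.trans hy.2⟩ hy ht.1.ne' h.ne' ht.2.le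
    rw [div_le_iff₀ (sub_pos.2 h)] at h1
    linarith

end Pool.Agent.T2h95.OF
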