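import Pool.Agent.T2h95.OF.Stm

/-!
# Project OF, task SG7 (helper62): smoothing
-/

set_option autoImplicit false

namespace Pool.Agent.T2h95.OF

open MeasureTheory Set Filter Topology
open scoped ENNReal InnerProductSpace
open Pool.Agent.R972.OP (pd)
open Pool.Agent.T2h95.OC
open Pool.Agent.T2h95.OD

namespace SG7

/-- slopes of a concave function from the left end decrease -/
theorem slope_le {S : Set ℝ} {φ : ℝ → ℝ} (hc : ConcaveOn ℝ S φ) {x y z : ℝ} (hx : x ∈ S)
    (hz : z ∈ S) (hxy : x < y) (hyz : y ≤ z) :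
    (φ z - φ x) / (z - x) ≤ (φ y - φ x) / (y - x) := by
  rcases hyz.eq_or_lt with rfl | hyz
  · exact le_rfl
  have h := hc.slope_anti_adjacent hx hz hxy hyz
  have h1 : 0 < y - x := by linarith
  have h2 : 0 < z - y := by linarith
  rw [div_le_iff₀ (by linarith)]
  have h3 : φ z - φ y ≤ (φ y - φ x) / (y - x) * (z - y) := (div_le_iff₀ h2).1 h
  have h4 : (φ y - φ x) / (y - x) * (y - x) = φ y - φ x := div_mul_cancel₀ _ h1.ne'
  nlinarith

/-- difference quotients of a continuous concave function -/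
theorem dq {α β c d : ℝ} {p : ℝ → ℝ} (hc : ConcaveOn ℝ (Icc α β) p) (hp : Continuous p)
    (hαc : α < c) (hcd : c ≤ d) (hdβ : d < β) (δ : ℕ → ℝ) (hδ0 : ∀ m, 0 < δ m)
    (hδ1 : ∀ m, δ m ≤ (β - d) / 2) (hδt0 : Tendsto δ atTop (𝓝 0)) :
    ∃ (K : ℝ) (D : ℝ → ℝ), Measurable D ∧ (∀ x, |D x| ≤ K) ∧
      (∀ m, ∀ x ∈ Icc c d, |(p (x + δ m) - p x) / δ m| ≤ K) ∧
      ∀ x ∈ Icc c d, Tendsto (fun h => (p (x + h) - p x) / h) (𝓝[>] 0) (𝓝 (D x)) := by
  have hd0 : 0 < β - d := by linarith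
  have hαβ : α < β := by linarith
  obtain ⟨H, hH⟩ : ∃ H : ℝ, ∀ x ∈ Icc α β, |p x| ≤ H := by
    obtain ⟨H, hH⟩ := isCompact_Icc.exists_bound_of_continuousOn (f := p) (s := Icc α β)
      hp.continuousOn
    exact ⟨H, fun x hx => by simpa using hH x hx⟩
  have hαm : α ∈ Icc α β := ⟨le_rfl, hαβ.le⟩
  have hβm : β ∈ Icc α β := ⟨hαβ.le, le_rfl⟩
  have hH0 : 0 ≤ H := (abs_nonneg _).trans (hH α hαm)
  have hmin : 0 < min (c - α) ((β - d) / 2) := lt_min (by linarith) (by linarith)
  obtain ⟨B, hB⟩ : ∃ B : ℝ, B = 2 * H / min (c - α) ((β - d) / 2) := ⟨_, rfl⟩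
  have hB0 : 0 ≤ B := by
    rw [hB]
    positivity
  -- bound
  have hgB : ∀ x ∈ Icc c d, ∀ h, 0 < h → h ≤ (β - d) / 2 → |(p (x + h) - p x) / h| ≤ B := by
    intro x hx h h0 h1
    have hxα : 0 < x - α := by linarith [hx.1]
    have e1 : x + h < β := by linarith [hx.2]
    have e2 : (β - d) / 2 ≤ β - (x + h) := by linarith [hx.2]
    have hxm : x ∈ Icc α β := ⟨by linarith, by linarith [hx.2]⟩
    have hxδm : x + h ∈ Icc α β := ⟨by linarith, e1.le⟩
    have s1 := hc.slope_anti_adjacent hxm hβm (by linarith : x < x + h) e1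
    have s2 := hc.slope_anti_adjacent hαm hxδm (by linarith : α < x) (by linarith : x < x + h)
    rw [add_sub_cancel_left] at s1 s2
    have b1 := abs_le.1 (hH _ hxm)
    have b2 := abs_le.1 (hH _ hxδm)
    have b3 := abs_le.1 (hH _ hαm)
    have b4 := abs_le.1 (hH _ hβm)
    have t1 : -(2 * H / (β - (x + h))) ≤ (p β - p (x + h)) / (β - (x + h)) := by
      rw [← neg_div]
      apply div_le_div_of_nonneg_right _ (by linarith)
      linarith [b4.1, b2.2]
    have t2 : 2 * H / (β - (x + h)) ≤ B := by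
      rw [hB]
      exact div_le_div₀ (by linarith) le_rfl hmin ((min_le_right _ _).trans e2)
    have t5 : (p x - p α) / (x - α) ≤ 2 * H / (x - α) := by
      apply div_le_div_of_nonneg_right _ hxα.le
      linarith [b1.2, b3.1]
    have t6 : 2 * H / (x - α) ≤ B := by
      rw [hB]
      exact div_le_div₀ (by linarith) le_rfl hmin
        ((min_le_left _ _).trans (by linarith [hx.1]))
    rw [abs_le]
    constructor
    · linarith
    · linarith
  have hgm : ∀ m, ∀ x ∈ Icc c d, |(p (x + δ m) - p x) / δ m| ≤ B := fun m x hx =>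
    hgB x hx (δ m) (hδ0 m) (hδ1 m)
  -- monotone
  have hmo : ∀ x ∈ Icc c d, ∀ h h', 0 < h → h ≤ h' → h' ≤ (β - d) / 2 →
      (p (x + h') - p x) / h' ≤ (p (x + h) - p x) / h := by
    intro x hx h h' h0 h1 h2
    have hxm : x ∈ Icc α β := ⟨by linarith [hx.1], by linarith [hx.2]⟩
    have hxδm : x + h' ∈ Icc α β := ⟨by linarith [hx.1], by linarith [hx.2]⟩
    have h3 := slope_le hc hxm hxδm (by linarith : x < x + h) (by linarith : x + h ≤ x + h')
    rw [add_sub_cancel_left, add_sub_cancel_left] at h3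
    exact h3
  have hbdd : ∀ x ∈ Icc c d, BddAbove (range fun m => (p (x + δ m) - p x) / δ m) := by
    intro x hx
    refine ⟨B, ?_⟩
    rintro _ ⟨m, rfl⟩
    exact (abs_le.1 (hgm m x hx)).2
  obtain ⟨D, hD⟩ : ∃ D : ℝ → ℝ, D = (Icc c d).indicator
    fun x => ⨆ m, (p (x + δ m) - p x) / δ m := ⟨_, rfl⟩
  have hDx : ∀ x ∈ Icc c d, D x = ⨆ m, (p (x + δ m) - p x) / δ m := fun x hx => by
    rw [hD, indicator_of_mem hx]
  have hDt : ∀ x ∈ Icc c d, Tendsto (fun h => (p (x + h) - p x) / h) (𝓝[>] 0) (𝓝 (D x)) := by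
    intro x hx
    rw [tendsto_order]
    constructor
    · intro a ha
      rw [hDx x hx] at ha
      obtain ⟨m, hm⟩ := exists_lt_of_lt_ciSup ha
      have hev : ∀ᶠ h in 𝓝[>] (0 : ℝ), h ∈ Ioo 0 (δ m) := Ioo_mem_nhdsGT (hδ0 m)
      filter_upwards [hev] with h hh
      exact hm.trans_le (hmo x hx h (δ m) hh.1 hh.2.le (hδ1 m))
    · intro a ha
      have hev : ∀ᶠ h in 𝓝[>] (0 : ℝ), h ∈ Ioo 0 ((β - d) / 2) := Ioo_mem_nhdsGT (by linarith)
      filter_upwards [hev] with h hh
      refine lt_of_le_of_lt ?_ ha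
      rw [hDx x hx]
      obtain ⟨m, hm⟩ : ∃ m, δ m < h := (hδt0.eventually_lt_const hh.1).exists
      exact (hmo x hx (δ m) h (hδ0 m) hm.le hh.2.le).trans (le_ciSup (hbdd x hx) m)
  have hδt : Tendsto δ atTop (𝓝[>] 0) := by
    rw [tendsto_nhdsWithin_iff]
    exact ⟨hδt0, Eventually.of_forall fun m => hδ0 m⟩
  refine ⟨B, D, ?_, ?_, hgm, hDt⟩
  · rw [hD]
    exact (Measurable.iSup fun m =>
      ((((hp.comp (continuous_id.add continuous_const)).sub hp).div_const
        (δ m)).measurable)).indicator measurableSet_Icc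
  · intro x
    by_cases hx : x ∈ Icc c d
    · exact le_of_tendsto ((hDt x hx).comp hδt).abs (Eventually.of_forall fun m => hgm m x hx)
    · rw [hD, indicator_of_notMem hx, abs_zero]
      exact hB0

end SG7

open SG7 in
theorem t_SG7 : S_SG7 := by
  intro α β H φ hP g B ha hc1 hc2 c d hαc hcd hdβ
  have hφ := hP.cont
  have hαβ := hP.lt
  have hd0 : 0 < β - d := by linarith
  obtain ⟨A, hAd⟩ : ∃ A : ℝ → ℝ, A = fun x => ∫ t in (0 : ℝ)..x, g t := ⟨_, rfl⟩
  have hA : ∀ x, HasDerivAt A (g x) x := by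
    intro x
    rw [hAd]
    exact (ha.integral_hasStrictDerivAt 0 x).hasDerivAt
  have hAi : ∀ x y, ∫ t in x..y, g t = A y - A x := by
    intro x y
    rw [hAd]
    exact (intervalIntegral.integral_interval_sub_left (ha.intervalIntegrable _ _)
      (ha.intervalIntegrable _ _)).symm
  obtain ⟨δ, hδ⟩ : ∃ δ : ℕ → ℝ, δ = fun m : ℕ => (β - d) / (2 * ((m : ℝ) + 1)) := ⟨_, rfl⟩
  have hδ0 : ∀ m, 0 < δ m := by
    intro m
    rw [hδ]
    positivity
  have hδ1 : ∀ m, δ m ≤ (β - d) / 2 := by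
    intro m
    rw [hδ]
    have : (0 : ℝ) ≤ m := Nat.cast_nonneg m
    apply div_le_div_of_nonneg_left hd0.le (by norm_num)
    linarith
  have hδt0 : Tendsto δ atTop (𝓝 0) := by
    have h3 : Tendsto (fun m : ℕ => ((β - d) / 2) * (1 / ((m : ℝ) + 1))) atTop
        (𝓝 (((β - d) / 2) * 0)) := tendsto_one_div_add_atTop_nhds_zero_nat.const_mul _
    rw [mul_zero] at h3
    refine h3.congr fun m => ?_
    rw [hδ]
    have : (0 : ℝ) < (m : ℝ) + 1 := by positivity
    field_simp
  have hδt : Tendsto δ atTop (𝓝[>] 0) := by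
    rw [tendsto_nhdsWithin_iff]
    exact ⟨hδt0, Eventually.of_forall fun m => hδ0 m⟩
  have hs : ∀ m x, HasDerivAt (fun x => (A (x + δ m) - A x) / δ m)
      ((g (x + δ m) - g x) / δ m) x := by
    intro m x
    have h1 : HasDerivAt (fun x => A (x + δ m)) (g (x + δ m)) x := (hA (x + δ m)).comp_add_const x _
    exact (h1.sub (hA x)).div_const _
  have hpc : Continuous fun x => g x + B * φ x := ha.add (hφ.const_mul B)
  have hmc : Continuous fun x => -g x + B * φ x := ha.neg.add (hφ.const_mul B)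
  obtain ⟨K1, D1, hm1, hb1, hq1, ht1⟩ := dq hc1 hpc hαc hcd hdβ δ hδ0 hδ1 hδt0
  obtain ⟨K2, D2, hm2, hb2, hq2, ht2⟩ := dq hc2 hmc hαc hcd hdβ δ hδ0 hδ1 hδt0
  -- bound of `g`
  obtain ⟨G, hG⟩ : ∃ G : ℝ, ∀ x ∈ Icc α β, |g x| ≤ G := by
    obtain ⟨G, hG⟩ := isCompact_Icc.exists_bound_of_continuousOn (f := g) (s := Icc α β)
      ha.continuousOn
    exact ⟨G, fun x hx => by simpa using hG x hx⟩
  have hαm : α ∈ Icc α β := ⟨le_rfl, hαβ.le⟩
  have hG0 : 0 ≤ G := (abs_nonneg _).trans (hG α hαm)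
  have hK1 : 0 ≤ K1 := (abs_nonneg _).trans (hb1 0)
  have hK2 : 0 ≤ K2 := (abs_nonneg _).trans (hb2 0)
  have hloc : ∀ lo hi x h : ℝ, 0 < h → (∀ t ∈ Icc x (x + h), lo ≤ g t ∧ g t ≤ hi) →
      lo ≤ (A (x + h) - A x) / h ∧ (A (x + h) - A x) / h ≤ hi := by
    intro lo hi x h h0 hb
    have hx : x ≤ x + h := by linarith
    have h1 : ∫ t in x..(x + h), lo ≤ ∫ t in x..(x + h), g t :=
      intervalIntegral.integral_mono_on hx (by simp) (ha.intervalIntegrable _ _)
        fun t ht => (hb t ht).1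
    have h2 : ∫ t in x..(x + h), g t ≤ ∫ t in x..(x + h), hi :=
      intervalIntegral.integral_mono_on hx (ha.intervalIntegrable _ _) (by simp)
        fun t ht => (hb t ht).2
    rw [intervalIntegral.integral_const, hAi, smul_eq_mul] at h1
    rw [intervalIntegral.integral_const, hAi, smul_eq_mul] at h2
    constructor
    · rw [le_div_iff₀ h0]
      linarith
    · rw [div_le_iff₀ h0]
      linarith
  have hE : ∀ x ∈ Icc c d, Tendsto (fun h => (g (x + h) - g x) / h) (𝓝[>] 0)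
      (𝓝 ((D1 x - D2 x) / 2)) := by
    intro x hx
    refine (((ht1 x hx).sub (ht2 x hx)).div_const 2).congr fun h => ?_
    ring
  refine ⟨fun m x => (A (x + δ m) - A x) / δ m, fun x => (D1 x - D2 x) / 2, G + (K1 + K2), ?_, ?_,
    ?_, ?_, ?_, ?_, ?_⟩
  · intro m
    rw [contDiff_one_iff_deriv]
    refine ⟨fun x => (hs m x).differentiableAt, ?_⟩
    have : deriv (fun x => (A (x + δ m) - A x) / δ m) = fun x => (g (x + δ m) - g x) / δ m :=
      funext fun x => (hs m x).deriv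
    rw [this]
    exact ((ha.comp (continuous_id.add continuous_const)).sub ha).div_const _
  · intro lo hi hb m x
    exact hloc lo hi x (δ m) (hδ0 m) fun t _ => hb t
  · intro m x hx
    constructor
    · have h1 := hloc (-G) G x (δ m) (hδ0 m) fun t ht => by
        have htm : t ∈ Icc α β := ⟨by linarith [ht.1, hx.1], by linarith [ht.2, hδ1 m, hx.2]⟩
        exact abs_le.1 (hG t htm)
      have h2 : |(A (x + δ m) - A x) / δ m| ≤ G := abs_le.2 h1
      linarith
    · rw [(hs m x).deriv]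
      have h1 := abs_le.1 (hq1 m x hx)
      have h2 := abs_le.1 (hq2 m x hx)
      have h3 : (g (x + δ m) - g x) / δ m = (((g (x + δ m) + B * φ (x + δ m)) -
          (g x + B * φ x)) / δ m - ((-g (x + δ m) + B * φ (x + δ m)) -
          (-g x + B * φ x)) / δ m) / 2 := by ring
      rw [h3, abs_le]
      constructor
      · linarith [h1.1, h2.2]
      · linarith [h1.2, h2.1]
  · intro x
    have h1 := (hasDerivAt_iff_tendsto_slope_zero.1 (hA x))
    have h2 : Tendsto δ atTop (𝓝[≠] 0) := by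
      rw [tendsto_nhdsWithin_iff]
      exact ⟨hδt0, Eventually.of_forall fun m => (hδ0 m).ne'⟩
    refine (h1.comp h2).congr fun m => ?_
    simp only [Function.comp_apply, smul_eq_mul]
    rw [div_eq_inv_mul]
  · exact (hm1.sub hm2).div_const 2
  · intro x
    have h1 := abs_le.1 (hb1 x)
    have h2 := abs_le.1 (hb2 x)
    show |(D1 x - D2 x) / 2| ≤ G + (K1 + K2)
    rw [abs_le]
    constructor
    · linarith [h1.1, h2.2]
    · linarith [h1.2, h2.1]
  · intro x hx
    refine ⟨((hE x hx).comp hδt).congr fun m => ?_, ?_⟩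
    · rw [(hs m x).deriv]
      rfl
    · rw [hasDerivWithinAt_iff_tendsto_slope' (by simp)]
      have h1 : Tendsto (fun y => y - x) (𝓝[>] x) (𝓝[>] 0) := by
        rw [tendsto_nhdsWithin_iff]
        constructor
        · have : Tendsto (fun y => y - x) (𝓝 x) (𝓝 (x - x)) :=
            (continuous_id.sub continuous_const).tendsto x
          rw [sub_self] at this
          exact this.mono_left nhdsWithin_le_nhds
        · filter_upwards [self_mem_nhdsWithin] with y hy
          exact sub_pos.2 (mem_Ioi.1 hy)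
      refine ((hE x hx).comp h1).congr fun y => ?_
      simp only [Function.comp_apply, slope_def_field]
      rw [add_sub_cancel]

end Pool.Agent.T2h95.OF
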