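import Pool.Agent.T2h95.OF.Stm

/-!
# SL7: the derivatives of the centres are controlled by those of the sizes
-/

set_option autoImplicit false

namespace Pool.Agent.T2h95.OF

open MeasureTheory Set Filter Topology
open Pool.Agent.T2h95.OC
open Pool.Agent.T2h95.OD

namespace SL7

theorem main (hCV : S_CV7) (hSD : S_SD7) (k : ℕ) (α β H : ℝ) (φ : ℝ → ℝ) (ψ : ℝ → Fin k → ℝ)
    (L : Set (Fin k → ℝ)) (hφ : HB α β H φ) (hL : LB L) (hC : CC α β φ ψ L) (r x y Dx Dy : ℝ)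
    (Ex Ey : Fin k → ℝ) (hr : 0 ≤ r) (hLr : ∀ v ∈ L, ∑ j, v j ^ 2 ≤ r ^ 2) (hx1 : α < x) (hx2 : x < β)
    (hy1 : α < y) (hy2 : y < β) (hDx : HasDerivWithinAt φ Dx (Ioi x) x)
    (hDy : HasDerivWithinAt φ Dy (Ioi y) y)
    (hEx : ∀ j, HasDerivWithinAt (fun t => ψ t j) (Ex j) (Ioi x) x)
    (hEy : ∀ j, HasDerivWithinAt (fun t => ψ t j) (Ey j) (Ioi y) y) (hxy : x < y) :
    ∑ j, (Ey j - Ex j) ^ 2 ≤ r ^ 2 * (Dx - Dy) ^ 2 := by
  set u : Fin k → ℝ := fun j => Ey j - Ex j with hu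
  set s : ℝ := Real.sqrt (∑ j, u j ^ 2) with hs
  have hS0 : 0 ≤ ∑ j, u j ^ 2 := Finset.sum_nonneg fun j _ => sq_nonneg _
  have hs0 : 0 ≤ s := Real.sqrt_nonneg _
  have hs2 : s ^ 2 = ∑ j, u j ^ 2 := Real.sq_sqrt hS0
  have hB : ∀ v ∈ L, ∑ j, u j * v j ≤ s * r := by
    intro v hv
    refine (Real.sum_mul_le_sqrt_mul_sqrt Finset.univ u v).trans ?_
    refine mul_le_mul_of_nonneg_left ?_ hs0
    rw [← Real.sqrt_sq hr]
    exact Real.sqrt_le_sqrt (hLr v hv)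
  have hconc := hCV k α β H φ ψ L hφ hL hC u (s * r) hB
  have hPx : HasDerivWithinAt (fun t => ∑ j, u j * ψ t j + φ t * (s * r)) (∑ j, u j * Ex j + Dx * (s * r))
      (Ioi x) x :=
    (HasDerivWithinAt.fun_sum fun j _ => (hEx j).const_mul (u j)).add (hDx.mul_const (s * r))
  have hPy : HasDerivWithinAt (fun t => ∑ j, u j * ψ t j + φ t * (s * r)) (∑ j, u j * Ey j + Dy * (s * r))
      (Ioi y) y :=
    (HasDerivWithinAt.fun_sum fun j _ => (hEy j).const_mul (u j)).add (hDy.mul_const (s * r))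
  have h1 := hSD α β _ hconc x hx1 hx2 _ hPx y ⟨hy1.le, hy2.le⟩
  have h2 := hSD α β _ hconc y hy1 hy2 _ hPy x ⟨hx1.le, hx2.le⟩
  have h3 : 0 ≤ ((∑ j, u j * Ex j + Dx * (s * r)) - (∑ j, u j * Ey j + Dy * (s * r))) * (y - x) := by
    have e : ((∑ j, u j * Ex j + Dx * (s * r)) - (∑ j, u j * Ey j + Dy * (s * r))) * (y - x) =
      (∑ j, u j * Ex j + Dx * (s * r)) * (y - x) + (∑ j, u j * Ey j + Dy * (s * r)) * (x - y) := by ring
    rw [e]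
    linarith
  have h4 : 0 ≤ (∑ j, u j * Ex j + Dx * (s * r)) - (∑ j, u j * Ey j + Dy * (s * r)) :=
    nonneg_of_mul_nonneg_left h3 (sub_pos.2 hxy)
  have h5 : ∑ j, u j * Ey j - ∑ j, u j * Ex j = ∑ j, u j ^ 2 := by
    rw [← Finset.sum_sub_distrib]
    exact Finset.sum_congr rfl fun j _ => by rw [hu]; ring
  have h6 : s ^ 2 ≤ s * (r * (Dx - Dy)) := by
    rw [hs2, ← h5]
    linarith
  change ∑ j, u j ^ 2 ≤ r ^ 2 * (Dx - Dy) ^ 2
  rw [← hs2, ← mul_pow]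
  rcases hs0.eq_or_lt with h0 | h0
  · rw [← h0, zero_pow two_ne_zero]
    positivity
  · have h7 : s ≤ r * (Dx - Dy) := by
      rw [sq] at h6
      exact le_of_mul_le_mul_left h6 h0
    exact pow_le_pow_left₀ hs0 h7 2

end SL7

open SL7

theorem t_SL7 (hCV : S_CV7) (hSD : S_SD7) : S_SL7 := by
  intro k α β H φ ψ L hφ hL hC r x y Dx Dy Ex Ey hr hLr hx1 hx2 hy1 hy2 hDx hDy hEx hEy
  rcases lt_trichotomy x y with h | h | h
  · have h1 := main hCV hSD k α β H φ ψ L hφ hL hC r x y Dx Dy Ex Ey hr hLr hx1 hx2 hy1 hy2 hDx hDy hEx hEy h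
    calc ∑ j, (Ex j - Ey j) ^ 2 = ∑ j, (Ey j - Ex j) ^ 2 := Finset.sum_congr rfl fun j _ => by ring
      _ ≤ _ := h1
  · subst h
    have hE : ∀ j, Ex j = Ey j := fun j => (uniqueDiffWithinAt_Ioi x).eq_deriv _ (hEx j) (hEy j)
    have e : ∑ j, (Ex j - Ey j) ^ 2 = 0 := Finset.sum_eq_zero fun j _ => by rw [hE j]; ring
    rw [e]
    positivity
  · have h1 := main hCV hSD k α β H φ ψ L hφ hL hC r y x Dy Dx Ey Ex hr hLr hy1 hy2 hx1 hx2 hDy hDx hEy hEx h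
    calc ∑ j, (Ex j - Ey j) ^ 2 ≤ r ^ 2 * (Dy - Dx) ^ 2 := h1
      _ = r ^ 2 * (Dx - Dy) ^ 2 := by ring

end Pool.Agent.T2h95.OF
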