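import Pool.Agent.T2h95.OF.Stm

/-! # SY7: symmetric functions on `K5` -/

set_option autoImplicit false

namespace Pool.Agent.T2h95.OF

open MeasureTheory Set Filter Topology
open scoped ENNReal InnerProductSpace
open Pool.Agent.R972.OP (pd)
open Pool.Agent.T2h95.OC
open Pool.Agent.T2h95.OD

namespace SY7x

theorem Ln_eq {n k : ℕ} (L : Set (Fin k → ℝ)) : Ln n L = Set.pi univ fun _ => L := by
  ext v
  simp [Ln]

theorem Ln_meas {n k : ℕ} {L : Set (Fin k → ℝ)} (hL : LB L) : MeasurableSet (Ln n L) := by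
  rw [Ln_eq]
  exact MeasurableSet.univ_pi fun _ => hL.comp.measurableSet

theorem Ln_vol {n k : ℕ} {L : Set (Fin k → ℝ)} (hL : LB L) :
    0 < (volume (Ln n L)).toReal := by
  rw [Ln_eq, volume_pi_pi, ENNReal.toReal_prod]
  exact Finset.prod_pos fun _ _ => ENNReal.toReal_pos hL.pos.ne' hL.comp.measure_lt_top.ne

/-- permutation invariance of the integral over `L^n` -/
theorem perm {n k : ℕ} {L : Set (Fin k → ℝ)} (hL : LB L) (p : Equiv.Perm (Fin n))
    (φ : (Fin n → Fin k → ℝ) → ℝ) : ∫ v in Ln n L, φ v = ∫ v in Ln n L, φ fun i => v (p i) := by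
  have hmp := volume_measurePreserving_piCongrLeft (fun _ : Fin n => Fin k → ℝ) p.symm
  have he : ∀ v : Fin n → Fin k → ℝ,
      MeasurableEquiv.piCongrLeft (fun _ : Fin n => Fin k → ℝ) p.symm v = fun i => v (p i) := by
    intro v
    funext i
    have := MeasurableEquiv.piCongrLeft_apply_apply (β := fun _ : Fin n => Fin k → ℝ) p.symm v (p i)
    simpa using this
  have h := hmp.setIntegral_preimage_emb
    (MeasurableEquiv.piCongrLeft (fun _ : Fin n => Fin k → ℝ) p.symm).measurableEmbedding φ (Ln n L)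
  rw [← h]
  have hpre : (MeasurableEquiv.piCongrLeft (fun _ : Fin n => Fin k → ℝ) p.symm) ⁻¹' (Ln n L) =
      Ln n L := by
    ext v
    simp only [mem_preimage, he]
    constructor
    · intro hv i
      have := hv (p.symm i)
      simpa using this
    · intro hv i
      exact hv (p i)
  rw [hpre]
  refine setIntegral_congr_fun (Ln_meas hL) fun v _ => ?_
  rw [he]

end SY7x

theorem t_SY7 (h1 : S_SYV) (h2 : S_QFE) (_h3 : S_WP5) (h4 : S_LD5) (h5 : S_LC) (h6 : S_FU7)
    (h7 : S_FC7) (h8 : S_IN5) : S_SY7 := by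
  intro α β H φ k ψ L hk hP hL hψ n R G hG hsym
  obtain ⟨hA, hlcd⟩ := h4 α β H φ k hP
  obtain ⟨hpr, hna, -, hwp⟩ := h5 _ hlcd
  have hε : ∀ m : ℕ, ∃ q : ℝ → ℝ, QF (law (r5 α β k φ)) (1 / ((m : ℝ) + 3)) q := by
    intro m
    refine h2 _ _ hwp _ (by positivity) ?_
    have : (0 : ℝ) ≤ m := Nat.cast_nonneg m
    rw [div_lt_div_iff₀ (by positivity) (by norm_num)]
    linarith
  choose q hq using hε
  have hfG : Continuous (f7 ψ φ L G) := h7 n k ψ φ L G hL hψ hP.cont hG
  have hfs : ∀ (p : Equiv.Perm (Fin n)) (x : Fin n → ℝ),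
      f7 ψ φ L G (fun i => x (p i)) = f7 ψ φ L G x := by
    intro p x
    unfold f7
    rw [SY7x.perm hL p]
    congr 1
    refine setIntegral_congr_fun (SY7x.Ln_meas hL) fun v _ => ?_
    have := hsym p (x, s7 ψ φ x v)
    rw [← this]
    rfl
  have hv := h1 (law (r5 α β k φ)) q hq n R (f7 ψ φ L G) hfG (h8 α β H φ k hP n _ hfG) hfs
  -- volume
  have hvol : (volume (K5 (D7 α β ψ φ L) R)).toReal =
      (A5 α β k φ * (volume L).toReal) ^ n * (pw n (law (r5 α β k φ)) (CR R)).toReal := by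
    have e1 := h6 α β H φ k ψ L hk hP hL hψ n R (fun _ => (1 : ℝ)) continuous_const
    have e2 : f7 ψ φ L (fun _ : (Fin n → ℝ) × (Fin n → Fin k → ℝ) => (1 : ℝ)) = fun _ => 1 := by
      funext x
      unfold f7
      have e3 := SY7x.Ln_vol (n := n) hL
      rw [setIntegral_const, smul_eq_mul, mul_one]
      exact div_self e3.ne'
    rw [e2] at e1
    simpa [Measure.real] using e1
  rw [hvol, h6 α β H φ k ψ L hk hP hL hψ n R G hG, hv]
  ring

end Pool.Agent.T2h95.OF
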