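import Pool.Agent.T2h95.OF.Stm
import Pool.Agent.T2h95.OD.TH5

/-!
# The theorem (task TH7 of project OF)
-/

set_option autoImplicit false

namespace Pool.Agent.T2h95.OF

open MeasureTheory Set Filter Topology
open scoped ENNReal InnerProductSpace
open Pool.Agent.T2h95.OC
open Pool.Agent.T2h95.OD
open Pool.Agent.T2h95.OD.TH5A
open Pool.Agent.W695.KH (VV EV)

namespace TH7A

variable {n k : ℕ}

theorem K5_image7 (D : Set (ℝ × (Fin k → ℝ))) (R : Fin n → Fin n → Prop) :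
    K5 D R = pinv '' KE7 D R := by
  ext p
  constructor
  · rintro ⟨h1, h2⟩
    exact ⟨pe p, ⟨fun i => h2 i, fun i j hij => h1 i j hij⟩, rfl⟩
  · rintro ⟨y, ⟨h1, h2⟩, rfl⟩
    exact ⟨fun i j hij => h2 i j hij, fun i => h1 i⟩

/-- Cauchy-Schwarz -/
theorem cs (X : ℝ) (w Z : Fin k → ℝ) :
    (X + ∑ j, w j * Z j) ^ 2 ≤ (1 + ∑ j, w j ^ 2) * (X ^ 2 + ∑ j, Z j ^ 2) := by
  have h := Finset.sum_mul_sq_le_sq_mul_sq Finset.univ (Fin.cons 1 w : Fin (k + 1) → ℝ)
    (Fin.cons X Z : Fin (k + 1) → ℝ)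
  simpa [Fin.sum_univ_succ] using h

section

variable {α β H lam : ℝ} {φ : ℝ → ℝ} {ψ : ℝ → Fin k → ℝ}
  {L : Set (EuclideanSpace ℝ (Fin k))} {R : Fin n → Fin n → Prop}

/-- the lower bound for the variance -/
theorem lower7 (hSY : S_SY7) (hLI : S_LI7) (hEU : S_EU7) (hk : 1 ≤ k) (hn : 1 ≤ n)
    (hP : HB α β H φ) (hL : LB (crd k L)) (hψ : Continuous ψ)
    (hcomp : IsCompact (KE7 (D7 α β ψ φ (crd k L)) R))
    (hpos : 0 < volume (KE7 (D7 α β ψ φ (crd k L)) R)) (a₀ : ℝ) (u : Fin k → ℝ) (m : ℝ) :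
    ProbabilityTheory.variance (fun x : ℝ => a₀ * x + ∑ j, u j * ψ x j) (law (r5 α β k φ)) +
      H ^ 2 / 4 * EL (crd k L) (fun v => (∑ j, u j * v j) ^ 2) ≤
    EV (KE7 (D7 α β ψ φ (crd k L)) R) fun x => (⟪th n a₀ u, x⟫_ℝ - m) ^ 2 := by
  have hn0 : (0 : ℝ) < n := by exact_mod_cast hn
  obtain ⟨e1, e2⟩ := hEU n k (D7 α β ψ φ (crd k L)) R
  set G : (Fin n → ℝ) × (Fin n → Fin k → ℝ) → ℝ := fun p =>
    (∑ i, (a₀ * p.1 i + ∑ j, u j * p.2 i j) - √n * m) ^ 2 with hG
  have hGc : Continuous G := by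
    rw [hG]
    fun_prop
  have hGs : ∀ (σ : Equiv.Perm (Fin n)) (z : (Fin n → ℝ) × (Fin n → Fin k → ℝ)),
      G (fun i => z.1 (σ i), fun i => z.2 (σ i)) = G z := by
    intro σ z
    simp only [hG]
    rw [Equiv.sum_comp σ (fun i => a₀ * z.1 i + ∑ j, u j * z.2 i j)]
  have hsy := hSY α β H φ k ψ (crd k L) hk hP hL hψ n R G hGc hGs
  have hli := hLI α β H φ k ψ u (crd k L) a₀ (√n * m) n hk hP hL hψ
  set V : ℝ := (volume (K5 (D7 α β ψ φ (crd k L)) R)).toReal with hV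
  have hVpos : 0 < V := by
    rw [hV, ← e1]
    exact ENNReal.toReal_pos hpos.ne' hcomp.measure_lt_top.ne
  have hsc : ∀ q : (Fin n → ℝ) × (Fin n → Fin k → ℝ), (⟪th n a₀ u, pe q⟫_ℝ - m) ^ 2 =
      (n : ℝ)⁻¹ * G q := by
    intro q
    rw [inner_th]
    simp only [hG]
    have hs : (√(n : ℝ)) ^ 2 = n := Real.sq_sqrt hn0.le
    have hs0 : √(n : ℝ) ≠ 0 := (Real.sqrt_pos.2 hn0).ne'
    have e3 : (√(n : ℝ))⁻¹ * ∑ i, (a₀ * q.1 i + ∑ j, u j * q.2 i j) - m =
        (√(n : ℝ))⁻¹ * (∑ i, (a₀ * q.1 i + ∑ j, u j * q.2 i j) - √n * m) := by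
      field_simp
    rw [e3, mul_pow, inv_pow, hs]
  have hEV : (EV (KE7 (D7 α β ψ φ (crd k L)) R) fun x => (⟪th n a₀ u, x⟫_ℝ - m) ^ 2) =
      (n : ℝ)⁻¹ * ∫ x, f7 ψ φ (crd k L) G x ∂pw n (law (r5 α β k φ)) := by
    unfold EV
    rw [e1, e2, ← hV]
    simp only [hsc]
    rw [integral_const_mul, hsy]
    field_simp
  rw [hEV]
  calc ProbabilityTheory.variance (fun x : ℝ => a₀ * x + ∑ j, u j * ψ x j) (law (r5 α β k φ)) +
      H ^ 2 / 4 * EL (crd k L) (fun v => (∑ j, u j * v j) ^ 2) =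
      (n : ℝ)⁻¹ * (n * (ProbabilityTheory.variance (fun x : ℝ => a₀ * x + ∑ j, u j * ψ x j)
        (law (r5 α β k φ)) + H ^ 2 / 4 * EL (crd k L) (fun v => (∑ j, u j * v j) ^ 2))) := by
        field_simp
    _ ≤ _ := mul_le_mul_of_nonneg_left hli (inv_nonneg.2 hn0.le)

/-- the Poincare inequality -/
theorem poincare7 (hPO : S_PO7) (hEU : S_EU7) (hGR : S_GR5) (hk : 1 ≤ k)
    (hP : HB α β H φ) (hL : LB (crd k L)) (hψ : Continuous ψ) (hPL : PL (crd k L) lam)
    (hlam : 0 ≤ lam) (w : Fin k → ℝ) (hIW : IW α β H φ ψ (crd k L) lam w)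
    (hcomp : IsCompact (KE7 (D7 α β ψ φ (crd k L)) R))
    (hpos : 0 < volume (KE7 (D7 α β ψ φ (crd k L)) R))
    (Cp : ℝ) (hV0 : 0 ≤ V5 α β k φ)
    (hCp : 96 * V5 α β k φ * (1 + ∑ j, w j ^ 2) + 217 * lam * H ^ 2 ≤ Cp)
    (v : EuclideanSpace ℝ (Fin n ⊕ Fin n × Fin k) → ℝ) (hv : ContDiff ℝ 1 v) :
    VV (KE7 (D7 α β ψ φ (crd k L)) R) v ≤
      Cp * EV (KE7 (D7 α β ψ φ (crd k L)) R) fun x => ‖fderiv ℝ v x‖ ^ 2 := by
  obtain ⟨e1, e2⟩ := hEU n k (D7 α β ψ φ (crd k L)) R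
  obtain ⟨g1, g2⟩ := hGR n k v hv
  set f : (Fin n → ℝ) × (Fin n → Fin k → ℝ) → ℝ := fun p => v (pe p) with hf
  have hpoi := hPO α β H φ k ψ (crd k L) lam w hk hP hL hψ hPL hlam hIW n R f g1
  set K := K5 (D7 α β ψ φ (crd k L)) R with hK
  have hKc : IsCompact K := by
    rw [hK, K5_image7]
    exact hcomp.image continuous_pinv
  set V : ℝ := (volume K).toReal with hV
  have hVpos : 0 < V := by
    rw [hV, ← e1]
    exact ENNReal.toReal_pos hpos.ne' hcomp.measure_lt_top.ne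
  have hdX : ∀ i : Fin n, Continuous (eX f i) := fun i =>
    (g1.continuous_fderiv (by norm_num)).clm_apply continuous_const
  have hdZ : ∀ (i : Fin n) (j : Fin k), Continuous (eZ f i j) := fun i j =>
    (g1.continuous_fderiv (by norm_num)).clm_apply continuous_const
  have hW : (0 : ℝ) ≤ ∑ j, w j ^ 2 := Finset.sum_nonneg fun j _ => sq_nonneg _
  have hVW : 0 ≤ 96 * V5 α β k φ * (1 + ∑ j, w j ^ 2) := by positivity
  have hlH : 0 ≤ 217 * lam * H ^ 2 := by positivity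
  have hG7 : ∀ p, G7 217 (V5 α β k φ) lam H w f p =
      ∑ i, (96 * V5 α β k φ * (eX f i p + ∑ j, w j * eZ f i j p) ^ 2 +
        217 * lam * H ^ 2 * ∑ j, eZ f i j p ^ 2) := fun p => rfl
  have hle : ∫ p in K, G7 217 (V5 α β k φ) lam H w f p ≤
      ∫ p in K, Cp * ‖fderiv ℝ v (pe p)‖ ^ 2 := by
    have hR : (fun p : (Fin n → ℝ) × (Fin n → Fin k → ℝ) => Cp * ‖fderiv ℝ v (pe p)‖ ^ 2) =
        fun p => Cp * ∑ i, (eX f i p ^ 2 + ∑ j, eZ f i j p ^ 2) := by
      funext p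
      rw [g2 p]
    rw [hR]
    simp only [hG7]
    refine integral_mono ?_ ?_ ?_
    · exact (Continuous.continuousOn (by fun_prop)).integrableOn_compact hKc
    · exact (Continuous.continuousOn (by fun_prop)).integrableOn_compact hKc
    · intro p
      show ∑ i, (96 * V5 α β k φ * (eX f i p + ∑ j, w j * eZ f i j p) ^ 2 +
        217 * lam * H ^ 2 * ∑ j, eZ f i j p ^ 2) ≤
        Cp * ∑ i, (eX f i p ^ 2 + ∑ j, eZ f i j p ^ 2)
      rw [Finset.mul_sum Finset.univ (fun i => eX f i p ^ 2 + ∑ j, eZ f i j p ^ 2) Cp]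
      refine Finset.sum_le_sum fun i _ => ?_
      have hq : 0 ≤ ∑ j, eZ f i j p ^ 2 := Finset.sum_nonneg fun j _ => sq_nonneg _
      have i1 : 96 * V5 α β k φ * (eX f i p + ∑ j, w j * eZ f i j p) ^ 2 ≤
          96 * V5 α β k φ * ((1 + ∑ j, w j ^ 2) * (eX f i p ^ 2 + ∑ j, eZ f i j p ^ 2)) :=
        mul_le_mul_of_nonneg_left (cs _ _ _) (by positivity)
      have i2 : 217 * lam * H ^ 2 * ∑ j, eZ f i j p ^ 2 ≤
          217 * lam * H ^ 2 * (eX f i p ^ 2 + ∑ j, eZ f i j p ^ 2) :=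
        mul_le_mul_of_nonneg_left (by linarith [sq_nonneg (eX f i p)]) hlH
      have i3 := mul_le_mul_of_nonneg_right hCp
        (add_nonneg (sq_nonneg (eX f i p)) hq)
      linarith
  have hfin : V * (∫ p in K, f p ^ 2) - (∫ p in K, f p) ^ 2 ≤
      V * (Cp * ∫ p in K, ‖fderiv ℝ v (pe p)‖ ^ 2) := by
    rw [← integral_const_mul Cp]
    exact hpoi.trans (mul_le_mul_of_nonneg_left hle hVpos.le)
  unfold VV EV
  rw [e1, e2, e2, e2, ← hV]
  change (∫ p in K, f p ^ 2) / V - ((∫ p in K, f p) / V) ^ 2 ≤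
    Cp * ((∫ p in K, ‖fderiv ℝ v (pe p)‖ ^ 2) / V)
  have hV2 : 0 < V ^ 2 := by positivity
  have e3 : (∫ p in K, f p ^ 2) / V - ((∫ p in K, f p) / V) ^ 2 =
      (V * (∫ p in K, f p ^ 2) - (∫ p in K, f p) ^ 2) / V ^ 2 := by
    field_simp
  have e4 : Cp * ((∫ p in K, ‖fderiv ℝ v (pe p)‖ ^ 2) / V) =
      (V * (Cp * ∫ p in K, ‖fderiv ℝ v (pe p)‖ ^ 2)) / V ^ 2 := by
    field_simp
  rw [e3, e4]
  exact div_le_div_of_nonneg_right hfin hV2.le

end

/-- `Var (X - Y) ≤ 2 Var X + 2 Var Y` -/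
theorem var_sub_le {μ : Measure ℝ} [IsProbabilityMeasure μ] {X Y : ℝ → ℝ} (hX : MemLp X 2 μ)
    (hY : MemLp Y 2 μ) : ProbabilityTheory.variance (fun x => X x - Y x) μ ≤
      2 * ProbabilityTheory.variance X μ + 2 * ProbabilityTheory.variance Y μ := by
  have h1 := ProbabilityTheory.variance_fun_sub hX hY
  have h2 := ProbabilityTheory.variance_fun_add hX hY
  have h3 : 0 ≤ ProbabilityTheory.variance (fun x => X x + Y x) μ :=
    ProbabilityTheory.variance_nonneg _ _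
  linarith

/-- continuous functions are square integrable -/
theorem memLp_cont (hLD : S_LD5) (hLC : S_LC) (hIN : S_IN5) {α β H : ℝ} {φ : ℝ → ℝ} (k : ℕ)
    (hP : HB α β H φ) {g : ℝ → ℝ} (hg : Continuous g) : MemLp g 2 (law (r5 α β k φ)) := by
  haveI : IsProbabilityMeasure (law (r5 α β k φ)) := (hLC _ (hLD α β H φ k hP).2).1
  rw [memLp_two_iff_integrable_sq hg.aestronglyMeasurable]
  have h1 := hIN α β H φ k hP 1 (fun x => g (x 0) ^ 2) (by fun_prop)
  have h2 := measurePreserving_eval (fun _ : Fin 1 => law (r5 α β k φ)) 0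
  exact (h2.integrable_comp (g := fun t => g t ^ 2) (hg.pow 2).aestronglyMeasurable).1 h1

end TH7A

open TH7A in
theorem t_TH7 (hDB : S_DB7) (hLC7 : S_LC7) (hPO : S_PO7) (hLW : S_LW7) (hSY : S_SY7)
    (hLI : S_LI7) (hEU : S_EU7) (hGR : S_GR5) (hCB : S_CB5) (hGE : S_GE7) (hCH : S_CH5)
    (_hFU : S_FU7) (_hFC : S_FC7) (hIN : S_IN5) (hLD : S_LD5) (hLC : S_LC) : S_TH7 := by
  obtain ⟨c, hc, hch⟩ := hCH
  refine ⟨c / √167044, by positivity, ?_⟩
  intro n k κ θ₀ L D R hn hk hL hθ hPoi hDc hDv hDi hHom hR1 hR2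
  obtain ⟨hLB, hPLl, hVar⟩ := hCB k L hL
  obtain ⟨α, β, H, φ, ψ, hP, hCC, rfl⟩ := hDB k (crd k L) D hk hLB hDc hDv hDi hHom
  obtain ⟨k1, k2, k3⟩ := hGE n k _ R hDc hDv hDi hR1 hR2
  have hpos : 0 < volume (KE7 (D7 α β ψ φ (crd k L)) R) :=
    (isOpen_interior.measure_pos volume k3).trans_le (measure_mono interior_subset)
  -- the variance of `θ₀`
  have hLpos : 0 < (volume L).toReal := by
    refine ENNReal.toReal_pos ?_ hL.comp.measure_lt_top.ne
    exact ((isOpen_interior.measure_pos volume hL.int).trans_le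
      (measure_mono interior_subset)).ne'
  have hVpos : 0 < VV L (fun x => ⟪θ₀, x⟫_ℝ) := by
    have h1 := var_pos hL θ₀ hθ
    have h2 : ∫ x in L, ⟪θ₀, x⟫_ℝ = 0 := by
      have hid : IntegrableOn (fun x : EuclideanSpace ℝ (Fin k) => x) L volume :=
        continuous_id.continuousOn.integrableOn_compact hL.comp
      have := ContinuousLinearMap.integral_comp_comm (innerSL ℝ θ₀) hid
      simp only [innerSL_apply_apply] at this
      rw [this, hL.cen, inner_zero_right]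
    unfold VV EV
    rw [h2, zero_div, zero_pow two_ne_zero, sub_zero]
    exact div_pos h1 hLpos
  have hκ : 1 ≤ κ := by
    have h1 := hPoi (fun x => ⟪θ₀, x⟫_ℝ) (contDiff_const.inner ℝ contDiff_id)
    have h2 : ∀ x : EuclideanSpace ℝ (Fin k), ‖fderiv ℝ (fun x => ⟪θ₀, x⟫_ℝ) x‖ ^ 2 = 1 := by
      intro x
      have : (fun x => ⟪θ₀, x⟫_ℝ) = (innerSL ℝ θ₀ : EuclideanSpace ℝ (Fin k) → ℝ) := by
        ext x
        rw [innerSL_apply_apply]
      rw [this, ContinuousLinearMap.fderiv, innerSL_apply_norm, hθ, one_pow]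
    have h3 : EV L (fun x => ‖fderiv ℝ (fun x => ⟪θ₀, x⟫_ℝ) x‖ ^ 2) = 1 := by
      unfold EV
      simp only [h2]
      rw [setIntegral_const, smul_eq_mul, mul_one, Measure.real, div_self hLpos.ne']
    rw [h3, mul_one] at h1
    by_contra h4
    push Not at h4
    nlinarith
  have hκ0 : 0 < κ := by linarith
  set S : ℝ := VV L (fun x => ⟪θ₀, x⟫_ℝ) with hS
  set lam : ℝ := κ * S with hlam
  have hlam0 : 0 < lam := by positivity
  have hPL : PL (crd k L) lam := hPLl lam hPoi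
  obtain ⟨w, hIW⟩ := hLC7 α β H φ k ψ (crd k L) lam hk hP hLB hCC hPL hlam0.le
  haveI : IsProbabilityMeasure (law (r5 α β k φ)) := (hLC _ (hLD α β H φ k hP).2).1
  have hV0 : 0 ≤ V5 α β k φ := ProbabilityTheory.variance_nonneg _ _
  have hH := hP.hpos
  set V := V5 α β k φ with hV
  set W : ℝ := ∑ j, w j ^ 2 with hW
  have hW0 : 0 ≤ W := Finset.sum_nonneg fun j _ => sq_nonneg _
  set Cp : ℝ := 96 * V * (1 + W) + 217 * lam * H ^ 2 with hCp
  have hCp0 : 0 < Cp := by positivity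
  have hfin : c / √167044 / √κ = c / √(167044 * κ) := by
    rw [Real.sqrt_mul (by norm_num), div_div]
  rw [hfin]
  have hEL0 : ∀ u : Fin k → ℝ, 0 ≤ H ^ 2 / 4 * EL (crd k L) (fun v => (∑ j, u j * v j) ^ 2) := by
    intro u
    unfold EL
    exact mul_nonneg (by positivity)
      (div_nonneg (integral_nonneg fun v => sq_nonneg _) ENNReal.toReal_nonneg)
  have hVr0 : ∀ (a₀ : ℝ) (u : Fin k → ℝ), 0 ≤ ProbabilityTheory.variance
      (fun x : ℝ => a₀ * x + ∑ j, u j * ψ x j) (law (r5 α β k φ)) :=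
    fun _ _ => ProbabilityTheory.variance_nonneg _ _
  have key : ∀ (a₀ : ℝ) (u : Fin k → ℝ), a₀ ^ 2 + ∑ j, u j ^ 2 = 1 →
      Cp ≤ 167044 * κ * (ProbabilityTheory.variance (fun x : ℝ => a₀ * x + ∑ j, u j * ψ x j)
        (law (r5 α β k φ)) + H ^ 2 / 4 * EL (crd k L) (fun v => (∑ j, u j * v j) ^ 2)) →
      KLSg (c / √(167044 * κ)) (KE7 (D7 α β ψ φ (crd k L)) R) := by
    intro a₀ u hu hle
    refine hch (167044 * κ) (by positivity) _ (KE7 (D7 α β ψ φ (crd k L)) R) k1 k2 k3 Cp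
      (th n a₀ u) hCp0 (norm_th hn a₀ u hu)
      (fun v hv => poincare7 hPO hEU hGR hk hP hLB hCC.cont hPL hlam0.le w hIW k1 hpos Cp hV0
        le_rfl v hv) ?_
    intro m
    exact hle.trans (mul_le_mul_of_nonneg_left
      (lower7 hSY hLI hEU hk hn hP hLB hCC.cont k1 hpos a₀ u m) (by positivity))
  set A : ℝ := H ^ 2 / 4 * S with hA
  have hA0 : 0 < A := by positivity
  have hlH : lam * H ^ 2 = 4 * (κ * A) := by
    rw [hlam, hA]
    ring
  -- the three choices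
  have key1 : Cp ≤ 167044 * κ * V → KLSg (c / √(167044 * κ)) (KE7 (D7 α β ψ φ (crd k L)) R) := by
    intro h
    refine key 1 0 (by simp) (h.trans ?_)
    refine mul_le_mul_of_nonneg_left ?_ (by positivity)
    have e1 : ProbabilityTheory.variance (fun x : ℝ => 1 * x + ∑ j, (0 : Fin k → ℝ) j * ψ x j)
        (law (r5 α β k φ)) = V := by
      rw [hV]
      unfold V5
      congr 1
      funext x
      simp
    rw [e1]
    linarith [hEL0 0]
  have key2 : Cp ≤ 167044 * κ * A → KLSg (c / √(167044 * κ)) (KE7 (D7 α β ψ φ (crd k L)) R) := by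
    intro h
    refine key 0 (fun j => θ₀ j) ?_ (h.trans ?_)
    · rw [EuclideanSpace.norm_eq] at hθ
      have h3 : ∑ j, θ₀ j ^ 2 = 1 := by
        have h4 := Real.sqrt_eq_one.1 hθ
        simpa [Real.norm_eq_abs, sq_abs] using h4
      rw [h3]
      norm_num
    · refine mul_le_mul_of_nonneg_left ?_ (by positivity)
      rw [← hVar θ₀, ← hS, ← hA]
      linarith [hVr0 0 (fun j => θ₀ j)]
  have hκA : A ≤ κ * A := le_mul_of_one_le_left hA0.le hκ
  have hκV : V ≤ κ * V := le_mul_of_one_le_left hV0 hκ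
  rcases hW0.lt_or_eq with hWp | hW00
  · have hsW : 0 < √W := Real.sqrt_pos.2 hWp
    have hsW2 : (√W) ^ 2 = W := Real.sq_sqrt hW0
    set u : Fin k → ℝ := fun j => (√W)⁻¹ * w j with hu
    have hu1 : ∑ j, u j ^ 2 = 1 := by
      simp only [hu, mul_pow]
      rw [← Finset.mul_sum, ← hW, inv_pow, hsW2, inv_mul_cancel₀ hWp.ne']
    have hu2 : ∑ j, u j * w j = √W := by
      have : ∑ j, u j * w j = (√W)⁻¹ * W := by
        rw [hW, Finset.mul_sum]
        refine Finset.sum_congr rfl fun j _ => ?_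
        simp only [hu]
        ring
      rw [this]
      nth_rewrite 2 [← hsW2]
      field_simp
    set M2 : ℝ := ProbabilityTheory.variance (fun x : ℝ => 0 * x + ∑ j, u j * ψ x j)
      (law (r5 α β k φ)) with hM2
    have hM20 : 0 ≤ M2 := hVr0 0 u
    have hWV : W * V ≤ 2 * M2 + 1728 * (κ * A) := by
      have h1 := hLW α β H φ k ψ (crd k L) lam w hk hP hLB hCC.cont hlam0.le hIW u
      rw [hu1, hu2, mul_one] at h1
      have hc1 : Continuous fun x : ℝ => 0 * x + ∑ j, u j * ψ x j := by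
        have := hCC.cont
        fun_prop
      have hc2 : Continuous fun x : ℝ => ∑ j, u j * ψ x j - √W * x := by
        have := hCC.cont
        fun_prop
      have h2 := var_sub_le (memLp_cont hLD hLC hIN k hP hc1) (memLp_cont hLD hLC hIN k hP hc2)
      have h3 : (fun x : ℝ => (0 * x + ∑ j, u j * ψ x j) - (∑ j, u j * ψ x j - √W * x)) =
          fun x : ℝ => √W * x := by
        funext x
        ring
      rw [h3] at h2
      have h4 : ProbabilityTheory.variance (fun x : ℝ => √W * x) (law (r5 α β k φ)) = W * V := by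
        rw [ProbabilityTheory.variance_const_mul, hsW2]
        rfl
      rw [h4] at h2
      have h5 : 216 * lam * H ^ 2 = 864 * (κ * A) := by
        calc 216 * lam * H ^ 2 = 216 * (lam * H ^ 2) := by ring
          _ = 864 * (κ * A) := by rw [hlH]; ring
      linarith
    have hCpb : Cp ≤ 96 * V + 192 * M2 + 166756 * (κ * A) := by
      have : Cp = 96 * V + 96 * (W * V) + 217 * (lam * H ^ 2) := by
        rw [hCp]
        ring
      rw [this, hlH]
      linarith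
    have hκM : M2 ≤ κ * M2 := le_mul_of_one_le_left hM20 hκ
    have key3 : Cp ≤ 167044 * κ * M2 →
        KLSg (c / √(167044 * κ)) (KE7 (D7 α β ψ φ (crd k L)) R) := by
      intro h
      refine key 0 u (by rw [hu1]; norm_num) (h.trans ?_)
      refine mul_le_mul_of_nonneg_left ?_ (by positivity)
      linarith [hEL0 u]
    rcases le_total M2 V with h1 | h1
    · rcases le_total A V with h2 | h2
      · refine key1 ?_
        have h3 := mul_le_mul_of_nonneg_left h2 hκ0.le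
        have h4 : 167044 * κ * V = 167044 * (κ * V) := by ring
        linarith
      · refine key2 ?_
        have h3 := mul_le_mul_of_nonneg_left h2 hκ0.le
        have h4 : 167044 * κ * A = 167044 * (κ * A) := by ring
        linarith
    · rcases le_total A M2 with h2 | h2
      · refine key3 ?_
        have h3 := mul_le_mul_of_nonneg_left h2 hκ0.le
        have h4 : 167044 * κ * M2 = 167044 * (κ * M2) := by ring
        linarith
      · refine key2 ?_
        have h3 := mul_le_mul_of_nonneg_left h2 hκ0.le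
        have h4 : 167044 * κ * A = 167044 * (κ * A) := by ring
        linarith
  · have hCpb : Cp = 96 * V + 868 * (κ * A) := by
      have : Cp = 96 * V + 96 * (W * V) + 217 * (lam * H ^ 2) := by
        rw [hCp]
        ring
      rw [this, hlH, ← hW00]
      ring
    rcases le_total A V with h2 | h2
    · refine key1 ?_
      have h3 := mul_le_mul_of_nonneg_left h2 hκ0.le
      have h4 : 167044 * κ * V = 167044 * (κ * V) := by ring
      linarith
    · refine key2 ?_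
      have h3 := mul_le_mul_of_nonneg_left h2 hκ0.le
      have h4 : 167044 * κ * A = 167044 * (κ * A) := by ring
      linarith

end Pool.Agent.T2h95.OF
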