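import Pool.Agent.T2h95.OF.Stm

/-!
# Project OF: task TR7
-/

set_option autoImplicit false

namespace Pool.Agent.T2h95.OF

open MeasureTheory Set Filter Topology
open scoped ENNReal InnerProductSpace
open Pool.Agent.T2h95.OC
open Pool.Agent.T2h95.OD

namespace TR7

variable {k : ℕ}

theorem image_eq (L : Set (EuclideanSpace ℝ (Fin k))) (b : EuclideanSpace ℝ (Fin k)) :
    (fun v => v - b) '' L = (fun v => v + b) ⁻¹' L := by
  ext x
  constructor
  · rintro ⟨v, hv, rfl⟩
    show v - b + b ∈ L
    rwa [sub_add_cancel]
  · intro hx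
    exact ⟨x + b, hx, by simp⟩

theorem integral_translate {F : Type} [NormedAddCommGroup F] [NormedSpace ℝ F]
    {L : Set (EuclideanSpace ℝ (Fin k))} (hL : MeasurableSet L) (b : EuclideanSpace ℝ (Fin k))
    (f : EuclideanSpace ℝ (Fin k) → F) :
    ∫ x in (fun v => v - b) '' L, f x = ∫ x in L, f (x - b) := by
  have hm : MeasurableSet ((fun v => v - b) '' L) := by
    rw [TR7.image_eq]
    exact (measurable_id.add_const b) hL
  rw [← integral_indicator hm, ← integral_indicator hL,
    ← integral_add_right_eq_self (L.indicator fun x => f (x - b)) b]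
  refine integral_congr_ae (Eventually.of_forall fun x => ?_)
  have h1 : x ∈ (fun v => v - b) '' L ↔ x + b ∈ L := by
    rw [TR7.image_eq]
    exact Iff.rfl
  simp only
  by_cases hx : x + b ∈ L
  · rw [indicator_of_mem hx, indicator_of_mem (h1.2 hx), add_sub_cancel_right]
  · rw [indicator_of_notMem hx, indicator_of_notMem fun h => hx (h1.1 h)]

theorem volume_translate (L : Set (EuclideanSpace ℝ (Fin k))) (b : EuclideanSpace ℝ (Fin k)) :
    volume ((fun v => v - b) '' L) = volume L := by
  rw [TR7.image_eq]
  exact measure_preimage_add_right volume b L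

theorem ev_translate {L : Set (EuclideanSpace ℝ (Fin k))} (hL : MeasurableSet L)
    (b : EuclideanSpace ℝ (Fin k)) (f : EuclideanSpace ℝ (Fin k) → ℝ) :
    Pool.Agent.W695.KH.EV ((fun v => v - b) '' L) f =
      Pool.Agent.W695.KH.EV L (fun v => f (v - b)) := by
  unfold Pool.Agent.W695.KH.EV
  rw [integral_translate hL b f, volume_translate]

end TR7

open TR7 in
theorem t_TR7 : S_TR7 := by
  intro k L hc hcomp hint
  have hL := hcomp.measurableSet
  have hpos : 0 < (volume L).toReal :=
    ENNReal.toReal_pos ((isOpen_interior.measure_pos volume hint).trans_le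
      (measure_mono interior_subset)).ne' hcomp.measure_lt_top.ne
  set b : EuclideanSpace ℝ (Fin k) := ((volume L).toReal)⁻¹ • ∫ v in L, v with hb
  refine ⟨b, ⟨?_, ?_, ?_, ?_⟩, fun f => ⟨ev_translate hL b f, ?_⟩⟩
  · have := hc.translate (-b)
    have h1 : (fun v => v - b) '' L = (fun z => -b + z) '' L := by
      refine image_congr fun v _ => ?_
      abel
    rw [h1]
    exact this
  · exact hcomp.image (continuous_id.sub continuous_const)
  · rw [TR7.image_eq]
    have h1 : (fun v : EuclideanSpace ℝ (Fin k) => v + b) ⁻¹' interior L ⊆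
        interior ((fun v => v + b) ⁻¹' L) :=
      preimage_interior_subset_interior_preimage (continuous_id.add continuous_const)
    obtain ⟨y, hy⟩ := hint
    exact ⟨y - b, h1 (by show y - b + b ∈ interior L; rwa [sub_add_cancel])⟩
  · rw [integral_translate hL b (fun v => v)]
    have hi : IntegrableOn (fun v : EuclideanSpace ℝ (Fin k) => v) L :=
      continuous_id.continuousOn.integrableOn_compact hcomp
    have hi2 : IntegrableOn (fun _ : EuclideanSpace ℝ (Fin k) => b) L :=
      continuous_const.continuousOn.integrableOn_compact hcomp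
    rw [integral_sub hi hi2, setIntegral_const, hb, Measure.real, smul_smul,
      mul_inv_cancel₀ hpos.ne', one_smul, sub_self]
  · unfold Pool.Agent.W695.KH.VV
    rw [ev_translate hL b f, ev_translate hL b fun x => f x ^ 2]

end Pool.Agent.T2h95.OF
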