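import Pool.Agent.T2h95.OD.All2
import Pool.Agent.T2h95.OF.Fin
import Pool.Agent.T2h95.OF.BD7
import Pool.Agent.T2h95.OF.CV7
import Pool.Agent.T2h95.OF.DA7
import Pool.Agent.T2h95.OF.DB7
import Pool.Agent.T2h95.OF.EU7
import Pool.Agent.T2h95.OF.FA7
import Pool.Agent.T2h95.OF.FC7
import Pool.Agent.T2h95.OF.FL7
import Pool.Agent.T2h95.OF.FU7
import Pool.Agent.T2h95.OF.GD7
import Pool.Agent.T2h95.OF.GE7
import Pool.Agent.T2h95.OF.LC7
import Pool.Agent.T2h95.OF.LI7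
import Pool.Agent.T2h95.OF.LW7
import Pool.Agent.T2h95.OF.SD7
import Pool.Agent.T2h95.OF.SG7
import Pool.Agent.T2h95.OF.SL7
import Pool.Agent.T2h95.OF.SY7
import Pool.Agent.T2h95.OF.TH7
import Pool.Agent.T2h95.OF.TR7
import Pool.Agent.T2h95.OF.WP7

/-!
# Bodies with homothetic sections: the parts of the proof, put together
-/

set_option autoImplicit false

namespace Pool.Agent.T2h95.OF

open Pool.Agent.T2h95.OC
open Pool.Agent.T2h95.OD

theorem wp7_all : S_WP7 := t_WP7 t_LD5 t_MR5 t_TL5 t_MED t_MIL t_MAXD t_MM2 t_VLB t_HAR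

theorem sl7_all : S_SL7 := t_SL7 t_CV7 t_SD7

theorem fu7_all : S_FU7 := t_FU7 t_FA7 t_FUB2 t_LD5

theorem sy7_all : S_SY7 := t_SY7 syv_all t_QFE wp5_all t_LD5 lc_all fu7_all t_FC7 in5_all

theorem li7_all : S_LI7 := t_LI7 t_FL7 t_MO5 t_LD5 lc_all in5_all

theorem lw7_all : S_LW7 := t_LW7 t_LD5 lc_all in5_all t_FC7

theorem db7_all : S_DB7 := t_DB7 t_DA7

end Pool.Agent.T2h95.OF
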