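import Pool.Agent.T2h95.OD.Stm2

/-!
# Ordered tuples of points of a convex body with homothetic sections: statements (project OF)

`D ⊂ ℝ × ℝ^k` any convex body whose sections `{z | (x, z) ∈ D}` are homothetic to `L ⊂ ℝ^k`:
`D = {(x, z) | α ≤ x ≤ β, z ∈ ψ(x) + φ(x) L}`, where now the centres `ψ(x)` need not lie on a line
(project OD is the case `ψ(x) = x w`). For `k = 1` this is every planar convex body.

New point: the section over `x` has the support function `⟪ψ x, u⟫ + φ x h_L(u)`, which is concave in `x`, so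
the right derivatives satisfy `|ψ' x - ψ' y| ≤ r_L |φ' x - φ' y|` (`r_L` = radius of `L`). With
`w = ψ' m`, `m` the median of `ν`: `θ x |φ' m| ≤ θ m |φ' m| ≤ H/(k+1)`, so
`θ x |ψ' x - w| ≤ 2 r_L H/(k+1) ≤ 2 √3 √lam H`.
-/

set_option autoImplicit false

namespace Pool.Agent.T2h95.OF

open MeasureTheory Set Filter Topology
open scoped ENNReal InnerProductSpace
open Pool.Agent.R972.OP (pd)
open Pool.Agent.T2h95.OC
open Pool.Agent.T2h95.OD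

section

variable {n k : ℕ}

/-- one point -/
def D7 (α β : ℝ) (ψ : ℝ → Fin k → ℝ) (φ : ℝ → ℝ) (L : Set (Fin k → ℝ)) : Set (ℝ × (Fin k → ℝ)) :=
  {p | (α ≤ p.1 ∧ p.1 ≤ β) ∧ ∃ v ∈ L, ∀ j, p.2 j = ψ p.1 j + φ p.1 * v j}

/-- the curve `ψ` is continuous and `D7` is convex -/
structure CC (α β : ℝ) (φ : ℝ → ℝ) (ψ : ℝ → Fin k → ℝ) (L : Set (Fin k → ℝ)) : Prop where
  cont : Continuous ψ
  conv : Convex ℝ (D7 α β ψ φ L)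

/-- the point of the fibre with parameter `v` -/
noncomputable def s7 (ψ : ℝ → Fin k → ℝ) (φ : ℝ → ℝ) (x : Fin n → ℝ) (v : Fin n → Fin k → ℝ) :
    Fin n → Fin k → ℝ := fun i j => ψ (x i) j + φ (x i) * v i j

/-- mean over the fibre -/
noncomputable def f7 (ψ : ℝ → Fin k → ℝ) (φ : ℝ → ℝ) (L : Set (Fin k → ℝ))
    (F : (Fin n → ℝ) × (Fin n → Fin k → ℝ) → ℝ) (x : Fin n → ℝ) : ℝ :=
  (∫ v in Ln n L, F (x, s7 ψ φ x v)) / (volume (Ln n L)).toReal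

/-- derivative along the fibres: `E` = derivative of `ψ`, `D` = derivative of `φ` at `x_i` -/
noncomputable def e7 (f : (Fin n → ℝ) × (Fin n → Fin k → ℝ) → ℝ) (i : Fin n)
    (E : Fin k → ℝ) (D : ℝ) (v : Fin k → ℝ) (p : (Fin n → ℝ) × (Fin n → Fin k → ℝ)) : ℝ :=
  eX f i p + ∑ j, (E j + D * v j) * eZ f i j p

/-- energy density with the constant `C` in front of `lam H²` -/
noncomputable def G7 (C V lam H : ℝ) (w : Fin k → ℝ) (f : (Fin n → ℝ) × (Fin n → Fin k → ℝ) → ℝ)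
    (p : (Fin n → ℝ) × (Fin n → Fin k → ℝ)) : ℝ :=
  ∑ i, (96 * V * (eX f i p + ∑ j, w j * eZ f i j p) ^ 2 + C * lam * H ^ 2 * ∑ j, eZ f i j p ^ 2)

/-- the inequality on the cone, for all `n`, `R` and `f` -/
def IW (α β H : ℝ) (φ : ℝ → ℝ) (ψ : ℝ → Fin k → ℝ) (L : Set (Fin k → ℝ)) (lam : ℝ)
    (w : Fin k → ℝ) : Prop :=
  ∀ (n : ℕ) (R : Fin n → Fin n → Prop) (f : (Fin n → ℝ) × (Fin n → Fin k → ℝ) → ℝ),
  ContDiff ℝ 1 f →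
  (pw n (law (r5 α β k φ)) (CR R)).toReal *
      (∫ x in CR R, f7 ψ φ L f x ^ 2 ∂pw n (law (r5 α β k φ))) -
    (∫ x in CR R, f7 ψ φ L f x ∂pw n (law (r5 α β k φ))) ^ 2 ≤
  (pw n (law (r5 α β k φ)) (CR R)).toReal *
    ∫ x in CR R, f7 ψ φ L (G7 216 (V5 α β k φ) lam H w f) x ∂pw n (law (r5 α β k φ))

end

/-! ### 1. the line -/

/-- **WP7** (weights). Proof: copy `T2h95/OD/WP5.lean`; `m` = median (chosen first, it does not depend on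
`c`, `d`), there `θ x ≤ 1/(2 ρ m) = θ m` for all `x`. For the last clause: by `TL5` at `m` (right
tail = left tail = `1/2`) `|D| (1/2) ≤ φ m/(k+1) ρ m`, so `θ x |D| ≤ |D|/(2 ρ m) ≤ φ m/(k+1) ≤ H/(k+1)`. -/
def S_WP7 : Prop := ∀ (α β H : ℝ) (φ : ℝ → ℝ) (k : ℕ), HB α β H φ → ∃ m : ℝ, α < m ∧ m < β ∧
  ∀ c d : ℝ, α < c → c ≤ d → d < β → ∃ θ : ℝ → ℝ, Continuous θ ∧ (∀ x, 0 ≤ θ x) ∧
    WP (law (r5 α β k φ)) (fun x => 4 * θ x ^ 2) ∧ (∀ x, θ x ^ 2 ≤ 12 * V5 α β k φ) ∧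
    (∀ x ∈ Icc c d, ∀ D : ℝ, (∀ y ∈ Icc α β, φ y ≤ φ x + D * (y - x)) →
      θ x * |D| ≤ φ x / (k + 1)) ∧
    ∀ x, ∀ D : ℝ, (∀ y ∈ Icc α β, φ y ≤ φ m + D * (y - m)) → θ x * |D| ≤ H / (k + 1)

/-- **CV7** (support functions). Proof. For `x, y ∈ [α, β]`, `v` in `L` with `⟨u, v⟩` maximal (`L` compact,
nonempty) the points `(x, ψ x + φ x v)`, `(y, ψ y + φ y v)` are in `D7`, so is their convex combination: it
is `ψ t' + φ t' v''`, so `⟨u, ψ t'⟩ + φ t' B₀ ≥ (1-t)(⟨u, ψ x⟩ + φ x B₀) + t (...)`, `B₀` = maximum of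
`⟨u, ·⟩` on `L`. Add `φ (B - B₀)`, which is concave. -/
def S_CV7 : Prop := ∀ (k : ℕ) (α β H : ℝ) (φ : ℝ → ℝ) (ψ : ℝ → Fin k → ℝ) (L : Set (Fin k → ℝ)),
  HB α β H φ → LB L → CC α β φ ψ L → ∀ (u : Fin k → ℝ) (B : ℝ), (∀ v ∈ L, ∑ j, u j * v j ≤ B) →
  ConcaveOn ℝ (Icc α β) fun x => ∑ j, u j * ψ x j + φ x * B

/-- **SG7** (smoothing). Proof. `g` is half the difference of the concave functions `g + B φ` and
`-g + B φ` (and of a multiple of them in between). `s N x = (1/δ) ∫_x^{x+δ} g`, `δ = (β - d)/(2(N+1))`, as in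
`T2h95/OD/SM5.lean`; `deriv = (g(x+δ) - g x)/δ`. Slopes of a concave function on `[c, (d+β)/2]` are
bounded, and `(p(x+δ) - p x)/δ` is monotone in `δ`, so it converges to the right derivative
(`HasDerivWithinAt p _ (Ioi x) x`); take differences. `E = 0` outside `[c, d]`; measurable as a limit. -/
def S_SG7 : Prop := ∀ (α β H : ℝ) (φ : ℝ → ℝ), HB α β H φ → ∀ (g : ℝ → ℝ) (B : ℝ), Continuous g →
  ConcaveOn ℝ (Icc α β) (fun x => g x + B * φ x) →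
  ConcaveOn ℝ (Icc α β) (fun x => -g x + B * φ x) → ∀ c d : ℝ, α < c → c ≤ d → d < β →
  ∃ (s : ℕ → ℝ → ℝ) (E : ℝ → ℝ) (M : ℝ), (∀ N, ContDiff ℝ 1 (s N)) ∧
    (∀ lo hi : ℝ, (∀ x, lo ≤ g x ∧ g x ≤ hi) → ∀ N x, lo ≤ s N x ∧ s N x ≤ hi) ∧
    (∀ N, ∀ x ∈ Icc c d, |s N x| ≤ M ∧ |deriv (s N) x| ≤ M) ∧
    (∀ x, Tendsto (fun N => s N x) atTop (𝓝 (g x))) ∧ Measurable E ∧ (∀ x, |E x| ≤ M) ∧
    ∀ x ∈ Icc c d, Tendsto (fun N => deriv (s N) x) atTop (𝓝 (E x)) ∧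
      HasDerivWithinAt g (E x) (Ioi x) x

/-- **SD7** (the right derivative is a supergradient). Proof. Slopes of a concave function decrease:
for `y > x` the slope from `x` to `y` is at most the right derivative, for `y < x` the slope from `y` to
`x` is at least the right derivative. -/
def S_SD7 : Prop := ∀ (α β : ℝ) (p : ℝ → ℝ), ConcaveOn ℝ (Icc α β) p → ∀ x : ℝ, α < x → x < β →
  ∀ D : ℝ, HasDerivWithinAt p D (Ioi x) x → ∀ y ∈ Icc α β, p y ≤ p x + D * (y - x)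

/-- **SL7** (slopes). Proof from `CV7`, `SD7`. Let `x < y` (else exchange), `u = E_y - E_x`,
`B = r (∑ u_j²)^{1/2}`. `p = ⟨u, ψ⟩ + B φ` is concave (`CV7`, Cauchy-Schwarz) with the right derivatives
`⟨u, E⟩ + B D`, and these decrease (`SD7` twice): `⟨u, E_y - E_x⟩ ≤ B (D_x - D_y)`, i.e.
`∑ u_j² ≤ r (∑ u_j²)^{1/2} (D_x - D_y)`. -/
def S_SL7 : Prop := ∀ (k : ℕ) (α β H : ℝ) (φ : ℝ → ℝ) (ψ : ℝ → Fin k → ℝ) (L : Set (Fin k → ℝ)),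
  HB α β H φ → LB L → CC α β φ ψ L → ∀ (r x y Dx Dy : ℝ) (Ex Ey : Fin k → ℝ), 0 ≤ r →
  (∀ v ∈ L, ∑ j, v j ^ 2 ≤ r ^ 2) → α < x → x < β → α < y → y < β →
  HasDerivWithinAt φ Dx (Ioi x) x → HasDerivWithinAt φ Dy (Ioi y) y →
  (∀ j, HasDerivWithinAt (fun t => ψ t j) (Ex j) (Ioi x) x) →
  (∀ j, HasDerivWithinAt (fun t => ψ t j) (Ey j) (Ioi y) y) →
  ∑ j, (Ex j - Ey j) ^ 2 ≤ r ^ 2 * (Dx - Dy) ^ 2

/-! ### 2. the fibres -/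

/-- **BD7** (pointwise bound). Proof. `r² = 3 (k+1)² lam` bounds `|v|²`; `a = θ |D| ≤ H/(k+1)`,
`b = θ |D₀| ≤ H/(k+1)`. `e_j = (E_j - w_j) + D v_j`: `θ² |e|² ≤ (θ |E - w| + θ |D| |v|)² ≤
(r (a + b) + r a)² ≤ 9 r² H²/(k+1)² = 27 lam H²` (or `|e|² ≤ (3/2) |E - w|² + 3 |D v|²` ...), and
`(X + ⟨w, Z⟩ + ⟨e, Z⟩)² ≤ 2 (X + ⟨w, Z⟩)² + 2 |e|² |Z|²`. `8 · 12 = 96`, `8 · 27 = 216`. -/
def S_BD7 : Prop := ∀ (k : ℕ) (X V H lam θ D D₀ : ℝ) (w E v Z : Fin k → ℝ), 0 ≤ θ →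
  θ ^ 2 ≤ 12 * V → θ * |D| ≤ H / (k + 1) → θ * |D₀| ≤ H / (k + 1) → 0 ≤ H → 0 ≤ lam →
  ∑ j, (E j - w j) ^ 2 ≤ 3 * (k + 1) ^ 2 * lam * (D - D₀) ^ 2 →
  ∑ j, v j ^ 2 ≤ 3 * (k + 1) ^ 2 * lam →
  4 * θ ^ 2 * (X + ∑ j, (E j + D * v j) * Z j) ^ 2 ≤
    96 * V * (X + ∑ j, w j * Z j) ^ 2 + 216 * lam * H ^ 2 * ∑ j, Z j ^ 2

/-- **CU7** (variance over a fibre). As `T2h95/OD/CU5.lean`, from `TN5`. -/
def S_CU7 : Prop := ∀ (n k : ℕ) (α β H : ℝ) (φ : ℝ → ℝ) (ψ : ℝ → Fin k → ℝ) (L : Set (Fin k → ℝ))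
  (lam : ℝ), HB α β H φ → LB L → PL L lam → 0 ≤ lam →
  ∀ f : (Fin n → ℝ) × (Fin n → Fin k → ℝ) → ℝ, ContDiff ℝ 1 f → ∀ x : Fin n → ℝ,
  f7 ψ φ L (fun p => f p ^ 2) x ≤ f7 ψ φ L f x ^ 2 +
    f7 ψ φ L (fun p => ∑ i, ∑ j, lam * H ^ 2 * eZ f i j p ^ 2) x

/-- **FC7** (continuity of the mean over the fibre). As `T2h95/OD/FC5.lean`. -/
def S_FC7 : Prop := ∀ (n k : ℕ) (ψ : ℝ → Fin k → ℝ) (φ : ℝ → ℝ) (L : Set (Fin k → ℝ))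
  (F : (Fin n → ℝ) × (Fin n → Fin k → ℝ) → ℝ), LB L → Continuous ψ → Continuous φ →
  Continuous F → Continuous (f7 ψ φ L F)

/-- **GD7** (differentiation of the mean over the fibre). As `T2h95/OD/GD5.lean`. -/
def S_GD7 : Prop := ∀ (n k : ℕ) (ψ : ℝ → Fin k → ℝ) (φ : ℝ → ℝ) (L : Set (Fin k → ℝ))
  (f : (Fin n → ℝ) × (Fin n → Fin k → ℝ) → ℝ), LB L → (∀ j, ContDiff ℝ 1 fun t => ψ t j) →
  ContDiff ℝ 1 φ → ContDiff ℝ 1 f →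
  ContDiff ℝ 1 (f7 ψ φ L f) ∧ ∀ (i : Fin n) (x : Fin n → ℝ), pd (f7 ψ φ L f) i x =
    (∫ v in Ln n L, e7 f i (fun j => deriv (fun t => ψ t j) (x i)) (deriv φ (x i)) (v i)
      (x, s7 ψ φ x v)) / (volume (Ln n L)).toReal

/-- **LV7** (level `ε`). Proof from `EPS`, `WP7`, `CV7`, `SG7`, `SD7`, `SL7`, `GD7`, `BD7`, `CR5`, `LD5`,
`LC`. As `T2h95/OD/LV5.lean`. First `m` from `WP7`, and `w j` = right derivative of `ψ_j` at `m`, `D₀` that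
of `φ` (`SG7` on `[m, m]`; for `φ` take `g = φ`, `B = 1`, for `ψ_j` take `g = ψ_j` and `B` = bound of
`|v_j|` on `L` (`CV7` with `u = ± e_j`)). Given `ε`, `q`: `c = q 0`, `d = q 1` are in `(α, β)`; `θ` from
`WP7`; smoothings of `φ` and of all `ψ_j` on `[c, d]` from `SG7`; `EPS` with `τ = 4 θ²` for
`G_N = f7 (ψ_N) (φ_N) L f`; Jensen, `N → ∞` by dominated convergence; then `BD7`, where
`∑ (E_j(x) - w_j)² ≤ r² (D x - D₀)²` by `SL7` and `CR5`, `r² = 3 (k+1)² lam`, and both `D x`, `D₀` are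
supergradients by `SD7`. -/
def S_LV7 : Prop := ∀ (α β H : ℝ) (φ : ℝ → ℝ) (k : ℕ) (ψ : ℝ → Fin k → ℝ) (L : Set (Fin k → ℝ))
  (lam : ℝ), 1 ≤ k → HB α β H φ → LB L → CC α β φ ψ L → PL L lam → 0 ≤ lam →
  ∃ w : Fin k → ℝ, ∀ (ε : ℝ) (q : ℝ → ℝ), 0 < ε → ε < 1 / 2 → QF (law (r5 α β k φ)) ε q →
  ∀ (n : ℕ) (R : Fin n → Fin n → Prop)
  (f : (Fin n → ℝ) × (Fin n → Fin k → ℝ) → ℝ), ContDiff ℝ 1 f →
  (pw n (law (r5 α β k φ)) (CR R ∩ Bx n (q 0) (q 1))).toReal *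
      (∫ x in CR R ∩ Bx n (q 0) (q 1), f7 ψ φ L f x ^ 2 ∂pw n (law (r5 α β k φ))) -
    (∫ x in CR R ∩ Bx n (q 0) (q 1), f7 ψ φ L f x ∂pw n (law (r5 α β k φ))) ^ 2 ≤
  (pw n (law (r5 α β k φ)) (CR R ∩ Bx n (q 0) (q 1))).toReal *
    ∫ x in CR R ∩ Bx n (q 0) (q 1),
      f7 ψ φ L (G7 216 (V5 α β k φ) lam H w f) x ∂pw n (law (r5 α β k φ))

/-- **LC7** (on the cone). As `T2h95/OD/LC5.lean`. -/
def S_LC7 : Prop := ∀ (α β H : ℝ) (φ : ℝ → ℝ) (k : ℕ) (ψ : ℝ → Fin k → ℝ) (L : Set (Fin k → ℝ))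
  (lam : ℝ), 1 ≤ k → HB α β H φ → LB L → CC α β φ ψ L → PL L lam → 0 ≤ lam →
  ∃ w : Fin k → ℝ, IW α β H φ ψ L lam w

/-- **FA7** (affine change of variables). As `T2h95/OD/FA5.lean`. -/
def S_FA7 : Prop := ∀ (n k : ℕ) (ψ : ℝ → Fin k → ℝ) (φ : ℝ → ℝ) (L : Set (Fin k → ℝ)), 1 ≤ k →
  LB L → (∀ x, 0 ≤ φ x) → ∀ (x : Fin n → ℝ) (g : (Fin n → Fin k → ℝ) → ℝ), Continuous g →
  ∫ z in {z : Fin n → Fin k → ℝ | ∀ i, ∃ v ∈ L, ∀ j, z i j = ψ (x i) j + φ (x i) * v j}, g z =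
    (∏ i, φ (x i) ^ k) * ∫ v in Ln n L, g (s7 ψ φ x v)

/-- **FU7**. As `T2h95/OD/FU5.lean`. -/
def S_FU7 : Prop := ∀ (α β H : ℝ) (φ : ℝ → ℝ) (k : ℕ) (ψ : ℝ → Fin k → ℝ) (L : Set (Fin k → ℝ)),
  1 ≤ k → HB α β H φ → LB L → Continuous ψ → ∀ (n : ℕ) (R : Fin n → Fin n → Prop)
  (G : (Fin n → ℝ) × (Fin n → Fin k → ℝ) → ℝ), Continuous G →
  ∫ p in K5 (D7 α β ψ φ L) R, G p = (A5 α β k φ * (volume L).toReal) ^ n *
    ∫ x in CR R, f7 ψ φ L G x ∂pw n (law (r5 α β k φ))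

/-- **PO7** (Poincare inequality on `K5`). As `T2h95/OD/PO5.lean`. -/
def S_PO7 : Prop := ∀ (α β H : ℝ) (φ : ℝ → ℝ) (k : ℕ) (ψ : ℝ → Fin k → ℝ) (L : Set (Fin k → ℝ))
  (lam : ℝ) (w : Fin k → ℝ), 1 ≤ k → HB α β H φ → LB L → Continuous ψ → PL L lam → 0 ≤ lam →
  IW α β H φ ψ L lam w → ∀ (n : ℕ) (R : Fin n → Fin n → Prop)
  (f : (Fin n → ℝ) × (Fin n → Fin k → ℝ) → ℝ), ContDiff ℝ 1 f →
  (volume (K5 (D7 α β ψ φ L) R)).toReal * (∫ p in K5 (D7 α β ψ φ L) R, f p ^ 2) -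
    (∫ p in K5 (D7 α β ψ φ L) R, f p) ^ 2 ≤
  (volume (K5 (D7 α β ψ φ L) R)).toReal *
    ∫ p in K5 (D7 α β ψ φ L) R, G7 217 (V5 α β k φ) lam H w f p

/-- **SY7** (symmetric functions). As `T2h95/OD/SY5.lean`. -/
def S_SY7 : Prop := ∀ (α β H : ℝ) (φ : ℝ → ℝ) (k : ℕ) (ψ : ℝ → Fin k → ℝ) (L : Set (Fin k → ℝ)),
  1 ≤ k → HB α β H φ → LB L → Continuous ψ → ∀ (n : ℕ) (R : Fin n → Fin n → Prop)
  (G : (Fin n → ℝ) × (Fin n → Fin k → ℝ) → ℝ), Continuous G →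
  (∀ (p : Equiv.Perm (Fin n)) (z : (Fin n → ℝ) × (Fin n → Fin k → ℝ)),
    G (fun i => z.1 (p i), fun i => z.2 (p i)) = G z) →
  ∫ p in K5 (D7 α β ψ φ L) R, G p = (volume (K5 (D7 α β ψ φ L) R)).toReal *
    ∫ x, f7 ψ φ L G x ∂pw n (law (r5 α β k φ))

/-- **FL7** (mean over the fibre of the square of a sum). As `T2h95/OD/FL5.lean`. -/
def S_FL7 : Prop := ∀ (n k : ℕ) (ψ : ℝ → Fin k → ℝ) (u : Fin k → ℝ) (φ : ℝ → ℝ)
  (L : Set (Fin k → ℝ)) (a₀ c : ℝ) (x : Fin n → ℝ), LB L →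
  f7 ψ φ L (fun p => (∑ i, (a₀ * p.1 i + ∑ j, u j * p.2 i j) - c) ^ 2) x =
    (∑ i, (a₀ * x i + ∑ j, u j * ψ (x i) j) - c) ^ 2 +
      (∑ i, φ (x i) ^ 2) * EL L (fun v => (∑ j, u j * v j) ^ 2)

/-- **LI7** (variances of linear functions, from below). As `T2h95/OD/LI5.lean`. -/
def S_LI7 : Prop := ∀ (α β H : ℝ) (φ : ℝ → ℝ) (k : ℕ) (ψ : ℝ → Fin k → ℝ) (u : Fin k → ℝ)
  (L : Set (Fin k → ℝ)) (a₀ c : ℝ) (n : ℕ), 1 ≤ k → HB α β H φ → LB L → Continuous ψ →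
  n * (ProbabilityTheory.variance (fun x : ℝ => a₀ * x + ∑ j, u j * ψ x j) (law (r5 α β k φ)) +
    H ^ 2 / 4 * EL L (fun v => (∑ j, u j * v j) ^ 2)) ≤
  ∫ x, f7 ψ φ L (fun p => (∑ i, (a₀ * p.1 i + ∑ j, u j * p.2 i j) - c) ^ 2) x
    ∂pw n (law (r5 α β k φ))

/-- **LW7** (the centres are near a line). Proof. `IW` for `n = 1`, no relations (`CR = univ`) and
`f (x, z) = ∑ u_j z_{0j} - b x_0`, `b = ∑ u_j w_j`: `f7 f x = ∑ u_j ψ_j(x_0) - b x_0` (the barycentre of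
`L` is `0`), `eX f = -b`, `eZ f = u_j`, so `G7 = 216 lam H² ∑ u_j²`. -/
def S_LW7 : Prop := ∀ (α β H : ℝ) (φ : ℝ → ℝ) (k : ℕ) (ψ : ℝ → Fin k → ℝ) (L : Set (Fin k → ℝ))
  (lam : ℝ) (w : Fin k → ℝ), 1 ≤ k → HB α β H φ → LB L → Continuous ψ → 0 ≤ lam →
  IW α β H φ ψ L lam w → ∀ u : Fin k → ℝ,
  ProbabilityTheory.variance (fun x : ℝ => ∑ j, u j * ψ x j - (∑ j, u j * w j) * x)
    (law (r5 α β k φ)) ≤ 216 * lam * H ^ 2 * ∑ j, u j ^ 2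

/-! ### 3. Euclidean space -/

/-- ordered tuples `(x_i, z_i)`, `x_i = y (inl i)`, `z_i = (y (inr (i, j)))_j` -/
def KE7 {n k : ℕ} (D : Set (ℝ × (Fin k → ℝ))) (R : Fin n → Fin n → Prop) :
    Set (EuclideanSpace ℝ (Fin n ⊕ Fin n × Fin k)) :=
  {y | (∀ i, (y (Sum.inl i), fun j => y (Sum.inr (i, j))) ∈ D) ∧
    ∀ i j, R i j → y (Sum.inl i) ≤ y (Sum.inl j)}

/-- all nonempty sections of `D` are homothetic to `L` -/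
def Hom {k : ℕ} (L : Set (Fin k → ℝ)) (D : Set (ℝ × (Fin k → ℝ))) : Prop :=
  ∀ (x : ℝ) (z : Fin k → ℝ), (x, z) ∈ D → ∃ (a : Fin k → ℝ) (r : ℝ), 0 ≤ r ∧
    ∀ z' : Fin k → ℝ, (x, z') ∈ D ↔ ∃ v ∈ L, ∀ j, z' j = a j + r * v j

/-- **EU7** (translation). As `T2h95/OD/EU5.lean`. -/
def S_EU7 : Prop := ∀ (n k : ℕ) (D : Set (ℝ × (Fin k → ℝ))) (R : Fin n → Fin n → Prop),
  volume (KE7 D R) = volume (K5 D R) ∧
  ∀ G : EuclideanSpace ℝ (Fin n ⊕ Fin n × Fin k) → ℝ, ∫ y in KE7 D R, G y =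
    ∫ p in K5 D R, G (pe p)

/-- **GE7** (`KE7` is a convex body). As `T2h95/OC/GEO2.lean`. -/
def S_GE7 : Prop := ∀ (n k : ℕ) (D : Set (ℝ × (Fin k → ℝ))) (R : Fin n → Fin n → Prop),
  IsCompact D → Convex ℝ D → (interior D).Nonempty →
  (∀ a b, R a b → R b a → a = b) → (∀ a b c, R a b → R b c → R a c) →
  IsCompact (KE7 D R) ∧ Convex ℝ (KE7 D R) ∧ (interior (KE7 D R)).Nonempty

/-- **DA7** (support functions of the sections of a compact convex set are continuous). Proof. `h`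
takes finite values on `[α, β]`: sections over `[α, β]` are nonempty compact. Concave: convexity of `D`.
Continuous on `(α, β)` by concavity; at `α`: `liminf ≥` by concavity along the segment
(`h(α + s) ≥ (1 - s') h(α) + s' h(β)`), `limsup ≤` because `D` is closed and bounded (a limit point of
maximisers is in the section over `α`). -/
def S_DA7 : Prop := ∀ (k : ℕ) (D : Set (ℝ × (Fin k → ℝ))) (α β : ℝ), IsCompact D → Convex ℝ D →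
  α < β → (∀ x, (∃ z, (x, z) ∈ D) ↔ α ≤ x ∧ x ≤ β) → ∀ (u : Fin k → ℝ) (h : ℝ → ℝ),
  (∀ x ∈ Icc α β, (∃ z, (x, z) ∈ D ∧ ∑ j, u j * z j = h x) ∧
    ∀ z, (x, z) ∈ D → ∑ j, u j * z j ≤ h x) → ConcaveOn ℝ (Icc α β) h ∧ ContinuousOn h (Icc α β)

/-- **DB7** (bodies with homothetic sections). Proof from `DA7`. The projection of `D` to the line is
`[α, β]`, `α < β` (interior). For `x ∈ [α, β]` choose `a x`, `r x` (`Hom`). For `u` with maximum `B_u`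
on `L` the support function of the section is `⟨u, a x⟩ + r x B_u`, concave and continuous by `DA7`. With
`u` and `-u`, `u = e_0` (`k ≥ 1`, `volume L > 0`, so `B_u + B_{-u} > 0`): `r` is concave and
continuous; then `⟨u, a x⟩` is continuous. Clamp both to `[α, β]`. `H` = maximum of `r`, `> 0` and `r > 0`
inside because `D` has interior points (concavity). -/
def S_DB7 : Prop := ∀ (k : ℕ) (L : Set (Fin k → ℝ)) (D : Set (ℝ × (Fin k → ℝ))), 1 ≤ k → LB L →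
  IsCompact D → Convex ℝ D → (interior D).Nonempty → Hom L D →
  ∃ (α β H : ℝ) (φ : ℝ → ℝ) (ψ : ℝ → Fin k → ℝ), HB α β H φ ∧ CC α β φ ψ L ∧ D = D7 α β ψ φ L

/-- **TR7** (translation of `L`). Proof. `b` = barycentre, `(∫_L v)/|L|`; translation invariance of the
volume (`EV`, `VV`: `Pool.Agent.W695.KH.Defs`). -/
def S_TR7 : Prop := ∀ (k : ℕ) (L : Set (EuclideanSpace ℝ (Fin k))), Convex ℝ L → IsCompact L →
  (interior L).Nonempty → ∃ b : EuclideanSpace ℝ (Fin k), CB ((fun v => v - b) '' L) ∧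
  ∀ f : EuclideanSpace ℝ (Fin k) → ℝ,
    Pool.Agent.W695.KH.EV ((fun v => v - b) '' L) f = Pool.Agent.W695.KH.EV L (fun v => f (v - b)) ∧
    Pool.Agent.W695.KH.VV ((fun v => v - b) '' L) f = Pool.Agent.W695.KH.VV L (fun v => f (v - b))

/-- **TH7** (the theorem, for `L` with barycentre `0`). As `T2h95/OD/TH5.lean`. `D = D7 ...` by `DB7`,
`lam = κ Var_L ⟪θ₀, ·⟫` (`κ ≥ 1`, `lam > 0`), `w` from `LC7`, `V = V5`, `W = ∑ w_j²`. By `PO7`, `EU7`, `GR5` and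
`(X + ⟨w, Z⟩)² ≤ (1 + W)(X² + |Z|²)` the Poincare constant of `KE7` is `Cp = 96 V (1 + W) + 217 lam H²`.
Linear functions `⟪Θ, y⟫ = (1/√n) ∑ (a₀ x_i + ⟨u, z_i⟩)`, `a₀² + |u|² = 1`: by `SY7` and `LI7` the mean of
`(⟪Θ, y⟫ - m)²` is at least `Var_ν (a₀ x + ⟨u, ψ x⟩) + H²/4 Var_L ⟪u, ·⟫`. Take `(1, 0)`: `V`; `(0, θ₀)`:
`≥ H² lam/(4κ)`; if `w ≠ 0` `(0, w/|w|)`: `W V = Var_ν(|w| x) ≤ 2 Var_ν ⟨u, ψ x⟩ + 2 Var_ν (⟨u, ψ x⟩ - |w| x)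
≤ 2 Var_ν ⟨u, ψ x⟩ + 432 lam H²` (`LW7`). So with `M` = the largest of the three
`Cp ≤ 96 M + 96 (2 M + 432 lam H²) + 217 lam H² ≤ 288 M + 41689 · 4 κ M ≤ 167044 κ M`. -/
def S_TH7 : Prop := ∃ c : ℝ, 0 < c ∧ ∀ (n k : ℕ) (κ : ℝ) (θ₀ : EuclideanSpace ℝ (Fin k))
  (L : Set (EuclideanSpace ℝ (Fin k))) (D : Set (ℝ × (Fin k → ℝ))) (R : Fin n → Fin n → Prop),
  1 ≤ n → 1 ≤ k → CB L → ‖θ₀‖ = 1 → (∀ v : EuclideanSpace ℝ (Fin k) → ℝ, ContDiff ℝ 1 v →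
    Pool.Agent.W695.KH.VV L v ≤ κ * Pool.Agent.W695.KH.VV L (fun x => ⟪θ₀, x⟫_ℝ) *
      Pool.Agent.W695.KH.EV L fun x => ‖fderiv ℝ v x‖ ^ 2) →
  IsCompact D → Convex ℝ D → (interior D).Nonempty → Hom (crd k L) D →
  (∀ a b, R a b → R b a → a = b) → (∀ a b c, R a b → R b c → R a c) →
  KLSg (c / Real.sqrt κ) (KE7 D R)

end Pool.Agent.T2h95.OF
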