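import Pool.Agent.T2h95.OF.TH7

/-!
# The theorem in the Poincare form (after `TH7.lean` by helper82)
-/

set_option autoImplicit false

namespace Pool.Agent.T2h95.OF

open MeasureTheory Set Filter Topology
open scoped ENNReal InnerProductSpace
open Pool.Agent.T2h95.OC
open Pool.Agent.T2h95.OD
open Pool.Agent.T2h95.OD.TH5A
open Pool.Agent.W695.KH (EV VV)

/-- Poincare inequality with a constant `Cp`, and a linear function of variance at least `Cp/κ` -/
def Tgt {ι : Type} [Fintype ι] (κ : ℝ) (K : Set (EuclideanSpace ℝ ι)) : Prop :=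
  ∃ (Cp : ℝ) (θ : EuclideanSpace ℝ ι), 0 < Cp ∧ ‖θ‖ = 1 ∧
    (∀ v : EuclideanSpace ℝ ι → ℝ, ContDiff ℝ 1 v → VV K v ≤ Cp * EV K fun x => ‖fderiv ℝ v x‖ ^ 2) ∧
    ∀ m : ℝ, Cp ≤ κ * EV K fun x => (⟪θ, x⟫_ℝ - m) ^ 2

def S_TH7P : Prop := ∀ (n k : ℕ) (κ : ℝ) (θ₀ : EuclideanSpace ℝ (Fin k))
  (L : Set (EuclideanSpace ℝ (Fin k))) (D : Set (ℝ × (Fin k → ℝ))) (R : Fin n → Fin n → Prop),
  1 ≤ n → 1 ≤ k → CB L → ‖θ₀‖ = 1 → (∀ v : EuclideanSpace ℝ (Fin k) → ℝ, ContDiff ℝ 1 v →
    Pool.Agent.W695.KH.VV L v ≤ κ * Pool.Agent.W695.KH.VV L (fun x => ⟪θ₀, x⟫_ℝ) *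
      Pool.Agent.W695.KH.EV L fun x => ‖fderiv ℝ v x‖ ^ 2) →
  IsCompact D → Convex ℝ D → (interior D).Nonempty → Hom (crd k L) D →
  (∀ a b, R a b → R b a → a = b) → (∀ a b c, R a b → R b c → R a c) →
  Tgt (167044 * κ) (KE7 D R)

open TH7A in
theorem t_TH7P (hDB : S_DB7) (hLC7 : S_LC7) (hPO : S_PO7) (hLW : S_LW7) (hSY : S_SY7)
    (hLI : S_LI7) (hEU : S_EU7) (hGR : S_GR5) (hCB : S_CB5) (hGE : S_GE7)
    (hIN : S_IN5) (hLD : S_LD5) (hLC : S_LC) : S_TH7P := by
  intro n k κ θ₀ L D R hn hk hL hθ hPoi hDc hDv hDi hHom hR1 hR2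
  obtain ⟨hLB, hPLl, hVar⟩ := hCB k L hL
  obtain ⟨α, β, H, φ, ψ, hP, hCC, rfl⟩ := hDB k (crd k L) D hk hLB hDc hDv hDi hHom
  obtain ⟨k1, k2, k3⟩ := hGE n k _ R hDc hDv hDi hR1 hR2
  have hpos : 0 < volume (KE7 (D7 α β ψ φ (crd k L)) R) :=
    (isOpen_interior.measure_pos volume k3).trans_le (measure_mono interior_subset)
  -- the variance of `θ₀`
  have hLpos : 0 < (volume L).toReal := by
    refine ENNReal.toReal_pos ?_ hL.comp.measure_lt_top.ne
    exact ((isOpen_interior.measure_pos volume hL.int).trans_le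
      (measure_mono interior_subset)).ne'
  have hVpos : 0 < VV L (fun x => ⟪θ₀, x⟫_ℝ) := by
    have h1 := var_pos hL θ₀ hθ
    have h2 : ∫ x in L, ⟪θ₀, x⟫_ℝ = 0 := by
      have hid : IntegrableOn (fun x : EuclideanSpace ℝ (Fin k) => x) L volume :=
        continuous_id.continuousOn.integrableOn_compact hL.comp
      have := ContinuousLinearMap.integral_comp_comm (innerSL ℝ θ₀) hid
      simp only [innerSL_apply_apply] at this
      rw [this, hL.cen, inner_zero_right]
    unfold VV EV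
    rw [h2, zero_div, zero_pow two_ne_zero, sub_zero]
    exact div_pos h1 hLpos
  have hκ : 1 ≤ κ := by
    have h1 := hPoi (fun x => ⟪θ₀, x⟫_ℝ) (contDiff_const.inner ℝ contDiff_id)
    have h2 : ∀ x : EuclideanSpace ℝ (Fin k), ‖fderiv ℝ (fun x => ⟪θ₀, x⟫_ℝ) x‖ ^ 2 = 1 := by
      intro x
      have : (fun x => ⟪θ₀, x⟫_ℝ) = (innerSL ℝ θ₀ : EuclideanSpace ℝ (Fin k) → ℝ) := by
        ext x
        rw [innerSL_apply_apply]
      rw [this, ContinuousLinearMap.fderiv, innerSL_apply_norm, hθ, one_pow]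
    have h3 : EV L (fun x => ‖fderiv ℝ (fun x => ⟪θ₀, x⟫_ℝ) x‖ ^ 2) = 1 := by
      unfold EV
      simp only [h2]
      rw [setIntegral_const, smul_eq_mul, mul_one, Measure.real, div_self hLpos.ne']
    rw [h3, mul_one] at h1
    by_contra h4
    push Not at h4
    nlinarith
  have hκ0 : 0 < κ := by linarith
  set S : ℝ := VV L (fun x => ⟪θ₀, x⟫_ℝ) with hS
  set lam : ℝ := κ * S with hlam
  have hlam0 : 0 < lam := by positivity
  have hPL : PL (crd k L) lam := hPLl lam hPoi
  obtain ⟨w, hIW⟩ := hLC7 α β H φ k ψ (crd k L) lam hk hP hLB hCC hPL hlam0.le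
  haveI : IsProbabilityMeasure (law (r5 α β k φ)) := (hLC _ (hLD α β H φ k hP).2).1
  have hV0 : 0 ≤ V5 α β k φ := ProbabilityTheory.variance_nonneg _ _
  have hH := hP.hpos
  set V := V5 α β k φ with hV
  set W : ℝ := ∑ j, w j ^ 2 with hW
  have hW0 : 0 ≤ W := Finset.sum_nonneg fun j _ => sq_nonneg _
  set Cp : ℝ := 96 * V * (1 + W) + 217 * lam * H ^ 2 with hCp
  have hCp0 : 0 < Cp := by positivity
  have hEL0 : ∀ u : Fin k → ℝ, 0 ≤ H ^ 2 / 4 * EL (crd k L) (fun v => (∑ j, u j * v j) ^ 2) := by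
    intro u
    unfold EL
    exact mul_nonneg (by positivity)
      (div_nonneg (integral_nonneg fun v => sq_nonneg _) ENNReal.toReal_nonneg)
  have hVr0 : ∀ (a₀ : ℝ) (u : Fin k → ℝ), 0 ≤ ProbabilityTheory.variance
      (fun x : ℝ => a₀ * x + ∑ j, u j * ψ x j) (law (r5 α β k φ)) :=
    fun _ _ => ProbabilityTheory.variance_nonneg _ _
  have key : ∀ (a₀ : ℝ) (u : Fin k → ℝ), a₀ ^ 2 + ∑ j, u j ^ 2 = 1 →
      Cp ≤ 167044 * κ * (ProbabilityTheory.variance (fun x : ℝ => a₀ * x + ∑ j, u j * ψ x j)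
        (law (r5 α β k φ)) + H ^ 2 / 4 * EL (crd k L) (fun v => (∑ j, u j * v j) ^ 2)) →
      Tgt (167044 * κ) (KE7 (D7 α β ψ φ (crd k L)) R) := by
    intro a₀ u hu hle
    refine ⟨Cp, th n a₀ u, hCp0, norm_th hn a₀ u hu,
      fun v hv => poincare7 hPO hEU hGR hk hP hLB hCC.cont hPL hlam0.le w hIW k1 hpos Cp hV0
        le_rfl v hv, ?_⟩
    intro m
    exact hle.trans (mul_le_mul_of_nonneg_left
      (lower7 hSY hLI hEU hk hn hP hLB hCC.cont k1 hpos a₀ u m) (by positivity))
  set A : ℝ := H ^ 2 / 4 * S with hA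
  have hA0 : 0 < A := by positivity
  have hlH : lam * H ^ 2 = 4 * (κ * A) := by
    rw [hlam, hA]
    ring
  -- the three choices
  have key1 : Cp ≤ 167044 * κ * V → Tgt (167044 * κ) (KE7 (D7 α β ψ φ (crd k L)) R) := by
    intro h
    refine key 1 0 (by simp) (h.trans ?_)
    refine mul_le_mul_of_nonneg_left ?_ (by positivity)
    have e1 : ProbabilityTheory.variance (fun x : ℝ => 1 * x + ∑ j, (0 : Fin k → ℝ) j * ψ x j)
        (law (r5 α β k φ)) = V := by
      rw [hV]
      unfold V5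
      congr 1
      funext x
      simp
    rw [e1]
    linarith [hEL0 0]
  have key2 : Cp ≤ 167044 * κ * A → Tgt (167044 * κ) (KE7 (D7 α β ψ φ (crd k L)) R) := by
    intro h
    refine key 0 (fun j => θ₀ j) ?_ (h.trans ?_)
    · rw [EuclideanSpace.norm_eq] at hθ
      have h3 : ∑ j, θ₀ j ^ 2 = 1 := by
        have h4 := Real.sqrt_eq_one.1 hθ
        simpa [Real.norm_eq_abs, sq_abs] using h4
      rw [h3]
      norm_num
    · refine mul_le_mul_of_nonneg_left ?_ (by positivity)
      rw [← hVar θ₀, ← hS, ← hA]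
      linarith [hVr0 0 (fun j => θ₀ j)]
  have hκA : A ≤ κ * A := le_mul_of_one_le_left hA0.le hκ
  have hκV : V ≤ κ * V := le_mul_of_one_le_left hV0 hκ
  rcases hW0.lt_or_eq with hWp | hW00
  · have hsW : 0 < √W := Real.sqrt_pos.2 hWp
    have hsW2 : (√W) ^ 2 = W := Real.sq_sqrt hW0
    set u : Fin k → ℝ := fun j => (√W)⁻¹ * w j with hu
    have hu1 : ∑ j, u j ^ 2 = 1 := by
      simp only [hu, mul_pow]
      rw [← Finset.mul_sum, ← hW, inv_pow, hsW2, inv_mul_cancel₀ hWp.ne']
    have hu2 : ∑ j, u j * w j = √W := by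
      have : ∑ j, u j * w j = (√W)⁻¹ * W := by
        rw [hW, Finset.mul_sum]
        refine Finset.sum_congr rfl fun j _ => ?_
        simp only [hu]
        ring
      rw [this]
      nth_rewrite 2 [← hsW2]
      field_simp
    set M2 : ℝ := ProbabilityTheory.variance (fun x : ℝ => 0 * x + ∑ j, u j * ψ x j)
      (law (r5 α β k φ)) with hM2
    have hM20 : 0 ≤ M2 := hVr0 0 u
    have hWV : W * V ≤ 2 * M2 + 1728 * (κ * A) := by
      have h1 := hLW α β H φ k ψ (crd k L) lam w hk hP hLB hCC.cont hlam0.le hIW u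
      rw [hu1, hu2, mul_one] at h1
      have hc1 : Continuous fun x : ℝ => 0 * x + ∑ j, u j * ψ x j := by
        have := hCC.cont
        fun_prop
      have hc2 : Continuous fun x : ℝ => ∑ j, u j * ψ x j - √W * x := by
        have := hCC.cont
        fun_prop
      have h2 := var_sub_le (memLp_cont hLD hLC hIN k hP hc1) (memLp_cont hLD hLC hIN k hP hc2)
      have h3 : (fun x : ℝ => (0 * x + ∑ j, u j * ψ x j) - (∑ j, u j * ψ x j - √W * x)) =
          fun x : ℝ => √W * x := by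
        funext x
        ring
      rw [h3] at h2
      have h4 : ProbabilityTheory.variance (fun x : ℝ => √W * x) (law (r5 α β k φ)) = W * V := by
        rw [ProbabilityTheory.variance_const_mul, hsW2]
        rfl
      rw [h4] at h2
      have h5 : 216 * lam * H ^ 2 = 864 * (κ * A) := by
        calc 216 * lam * H ^ 2 = 216 * (lam * H ^ 2) := by ring
          _ = 864 * (κ * A) := by rw [hlH]; ring
      linarith
    have hCpb : Cp ≤ 96 * V + 192 * M2 + 166756 * (κ * A) := by
      have : Cp = 96 * V + 96 * (W * V) + 217 * (lam * H ^ 2) := by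
        rw [hCp]
        ring
      rw [this, hlH]
      linarith
    have hκM : M2 ≤ κ * M2 := le_mul_of_one_le_left hM20 hκ
    have key3 : Cp ≤ 167044 * κ * M2 →
        Tgt (167044 * κ) (KE7 (D7 α β ψ φ (crd k L)) R) := by
      intro h
      refine key 0 u (by rw [hu1]; norm_num) (h.trans ?_)
      refine mul_le_mul_of_nonneg_left ?_ (by positivity)
      linarith [hEL0 u]
    rcases le_total M2 V with h1 | h1
    · rcases le_total A V with h2 | h2
      · refine key1 ?_
        have h3 := mul_le_mul_of_nonneg_left h2 hκ0.le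
        have h4 : 167044 * κ * V = 167044 * (κ * V) := by ring
        linarith
      · refine key2 ?_
        have h3 := mul_le_mul_of_nonneg_left h2 hκ0.le
        have h4 : 167044 * κ * A = 167044 * (κ * A) := by ring
        linarith
    · rcases le_total A M2 with h2 | h2
      · refine key3 ?_
        have h3 := mul_le_mul_of_nonneg_left h2 hκ0.le
        have h4 : 167044 * κ * M2 = 167044 * (κ * M2) := by ring
        linarith
      · refine key2 ?_
        have h3 := mul_le_mul_of_nonneg_left h2 hκ0.le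
        have h4 : 167044 * κ * A = 167044 * (κ * A) := by ring
        linarith
  · have hCpb : Cp = 96 * V + 868 * (κ * A) := by
      have : Cp = 96 * V + 96 * (W * V) + 217 * (lam * H ^ 2) := by
        rw [hCp]
        ring
      rw [this, hlH, ← hW00]
      ring
    rcases le_total A V with h2 | h2
    · refine key1 ?_
      have h3 := mul_le_mul_of_nonneg_left h2 hκ0.le
      have h4 : 167044 * κ * V = 167044 * (κ * V) := by ring
      linarith
    · refine key2 ?_
      have h3 := mul_le_mul_of_nonneg_left h2 hκ0.le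
      have h4 : 167044 * κ * A = 167044 * (κ * A) := by ring
      linarith

end Pool.Agent.T2h95.OF
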